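import Pool.Agent.Lib.MP_641cb6_lc.KN.Defs
import Pool.Agent.Lib.MP_641cb6_lc.KG.RRed

/-!
# REDN: the real reduction with several base variables
-/

set_option autoImplicit false

namespace Pool.Agent.Lib.MP_641cb6_lc.KN

open MvPolynomial Set Topology Filter
open Pool.Agent.Lib.MP_641cb6_lc.KH (LogType PolyType bd kh nz jac)
open Pool.Agent.Lib.MP_641cb6_lc.KC (logType_const logType_add logType_smul logType_log)
open Pool.Agent.Lib.MP_641cb6_lc.KG (bd_leG eval_congr_vars polyType_diff)

namespace RedN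

variable {K r : ℕ}

/-! ### the rows -/

/-- the denominator: the product of the variables of the functions -/
noncomputable def wN (K r : ℕ) : MvPolynomial (Fin (K + r)) ℝ := ∏ j : Fin r, X (Fin.natAdd K j)

lemma deg_prodX (s : Finset (Fin r)) :
    (∏ j ∈ s, X (Fin.natAdd K j) : MvPolynomial (Fin (K + r)) ℝ).totalDegree ≤ s.card := by
  refine (totalDegree_finsetProd _ _).trans ?_
  refine (Finset.sum_le_card_nsmul s _ 1 fun i _ => ?_).trans ?_
  · rw [totalDegree_X]
  · rw [smul_eq_mul, mul_one]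

lemma deg_wN : (wN K r).totalDegree ≤ r := by
  have h := deg_prodX (K := K) (r := r) Finset.univ
  rwa [Finset.card_univ, Fintype.card_fin] at h

lemma logXN (i : Fin r) : LogType (wN K r) r fun y => Real.log (y (Fin.natAdd K i)) := by
  classical
  refine logType_log (w' := ∏ j ∈ Finset.univ.erase i, X (Fin.natAdd K j)) ?_ ?_
  · rw [wN, ← Finset.mul_prod_erase _ _ (Finset.mem_univ i)]
  · refine (deg_prodX _).trans ((Finset.card_le_univ _).trans ?_)
    rw [Fintype.card_fin]

lemma logSumN {ι : Type} (s : Finset ι) {g : ι → (Fin (K + r) → ℝ) → ℝ}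
    (hg : ∀ i, LogType (wN K r) r (g i)) : LogType (wN K r) r fun x => ∑ i ∈ s, g i x := by
  classical
  induction s using Finset.induction_on with
  | empty => simpa using logType_const (wN K r) (0 : ℝ)
  | insert i s hi ih =>
    have h := logType_add (hg i) ih
    simpa only [Finset.sum_insert hi] using h

/-- the logarithmic row -/
noncomputable def rowL (i : Fin r) (c : ℝ) (A : Fin r → ℝ) (y : Fin (K + r) → ℝ) : ℝ :=
  Real.log (y (Fin.natAdd K i)) + (-1) * (c + ∑ j, A j * Real.log (y (Fin.natAdd K j)))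

lemma rowL_type (i : Fin r) (c : ℝ) (A : Fin r → ℝ) :
    LogType (wN K r) r (rowL (K := K) i c A) :=
  logType_add (logXN i) (logType_smul (-1) (logType_add (logType_const _ c)
    (logSumN Finset.univ (g := fun j y => A j * Real.log (y (Fin.natAdd K j)))
      (fun j => logType_smul (A j) (logXN j)))))

/-- the values of the variables -/
def sp (y : Fin (K + r) → ℝ) : Fin K ⊕ Fin r → ℝ :=
  Sum.elim (fun k => y (Fin.castAdd r k)) fun j => y (Fin.natAdd K j)

lemma eval_sp (p : MvPolynomial (Fin K ⊕ Fin r) ℝ) (y : Fin (K + r) → ℝ) :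
    eval (sp y) p = eval y (rename (Sum.elim (Fin.castAdd r) (Fin.natAdd K)) p) := by
  rw [eval_rename]
  congr 2
  funext j
  rcases j with j | j <;> rfl

lemma polyType_sp {p : MvPolynomial (Fin K ⊕ Fin r) ℝ} {d : ℕ} (hp : p.totalDegree ≤ d) :
    PolyType d fun y : Fin (K + r) → ℝ => eval (sp y) p :=
  ⟨rename (Sum.elim (Fin.castAdd r) (Fin.natAdd K)) p, (totalDegree_rename_le _ _).trans hp,
    fun y => eval_sp p y⟩

/-- the polynomial row -/
noncomputable def rowP (i : Fin r) (p : MvPolynomial (Fin K ⊕ Fin r) ℝ) (y : Fin (K + r) → ℝ) :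
    ℝ := y (Fin.natAdd K i) - eval (sp y) p

lemma rowP_type (i : Fin r) {p : MvPolynomial (Fin K ⊕ Fin r) ℝ} {d : ℕ}
    (hp : p.totalDegree ≤ d) : PolyType (d + 1) (rowP i p) := by
  refine ⟨X (Fin.natAdd K i) - rename (Sum.elim (Fin.castAdd r) (Fin.natAdd K)) p, ?_,
    fun y => ?_⟩
  · refine (totalDegree_sub _ _).trans (max_le ?_ ?_)
    · rw [totalDegree_X]
      omega
    · exact (totalDegree_rename_le _ _).trans (hp.trans (by omega))
  · rw [rowP, map_sub, eval_X, eval_sp]

/-- a direction in the kernel of the logarithmic row -/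
lemma rowL_dir {i : Fin r} {c : ℝ} {A : Fin r → ℝ} {y u : Fin (K + r) → ℝ}
    (hy : ∀ j, y (Fin.natAdd K j) ≠ 0) (hu : ∀ j, A j ≠ 0 → u (Fin.natAdd K j) = 0)
    {L : (Fin (K + r) → ℝ) →L[ℝ] ℝ} (hL : HasFDerivAt (rowL i c A) L y) (hLu : L u = 0) :
    u (Fin.natAdd K i) = 0 := by
  have h1 : HasDerivAt (fun t : ℝ => rowL i c A (y + t • u)) (L u) 0 := hL.hasLineDerivAt u
  have h2 : (fun t : ℝ => rowL i c A (y + t • u)) = fun t : ℝ =>
      Real.log (y (Fin.natAdd K i) + t * u (Fin.natAdd K i)) +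
        (-1) * (c + ∑ j, A j * Real.log (y (Fin.natAdd K j))) := by
    funext t
    unfold rowL
    simp only [Pi.add_apply, Pi.smul_apply, smul_eq_mul]
    congr 3
    refine Finset.sum_congr rfl fun j _ => ?_
    by_cases hj : A j = 0
    · rw [hj, zero_mul, zero_mul]
    · rw [hu j hj, mul_zero, add_zero]
  have h3 : HasDerivAt (fun t : ℝ => y (Fin.natAdd K i) + t * u (Fin.natAdd K i))
      (u (Fin.natAdd K i)) 0 := by
    simpa using ((hasDerivAt_id (0 : ℝ)).mul_const (u (Fin.natAdd K i))).const_add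
      (y (Fin.natAdd K i))
  have h4 := (h3.log (by rw [zero_mul, add_zero]; exact hy _)).add_const
    ((-1) * (c + ∑ j, A j * Real.log (y (Fin.natAdd K j))))
  rw [h2] at h1
  have h5 := h1.unique h4
  rw [hLu, zero_mul, add_zero] at h5
  exact (div_eq_zero_iff.1 h5.symm).resolve_right (hy _)

/-- a direction in the kernel of the polynomial row -/
lemma rowP_dir {i : Fin r} {p : MvPolynomial (Fin K ⊕ Fin r) ℝ} {y u : Fin (K + r) → ℝ}
    (hu0 : ∀ k, u (Fin.castAdd r k) = 0)
    (hu : ∀ j, Sum.inr j ∈ p.vars → u (Fin.natAdd K j) = 0)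
    {L : (Fin (K + r) → ℝ) →L[ℝ] ℝ} (hL : HasFDerivAt (rowP i p) L y) (hLu : L u = 0) :
    u (Fin.natAdd K i) = 0 := by
  have h1 : HasDerivAt (fun t : ℝ => rowP i p (y + t • u)) (L u) 0 := hL.hasLineDerivAt u
  have h2 : (fun t : ℝ => rowP i p (y + t • u)) = fun t : ℝ =>
      (y (Fin.natAdd K i) + t * u (Fin.natAdd K i)) - eval (sp y) p := by
    funext t
    unfold rowP
    rw [Pi.add_apply, Pi.smul_apply, smul_eq_mul]
    congr 1
    refine eval_congr_vars fun j hj => ?_
    rcases j with j | j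
    · show (y + t • u) (Fin.castAdd r j) = y (Fin.castAdd r j)
      rw [Pi.add_apply, Pi.smul_apply, hu0 j, smul_zero, add_zero]
    · show (y + t • u) (Fin.natAdd K j) = y (Fin.natAdd K j)
      rw [Pi.add_apply, Pi.smul_apply, hu j hj, smul_zero, add_zero]
  have h3 : HasDerivAt (fun t : ℝ => y (Fin.natAdd K i) + t * u (Fin.natAdd K i))
      (u (Fin.natAdd K i)) 0 := by
    simpa using ((hasDerivAt_id (0 : ℝ)).mul_const (u (Fin.natAdd K i))).const_add
      (y (Fin.natAdd K i))
  have h4 := h3.sub_const (eval (sp y) p)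
  rw [h2] at h1
  have h5 := h1.unique h4
  rw [hLu] at h5
  exact h5.symm

/-- the graph -/
def gph (z : Fin r → (Fin K → ℝ) → ℝ) (x : Fin K → ℝ) : Fin (K + r) → ℝ :=
  Fin.append x fun i => z i x

lemma gph_left (z : Fin r → (Fin K → ℝ) → ℝ) (x : Fin K → ℝ) (k : Fin K) :
    gph z x (Fin.castAdd r k) = x k := Fin.append_left _ _ _

lemma gph_right (z : Fin r → (Fin K → ℝ) → ℝ) (x : Fin K → ℝ) (i : Fin r) :
    gph z x (Fin.natAdd K i) = z i x := Fin.append_right _ _ _

lemma sp_gph (z : Fin r → (Fin K → ℝ) → ℝ) (x : Fin K → ℝ) :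
    sp (gph z x) = Sum.elim x fun j => z j x := by
  funext j
  rcases j with j | j
  · exact gph_left z x j
  · exact gph_right z x j

/-- the derivative of the graph -/
noncomputable def dgph (z : Fin r → (Fin K → ℝ) → ℝ) (x : Fin K → ℝ) :
    (Fin K → ℝ) →L[ℝ] (Fin (K + r) → ℝ) :=
  ContinuousLinearMap.pi (Fin.append
    (fun k => (ContinuousLinearMap.proj k : (Fin K → ℝ) →L[ℝ] ℝ)) fun i => fderiv ℝ (z i) x)

lemma dgph_left (z : Fin r → (Fin K → ℝ) → ℝ) (x v : Fin K → ℝ) (k : Fin K) :
    dgph z x v (Fin.castAdd r k) = v k := by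
  unfold dgph
  rw [ContinuousLinearMap.pi_apply, Fin.append_left]
  rfl

lemma hasFDerivAt_gph {z : Fin r → (Fin K → ℝ) → ℝ} {x : Fin K → ℝ}
    (hz : ∀ i, DifferentiableAt ℝ (z i) x) : HasFDerivAt (gph z) (dgph z x) x := by
  unfold dgph
  refine hasFDerivAt_pi.2 fun j => ?_
  refine Fin.addCases (fun k => ?_) (fun i => ?_) j
  · rw [Fin.append_left]
    have h : (fun x : Fin K → ℝ => gph z x (Fin.castAdd r k)) = fun x => x k :=
      funext fun x => gph_left z x k
    rw [h]
    exact (ContinuousLinearMap.proj k : (Fin K → ℝ) →L[ℝ] ℝ).hasFDerivAt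
  · rw [Fin.append_right]
    have h : (fun x : Fin K → ℝ => gph z x (Fin.natAdd K i)) = z i :=
      funext fun x => gph_right z x i
    rw [h]
    exact (hz i).hasFDerivAt

end RedN

open RedN

/-- **The real reduction with `K` base variables.** -/
theorem redN {K r : ℕ} (rk : Fin r → ℕ) {V : Set (Fin K → ℝ)} (hV : IsOpen V)
    {z : Fin r → (Fin K → ℝ) → ℝ} (hs : ∀ i, ContDiffOn ℝ 1 (z i) V)
    (hp : ∀ i, ∀ x ∈ V, z i x ≠ 0) {d : ℕ}
    (hrel : ∀ i, (∃ (c : ℝ) (A : Fin r → ℝ), (∀ j, rk i ≤ rk j → A j = 0) ∧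
        ∀ x ∈ V, Real.log (z i x) = c + ∑ j, A j * Real.log (z j x)) ∨
      (∃ p : MvPolynomial (Fin K ⊕ Fin r) ℝ, p.totalDegree ≤ d ∧
        (∀ j, rk i ≤ rk j → Sum.inr j ∉ p.vars) ∧
        ∀ x ∈ V, z i x = eval (Sum.elim x fun j => z j x) p))
    (P : Fin K → MvPolynomial (Fin K ⊕ Fin r) ℝ) (hP : ∀ k, (P k).totalDegree ≤ d) :
    (nz V fun k x => eval (Sum.elim x fun j => z j x) (P k)).encard ≤ (RN (K + r) d : ℕ) := by
  classical
  rcases Nat.eq_zero_or_pos K with hK | hK
  · -- no base variables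
    subst hK
    have h1 : (nz V fun k x => eval (Sum.elim x fun j => z j x) (P k)).encard ≤ 1 :=
      Set.encard_le_one_iff.2 fun a b _ _ => Subsingleton.elim a b
    refine h1.trans ?_
    have h2 : 1 ≤ RN (0 + r) d :=
      Nat.mul_pos (Nat.pow_pos (by omega)) (Nat.pow_pos (by omega))
    exact_mod_cast h2
  -- the rows
  have hrow : ∀ i : Fin r, ∃ (lg : Bool) (F : (Fin (K + r) → ℝ) → ℝ),
      (lg = true → LogType (wN K r) r F) ∧ (lg = false → PolyType (d + 1) F) ∧
      (∀ x ∈ V, F (gph z x) = 0) ∧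
      (∀ x ∈ V, ∀ u : Fin (K + r) → ℝ, (∀ k, u (Fin.castAdd r k) = 0) →
        (∀ j, rk j < rk i → u (Fin.natAdd K j) = 0) →
        ∀ L : (Fin (K + r) → ℝ) →L[ℝ] ℝ, HasFDerivAt F L (gph z x) → L u = 0 →
          u (Fin.natAdd K i) = 0) := by
    intro i
    rcases hrel i with ⟨c, A, hA, he⟩ | ⟨p, hpd, hpv, he⟩
    · refine ⟨true, rowL i c A, fun _ => rowL_type i c A, fun h => by simp at h, ?_, ?_⟩
      · intro x hx
        have := he x hx
        unfold rowL
        simp only [gph_right]
        rw [this]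
        ring
      · intro x hx u _ hu L hL hLu
        refine rowL_dir (fun j => ?_) (fun j hj => hu j ?_) hL hLu
        · rw [gph_right]
          exact hp j x hx
        · by_contra hcon
          exact hj (hA j (not_lt.1 hcon))
    · refine ⟨false, rowP i p, fun h => by simp at h, fun _ => rowP_type i hpd, ?_, ?_⟩
      · intro x hx
        unfold rowP
        rw [gph_right, sp_gph, ← he x hx, sub_self]
      · intro x hx u hu0 hu L hL hLu
        refine rowP_dir hu0 (fun j hj => hu j ?_) hL hLu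
        by_contra hcon
        exact hpv j (not_lt.1 hcon) hj
  choose lg R hR1 hR2 hR3 hR4 using hrow
  set F : Fin (K + r) → (Fin (K + r) → ℝ) → ℝ :=
    Fin.append (fun k y => eval (sp y) (P k)) R with hF
  have hFl : ∀ k : Fin K, F (Fin.castAdd r k) = fun y => eval (sp y) (P k) := fun k => by
    rw [hF, Fin.append_left]
  have hFr : ∀ i : Fin r, F (Fin.natAdd K i) = R i := fun i => by
    rw [hF, Fin.append_right]
  set S : Finset (Fin (K + r)) :=
    (Finset.univ.filter fun i : Fin r => lg i = true).map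
      ⟨Fin.natAdd K, Fin.natAdd_injective r K⟩ with hS
  have hmem : ∀ i : Fin r, Fin.natAdd K i ∈ S ↔ lg i = true := by
    intro i
    rw [hS, Finset.mem_map]
    constructor
    · rintro ⟨j, hj, hji⟩
      have : j = i := Fin.natAdd_injective r K hji
      subst this
      exact (Finset.mem_filter.1 hj).2
    · intro h
      exact ⟨i, Finset.mem_filter.2 ⟨Finset.mem_univ _, h⟩, rfl⟩
  have hmem0 : ∀ k : Fin K, Fin.castAdd r k ∉ S := by
    intro k
    rw [hS, Finset.mem_map]
    rintro ⟨j, -, hj⟩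
    have h1 := congrArg Fin.val hj
    have h2 := k.isLt
    simp only [Function.Embedding.coeFn_mk, Fin.val_natAdd, Fin.val_castAdd] at h1
    omega
  have hcard : S.card ≤ K + r := by
    have := Finset.card_le_univ S
    rwa [Fintype.card_fin] at this
  have hFL : ∀ i ∈ S, LogType (wN K r) r (F i) := by
    intro i
    refine Fin.addCases (fun k => ?_) (fun i => ?_) i
    · intro h
      exact absurd h (hmem0 k)
    · intro h
      rw [hFr]
      exact hR1 i ((hmem i).1 h)
  have hFP : ∀ i, i ∉ S → PolyType (d + 1) (F i) := by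
    intro i
    refine Fin.addCases (fun k => ?_) (fun i => ?_) i
    · intro _
      rw [hFl]
      exact polyType_sp ((hP k).trans (by omega))
    · intro h
      rw [hFr]
      refine hR2 i ?_
      rw [hmem] at h
      simpa using h
  have hkh := kh (deg_wN (K := K) (r := r)) S.card (d + 1) S F rfl hFL hFP
  have hbd : bd (K + r) r r S.card (d + 1) ≤ RN (K + r) d :=
    bd_leG (n := K + r) (W := r) (D := r) (d + 1) (by omega) (by omega) (by omega) hcard
  have hinj : Function.Injective (gph z) := by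
    intro x x' hx
    funext k
    rw [← gph_left z x k, hx, gph_left]
  rw [← hinj.encard_image]
  refine (Set.encard_le_encard ?_).trans (hkh.trans (by exact_mod_cast hbd))
  rintro _ ⟨x, ⟨hx, hx0, hdet0⟩, rfl⟩
  have hw : eval (gph z x) (wN K r) ≠ 0 := by
    rw [wN, map_prod]
    refine Finset.prod_ne_zero_iff.mpr fun j _ => ?_
    rw [eval_X, gph_right]
    exact hp j x hx
  have hdiff : ∀ i, DifferentiableAt ℝ (F i) (gph z x) := by
    intro i
    by_cases hi : i ∈ S
    · obtain ⟨q, _, hq⟩ := hFL i hi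
      exact (hq _ hw).differentiableAt
    · exact polyType_diff (hFP i hi) _
  have hzd : ∀ i, DifferentiableAt ℝ (z i) x := fun i =>
    ((hs i).differentiableOn (by norm_num)).differentiableAt (hV.mem_nhds hx)
  have hG := hasFDerivAt_gph hzd
  refine ⟨hw, ?_, ?_⟩
  · intro i
    refine Fin.addCases (fun k => ?_) (fun i => ?_) i
    · rw [hFl]
      show eval (sp (gph z x)) (P k) = 0
      rw [sp_gph]
      exact hx0 k
    · rw [hFr]
      exact hR3 i x hx
  · intro hdet
    obtain ⟨v, hv0, hv⟩ := Matrix.exists_mulVec_eq_zero_iff.mpr hdet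
    have hrow : ∀ i, fderiv ℝ (F i) (gph z x) v = 0 := by
      intro i
      rw [← KH.Red.jac_mulVec, hv]
      rfl
    set v1 : Fin K → ℝ := fun k => v (Fin.castAdd r k) with hv1
    have hcomp : ∀ i, HasFDerivAt (fun x => F i (gph z x))
        ((fderiv ℝ (F i) (gph z x)).comp (dgph z x)) x :=
      fun i => (hdiff i).hasFDerivAt.comp x hG
    have hzero : ∀ i : Fin r, fderiv ℝ (F (Fin.natAdd K i)) (gph z x) (dgph z x v1) = 0 := by
      intro i
      have h1 : (fun x => F (Fin.natAdd K i) (gph z x)) =ᶠ[𝓝 x] fun _ => 0 := by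
        filter_upwards [hV.mem_nhds hx] with s hs'
        rw [hFr]
        exact hR3 i s hs'
      have h2 := (hcomp (Fin.natAdd K i)).unique
        ((hasFDerivAt_const (0 : ℝ) x).congr_of_eventuallyEq h1)
      have h3 := congrArg (fun L : (Fin K → ℝ) →L[ℝ] ℝ => L v1) h2
      exact h3
    set u : Fin (K + r) → ℝ := v - dgph z x v1 with hu
    have hu0 : ∀ k, u (Fin.castAdd r k) = 0 := by
      intro k
      rw [hu, Pi.sub_apply, dgph_left, hv1, sub_self]
    have hind : ∀ n : ℕ, ∀ i : Fin r, rk i = n → u (Fin.natAdd K i) = 0 := by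
      intro n
      induction n using Nat.strong_induction_on with
      | _ n ih =>
        intro i hi
        refine hR4 i x hx u hu0 (fun j hj => ih (rk j) (by omega) j rfl)
          (fderiv ℝ (F (Fin.natAdd K i)) (gph z x)) ?_ ?_
        · have := (hdiff (Fin.natAdd K i)).hasFDerivAt
          rwa [← hFr i]
        · rw [hu, map_sub, hrow, hzero, sub_zero]
    have hv' : v = dgph z x v1 := by
      have hu' : u = 0 := by
        funext k
        refine Fin.addCases (fun k => ?_) (fun i => ?_) k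
        · exact hu0 k
        · exact hind _ i rfl
      rw [hu, sub_eq_zero] at hu'
      exact hu'
    have hv2 : (jac (fun k x => eval (Sum.elim x fun j => z j x) (P k)) x).mulVec v1 = 0 := by
      funext k
      rw [KH.Red.jac_mulVec]
      have h1 := hcomp (Fin.castAdd r k)
      have h2 : (fun x => F (Fin.castAdd r k) (gph z x)) =
          fun x => eval (Sum.elim x fun j => z j x) (P k) := by
        funext s
        rw [hFl]
        show eval (sp (gph z s)) (P k) = _
        rw [sp_gph]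
      rw [h2] at h1
      rw [h1.fderiv]
      show fderiv ℝ (F (Fin.castAdd r k)) (gph z x) (dgph z x v1) = 0
      rw [← hv']
      exact hrow _
    have hv3 : v1 = 0 := by
      by_contra hne
      exact hdet0 (Matrix.exists_mulVec_eq_zero_iff.1 ⟨v1, hne, hv2⟩)
    exact hv0 (by rw [hv', hv3, map_zero])

/-- the real reduction for a finite type of indices -/
theorem redN' {K : ℕ} {I : Type} [Fintype I] (rk : I → ℕ) {V : Set (Fin K → ℝ)} (hV : IsOpen V)
    {z : I → (Fin K → ℝ) → ℝ} (hs : ∀ i, ContDiffOn ℝ 1 (z i) V)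
    (hp : ∀ i, ∀ x ∈ V, z i x ≠ 0) {d : ℕ}
    (hrel : ∀ i, (∃ (c : ℝ) (A : I → ℝ), (∀ j, rk i ≤ rk j → A j = 0) ∧
        ∀ x ∈ V, Real.log (z i x) = c + ∑ j, A j * Real.log (z j x)) ∨
      (∃ p : MvPolynomial (Fin K ⊕ I) ℝ, p.totalDegree ≤ d ∧
        (∀ j, rk i ≤ rk j → Sum.inr j ∉ p.vars) ∧
        ∀ x ∈ V, z i x = eval (Sum.elim x fun j => z j x) p))
    (P : Fin K → MvPolynomial (Fin K ⊕ I) ℝ) (hP : ∀ k, (P k).totalDegree ≤ d) :
    (nz V fun k x => eval (Sum.elim x fun j => z j x) (P k)).encard ≤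
      (RN (K + Fintype.card I) d : ℕ) := by
  classical
  set e := Fintype.equivFin I with he
  set e' : Fin K ⊕ I → Fin K ⊕ Fin (Fintype.card I) := Sum.map id e with he'
  have h1 : ∀ (p : MvPolynomial (Fin K ⊕ I) ℝ) (x : Fin K → ℝ),
      eval (Sum.elim x fun j => z (e.symm j) x) (rename e' p) =
        eval (Sum.elim x fun j => z j x) p := by
    intro p x
    rw [eval_rename]
    congr 2
    funext j
    rcases j with j | j
    · rfl
    · simp [he']
  have h2 := redN (fun i => rk (e.symm i)) hV (z := fun i => z (e.symm i))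
    (fun i => hs _) (fun i => hp _) (d := d) ?_ (fun k => rename e' (P k))
    (fun k => (totalDegree_rename_le _ _).trans (hP k))
  · simp only [h1] at h2
    exact h2
  · intro i
    rcases hrel (e.symm i) with ⟨c, A, hA, h3⟩ | ⟨p, hpd, hpv, h3⟩
    · left
      refine ⟨c, fun j => A (e.symm j), fun j hj => hA _ hj, fun x hx => ?_⟩
      rw [h3 x hx]
      congr 1
      exact (Equiv.sum_comp e.symm fun j => A j * Real.log (z j x)).symm
    · right
      refine ⟨rename e' p, (totalDegree_rename_le _ _).trans hpd, fun j hj hmem => ?_,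
        fun x hx => ?_⟩
      · obtain ⟨j', hj', hjj⟩ := Finset.mem_image.1 (vars_rename e' p hmem)
        rcases j' with j' | j'
        · simp [he'] at hjj
        · have h4 : e j' = j := Sum.inr_injective hjj
          subst h4
          rw [e.symm_apply_apply] at hj
          exact hpv j' hj hj'
      · rw [h1]
        exact h3 x hx

end Pool.Agent.Lib.MP_641cb6_lc.KN
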