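import Pool.Agent.Lib.MP_641cb6_lc.KN.Der
import Pool.Agent.Lib.MP_641cb6_lc.KN.Red

/-!
# The auxiliary functions of a chain on a region, and the equations for the critical points
-/

set_option autoImplicit false

namespace Pool.Agent.Lib.MP_641cb6_lc.KN

open Finset MvPolynomial

/-- the indices of the auxiliary functions -/
abbrev Ix (q L : ℕ) : Type := (Fin L × Fin q) ⊕ (Fin L × Fin 4) ⊕ Fin 2

/-- a live element, `1` for a dead one -/
noncomputable def yy {K : ℕ} (f : ℕ → (Fin K → ℝ) → ℝ) (σ : ℕ → SignType) (j : ℕ)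
    (x : Fin K → ℝ) : ℝ := if σ j = 0 then 1 else f j x

/-- a product of powers of the live elements -/
noncomputable def mm {K q : ℕ} (f : ℕ → (Fin K → ℝ) → ℝ) (σ : ℕ → SignType)
    (α : ℕ → Fin q → ℕ → ℕ) (l : ℕ) (i : Fin q) (x : Fin K → ℝ) : ℝ :=
  ∏ j ∈ range l, yy f σ j x ^ α l i j

/-- the auxiliary functions -/
noncomputable def zz {K q : ℕ} (L : ℕ) (f : ℕ → (Fin K → ℝ) → ℝ) (σ : ℕ → SignType)
    (α : ℕ → Fin q → ℕ → ℕ) (ε δ R : ℝ) : Ix q L → (Fin K → ℝ) → ℝ
  | .inl (l, i), x => mm f σ α l i x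
  | .inr (.inl (l, 0)), x => yy f σ l x
  | .inr (.inl (l, 1)), x => (yy f σ l x)⁻¹
  | .inr (.inl (l, 2)), x => gg L f σ ε δ R (some l) x
  | .inr (.inl (l, 3)), x => (gg L f σ ε δ R (some l) x)⁻¹
  | .inr (.inr 0), x => gg L f σ ε δ R none x
  | .inr (.inr 1), x => (gg L f σ ε δ R none x)⁻¹

/-- the rank -/
def rkN (q L : ℕ) : Ix q L → ℕ
  | .inl (l, _) => 6 * l
  | .inr (.inl (l, c)) => 6 * l + 1 + c
  | .inr (.inr c) => c

theorem card_Ix (q L : ℕ) : Fintype.card (Ix q L) = L * (q + 4) + 2 := by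
  simp only [Ix, Fintype.card_sum, Fintype.card_prod, Fintype.card_fin]
  ring

theorem sum_Ix {q L : ℕ} (G : Ix q L → ℝ) : ∑ i, G i = ∑ p : Fin L × Fin q, G (.inl p) +
    ((∑ l : Fin L, (G (.inr (.inl (l, 0))) + G (.inr (.inl (l, 1))) + G (.inr (.inl (l, 2))) +
      G (.inr (.inl (l, 3))))) + (G (.inr (.inr 0)) + G (.inr (.inr 1)))) := by
  rw [Fintype.sum_sum_type, Fintype.sum_sum_type, Fin.sum_univ_two]
  congr 2
  rw [Fintype.sum_prod_type]
  refine sum_congr rfl fun l _ => ?_
  rw [Fin.sum_univ_four]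

/-- `P` only involves functions of rank less than `n` -/
def Low (K q L n : ℕ) (P : MvPolynomial (Fin K ⊕ Ix q L) ℝ) : Prop :=
  P ∈ supported ℝ {v : Fin K ⊕ Ix q L | ∀ j, v = Sum.inr j → rkN q L j < n}

theorem Low.notMem {K q L n : ℕ} {P : MvPolynomial (Fin K ⊕ Ix q L) ℝ} (h : Low K q L n P) :
    ∀ j, n ≤ rkN q L j → Sum.inr j ∉ P.vars := by
  intro j hj hmem
  have h1 := (mem_supported.1 h) (Finset.mem_coe.2 hmem) j rfl
  omega

section

variable {K q d L : ℕ} {f : ℕ → (Fin K → ℝ) → ℝ} {σ : ℕ → SignType}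
  {p : ℕ → MvPolynomial (Fin K ⊕ Fin q) ℝ} {α : ℕ → Fin q → ℕ → ℕ} {ε δ R : ℝ}

theorem mm_eq (h : IsLG f σ q d L p α) (l : ℕ) (i : Fin q) (x : Fin K → ℝ) :
    mm f σ α l i x = ∏ j ∈ range l, f j x ^ α l i j := by
  unfold mm yy
  refine prod_congr rfl fun j _ => ?_
  by_cases h0 : α l i j = 0
  · rw [h0, pow_zero, pow_zero]
  · rw [if_neg (h.live l i j h0)]

theorem f_eq (h : IsLG f σ q d L p α) {l : ℕ} (hl : l < L) (x : Fin K → ℝ) :
    f l x = eval (Sum.elim x fun i => mm f σ α l i x) (p l) := by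
  rw [h.eq l hl x]
  have : (fun i => ∏ j ∈ range l, f j x ^ α l i j) = fun i => mm f σ α l i x :=
    funext fun i => (mm_eq h l i x).symm
  rw [this]

theorem eval_contDiff {E ι : Type} [NormedAddCommGroup E] [NormedSpace ℝ E] [Fintype ι]
    (P : MvPolynomial ι ℝ) {g : ι → E → ℝ} {n : ℕ∞} (hg : ∀ i, ContDiff ℝ n (g i)) :
    ContDiff ℝ n fun y => eval (fun i => g i y) P := by
  simp only [eval_eq']
  refine ContDiff.sum fun ν _ => contDiff_const.mul (contDiff_prod fun i _ => (hg i).pow _)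

theorem f_contDiff (h : IsLG f σ q d L p α) : ∀ l < L, ContDiff ℝ 2 (f l) := by
  intro l
  induction l using Nat.strong_induction_on with
  | _ l ih =>
    intro hl
    have h1 : f l = fun x => eval (fun v => Sum.elim (fun k x => x k)
        (fun i x => ∏ j ∈ range l, f j x ^ α l i j) v x) (p l) := by
      funext x
      rw [h.eq l hl x]
      have : (Sum.elim x fun i => ∏ j ∈ range l, f j x ^ α l i j) = fun v =>
          Sum.elim (fun k (x : Fin K → ℝ) => x k)
            (fun i x => ∏ j ∈ range l, f j x ^ α l i j) v x := by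
        funext v
        rcases v with k | i <;> rfl
      rw [this]
    rw [h1]
    refine eval_contDiff (n := 2) (p l) fun v => ?_
    rcases v with k | i
    · exact contDiff_apply ℝ ℝ k
    · exact contDiff_prod fun j hj => (ih j (mem_range.1 hj)
        (lt_trans (mem_range.1 hj) hl)).pow _

theorem gg_dead {l : Fin L} (h0 : σ l = 0) (x : Fin K → ℝ) :
    gg L f σ ε δ R (some l) x = δ - f l x ^ 2 := if_pos h0

theorem gg_live {l : Fin L} (h0 : ¬ σ l = 0) (x : Fin K → ℝ) :
    gg L f σ ε δ R (some l) x = (σ l : ℝ) * f l x - ε := if_neg h0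

theorem gg_contDiff (h : IsLG f σ q d L p α) (i : Option (Fin L)) :
    ContDiff ℝ 2 (gg L f σ ε δ R i) := by
  rcases i with _ | l
  · show ContDiff ℝ 2 fun x : Fin K → ℝ => R ^ 2 - ∑ i, x i ^ 2
    exact contDiff_const.sub (ContDiff.sum fun k _ => (contDiff_apply ℝ ℝ k).pow 2)
  · have h1 := f_contDiff h l l.2
    by_cases h0 : σ l = 0
    · have e : gg L f σ ε δ R (some l) = fun x => δ - f l x ^ 2 := by
        funext x
        exact gg_dead h0 x
      rw [e]
      exact contDiff_const.sub (h1.pow 2)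
    · have e : gg L f σ ε δ R (some l) = fun x => (σ l : ℝ) * f l x - ε := by
        funext x
        exact gg_live h0 x
      rw [e]
      exact (contDiff_const.mul h1).sub contDiff_const

/-- the region -/
def UU {K : ℕ} (L : ℕ) (f : ℕ → (Fin K → ℝ) → ℝ) (σ : ℕ → SignType) (ε δ R : ℝ) :
    Set (Fin K → ℝ) := {x | ∀ i, 0 < gg L f σ ε δ R i x}

theorem UU_open (h : IsLG f σ q d L p α) : IsOpen (UU L f σ ε δ R) := by
  have : UU L f σ ε δ R = ⋂ i, {x | 0 < gg L f σ ε δ R i x} := by
    ext x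
    simp [UU]
  rw [this]
  exact isOpen_iInter_of_finite fun i => isOpen_lt continuous_const (gg_contDiff h i).continuous

theorem f_ne (hε : 0 < ε) {x : Fin K → ℝ} (hx : x ∈ UU L f σ ε δ R) {l : ℕ} (hl : l < L)
    (h0 : σ l ≠ 0) : f l x ≠ 0 := by
  intro hf
  have h1 := hx (some ⟨l, hl⟩)
  rw [gg_live h0, hf, mul_zero] at h1
  linarith

theorem yy_ne (hε : 0 < ε) {x : Fin K → ℝ} (hx : x ∈ UU L f σ ε δ R) {l : ℕ} (hl : l < L) :
    yy f σ l x ≠ 0 := by
  unfold yy
  by_cases h0 : σ l = 0
  · rw [if_pos h0]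
    exact one_ne_zero
  · rw [if_neg h0]
    exact f_ne hε hx hl h0

theorem mm_ne (hε : 0 < ε) {x : Fin K → ℝ} (hx : x ∈ UU L f σ ε δ R) {l : ℕ} (hl : l < L)
    (i : Fin q) : mm f σ α l i x ≠ 0 := by
  unfold mm
  rw [prod_ne_zero_iff]
  intro j hj
  exact pow_ne_zero _ (yy_ne hε hx (lt_trans (mem_range.1 hj) hl))

theorem zz_ne (hε : 0 < ε) (i : Ix q L) {x : Fin K → ℝ} (hx : x ∈ UU L f σ ε δ R) :
    zz L f σ α ε δ R i x ≠ 0 := by
  rcases i with ⟨l, i⟩ | ⟨l, c⟩ | c
  · exact mm_ne hε hx l.2 i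
  · fin_cases c
    · exact yy_ne hε hx l.2
    · exact inv_ne_zero (yy_ne hε hx l.2)
    · exact (hx (some l)).ne'
    · exact inv_ne_zero (hx (some l)).ne'
  · fin_cases c
    · exact (hx none).ne'
    · exact inv_ne_zero (hx none).ne'

theorem yy_contDiff (h : IsLG f σ q d L p α) {l : ℕ} (hl : l < L) : ContDiff ℝ 2 (yy f σ l) := by
  by_cases h0 : σ l = 0
  · have e : yy f σ l = fun _ => 1 := by
      funext x
      unfold yy
      rw [if_pos h0]
    rw [e]
    exact contDiff_const
  · have e : yy f σ l = f l := by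
      funext x
      unfold yy
      rw [if_neg h0]
    rw [e]
    exact f_contDiff h l hl

theorem zz_contDiffOn (h : IsLG f σ q d L p α) (hε : 0 < ε) (i : Ix q L) :
    ContDiffOn ℝ 1 (zz L f σ α ε δ R i) (UU L f σ ε δ R) := by
  have h12 : ((1 : ℕ∞) : WithTop ℕ∞) ≤ 2 := by norm_num
  rcases i with ⟨l, i⟩ | ⟨l, c⟩ | c
  · show ContDiffOn ℝ 1 (mm f σ α l i) _
    have : ContDiff ℝ 2 (mm f σ α l i) := contDiff_prod fun j hj =>
      (yy_contDiff h (lt_trans (mem_range.1 hj) l.2)).pow _
    exact (this.of_le h12).contDiffOn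
  · fin_cases c
    · exact ((yy_contDiff h l.2).of_le h12).contDiffOn
    · exact (((yy_contDiff h l.2).of_le h12).contDiffOn).inv fun x hx => yy_ne hε hx l.2
    · exact ((gg_contDiff (ε := ε) (δ := δ) (R := R) h (some l)).of_le h12).contDiffOn
    · exact (((gg_contDiff (ε := ε) (δ := δ) (R := R) h (some l)).of_le h12).contDiffOn).inv
        fun x hx => (hx (some l)).ne'
  · fin_cases c
    · exact ((gg_contDiff (ε := ε) (δ := δ) (R := R) h none).of_le h12).contDiffOn
    · exact (((gg_contDiff (ε := ε) (δ := δ) (R := R) h none).of_le h12).contDiffOn).inv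
        fun x hx => (hx none).ne'

/-- the variables of the polynomials of the element number `l` -/
def rho (K : ℕ) {q L : ℕ} (l : Fin L) : Fin K ⊕ Fin q → Fin K ⊕ Ix q L :=
  Sum.map id fun i => Sum.inl (l, i)

theorem eval_rho (l : Fin L) (P : MvPolynomial (Fin K ⊕ Fin q) ℝ) (x : Fin K → ℝ) :
    eval (Sum.elim x fun j => zz L f σ α ε δ R j x) (rename (rho K l) P) =
      eval (Sum.elim x fun i => mm f σ α l i x) P := by
  rw [eval_rename]
  have : (Sum.elim x fun j => zz L f σ α ε δ R j x) ∘ rho K l =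
      Sum.elim x fun i => mm f σ α l i x := by
    funext v
    rcases v with k | i <;> rfl
  rw [this]

theorem low_rho (l : Fin L) (P : MvPolynomial (Fin K ⊕ Fin q) ℝ) {n : ℕ} (hn : 6 * (l : ℕ) < n) :
    Low K q L n (rename (rho K l) P) := by
  classical
  refine mem_supported.2 fun v hv => ?_
  obtain ⟨w, -, rfl⟩ := Finset.mem_image.1 (vars_rename _ _ (Finset.mem_coe.1 hv))
  intro j hj
  rcases w with k | i
  · simp [rho] at hj
  · have : j = Sum.inl (l, i) := by
      simpa [rho] using hj.symm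
    rw [this]
    exact hn

theorem low_C (n : ℕ) (c : ℝ) : Low K q L n (C c) :=
  (supported ℝ _).algebraMap_mem c

theorem low_X {n : ℕ} {j : Ix q L} (h : rkN q L j < n) : Low K q L n (X (Sum.inr j)) := by
  refine (X_mem_supported (R := ℝ)).2 fun j' hj' => ?_
  have := Sum.inr_injective hj'
  rw [← this]
  exact h

theorem low_Xl (n : ℕ) (k : Fin K) : Low K q L n (X (Sum.inl k)) := by
  refine (X_mem_supported (R := ℝ)).2 fun j' hj' => ?_
  exact absurd hj' (by simp)

/-- the relations -/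
theorem rows (h : IsLG f σ q d L p α) (hε : 0 < ε) (i : Ix q L) :
    (∃ (c : ℝ) (A : Ix q L → ℝ), (∀ j, rkN q L i ≤ rkN q L j → A j = 0) ∧
        ∀ x ∈ UU L f σ ε δ R, Real.log (zz L f σ α ε δ R i x) =
          c + ∑ j, A j * Real.log (zz L f σ α ε δ R j x)) ∨
      (∃ P : MvPolynomial (Fin K ⊕ Ix q L) ℝ, P.totalDegree ≤ (d + 3) * (L + 1) ∧
        (∀ j, rkN q L i ≤ rkN q L j → Sum.inr j ∉ P.vars) ∧
        ∀ x ∈ UU L f σ ε δ R, zz L f σ α ε δ R i x =
          eval (Sum.elim x fun j => zz L f σ α ε δ R j x) P) := by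
  classical
  have hinv : ∀ a b : Ix q L, rkN q L b < rkN q L a →
      (∀ x ∈ UU L f σ ε δ R, zz L f σ α ε δ R a x = (zz L f σ α ε δ R b x)⁻¹) →
      ∃ (c : ℝ) (A : Ix q L → ℝ), (∀ j, rkN q L a ≤ rkN q L j → A j = 0) ∧
        ∀ x ∈ UU L f σ ε δ R, Real.log (zz L f σ α ε δ R a x) =
          c + ∑ j, A j * Real.log (zz L f σ α ε δ R j x) := by
    intro a b hab he
    refine ⟨0, fun j => if j = b then -1 else 0, fun j hj => ?_, fun x hx => ?_⟩
    · show (if j = b then (-1 : ℝ) else 0) = 0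
      rw [if_neg]
      rintro rfl
      omega
    · rw [he x hx, Real.log_inv]
      simp
  have hL1 : ∀ l : Fin L, 1 ≤ L := fun l => by
    have := l.2
    omega
  rcases i with ⟨l, i⟩ | ⟨l, c⟩ | c
  · -- products
    left
    refine ⟨0, fun j => match j with
      | .inr (.inl (j, 0)) => if (j : ℕ) < l then (α l i j : ℝ) else 0
      | _ => 0, ?_, ?_⟩
    · intro j hj
      rcases j with ⟨l', i'⟩ | ⟨l', c'⟩ | c'
      · rfl
      · fin_cases c'
        · show (if (l' : ℕ) < l then (α l i l' : ℝ) else 0) = 0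
          rw [if_neg]
          simp only [rkN] at hj
          intro hlt
          simp at hj
          omega
        · rfl
        · rfl
        · rfl
      · rfl
    · intro x hx
      show Real.log (mm f σ α l i x) = _
      rw [sum_Ix]
      simp only [zero_mul, sum_const_zero, zero_add, add_zero]
      unfold mm
      rw [Real.log_prod (s := range (l : ℕ)) (f := fun j => yy f σ j x ^ α l i j) fun j hj =>
        pow_ne_zero _ (yy_ne hε hx (lt_trans (mem_range.1 hj) l.2))]
      show _ = ∑ j : Fin L, (if (j : ℕ) < l then (α l i j : ℝ) else 0) *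
        Real.log (yy f σ j x)
      rw [Fin.sum_univ_eq_sum_range (fun j => (if j < (l : ℕ) then (α l i j : ℝ) else 0) *
        Real.log (yy f σ j x)) L]
      have hsub : range (l : ℕ) ⊆ range L := by
        intro j hj
        exact mem_range.2 (lt_trans (mem_range.1 hj) l.2)
      rw [← sum_subset hsub fun j _ hj => by
        rw [if_neg (fun h => hj (mem_range.2 h)), zero_mul]]
      refine sum_congr rfl fun j hj => ?_
      rw [if_pos (mem_range.1 hj), Real.log_pow]
  · have hl1 := hL1 l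
    have hdeg1 : d + 1 ≤ (d + 3) * (L + 1) := by nlinarith
    have hdeg2 : 2 * (d + 1) ≤ (d + 3) * (L + 1) := by nlinarith
    fin_cases c
    · -- live elements
      show _ ∨ _
      by_cases h0 : σ l = 0
      · left
        refine ⟨0, fun _ => 0, fun _ _ => rfl, fun x _ => ?_⟩
        show Real.log (yy f σ l x) = _
        unfold yy
        rw [if_pos h0]
        simp
      · right
        refine ⟨rename (rho K l) (p l), (totalDegree_rename_le _ _).trans ((h.deg l).trans hdeg1),
          Low.notMem (low_rho l _ ?_), fun x _ => ?_⟩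
        · show 6 * (l : ℕ) < 6 * (l : ℕ) + 1 + 0
          omega
        · show yy f σ l x = _
          rw [eval_rho, ← f_eq h l.2]
          unfold yy
          rw [if_neg h0]
    · left
      refine hinv _ (.inr (.inl (l, 0))) ?_ fun x _ => rfl
      show 6 * (l : ℕ) + 1 + 0 < 6 * (l : ℕ) + 1 + 1
      omega
    · right
      by_cases h0 : σ l = 0
      · refine ⟨C δ - rename (rho K l) (p l) ^ 2, ?_, Low.notMem ?_, fun x _ => ?_⟩
        · refine (totalDegree_sub _ _).trans (max_le ?_ ?_)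
          · rw [totalDegree_C]
            omega
          · refine (totalDegree_pow _ _).trans ?_
            have := (totalDegree_rename_le (rho K (L := L) l) (p l)).trans (h.deg l)
            omega
        · refine sub_mem (low_C _ _) (pow_mem (low_rho l _ ?_) 2)
          show 6 * (l : ℕ) < 6 * (l : ℕ) + 1 + 2
          omega
        · show gg L f σ ε δ R (some l) x = _
          rw [map_sub, map_pow, eval_C, eval_rho, ← f_eq h l.2, gg_dead h0]
      · refine ⟨C (σ l : ℝ) * X (.inr (.inr (.inl (l, 0)))) - C ε, ?_, Low.notMem ?_,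
          fun x _ => ?_⟩
        · refine (totalDegree_sub _ _).trans (max_le ?_ ?_)
          · refine (totalDegree_mul _ _).trans ?_
            rw [totalDegree_C, totalDegree_X]
            omega
          · rw [totalDegree_C]
            omega
        · refine sub_mem (mul_mem (low_C _ _) (low_X ?_)) (low_C _ _)
          show 6 * (l : ℕ) + 1 + 0 < 6 * (l : ℕ) + 1 + 2
          omega
        · show gg L f σ ε δ R (some l) x = _
          rw [map_sub, map_mul, eval_C, eval_C, eval_X]
          show _ = (σ l : ℝ) * yy f σ l x - ε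
          rw [gg_live h0]
          unfold yy
          rw [if_neg h0]
    · left
      refine hinv _ (.inr (.inl (l, 2))) ?_ fun x _ => rfl
      show 6 * (l : ℕ) + 1 + 2 < 6 * (l : ℕ) + 1 + 3
      omega
  · fin_cases c
    · right
      refine ⟨C (R ^ 2) - ∑ k : Fin K, X (.inl k) ^ 2, ?_, Low.notMem ?_, fun x _ => ?_⟩
      · refine (totalDegree_sub _ _).trans (max_le ?_ ?_)
        · rw [totalDegree_C]
          omega
        · refine (totalDegree_finsetSum _ _).trans (Finset.sup_le fun k _ => ?_)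
          refine (totalDegree_pow _ _).trans ?_
          rw [totalDegree_X]
          nlinarith
      · exact sub_mem (low_C _ _) (sum_mem fun k _ => pow_mem (low_Xl _ k) 2)
      · show R ^ 2 - ∑ k, x k ^ 2 = _
        rw [map_sub, eval_C, map_sum]
        congr 1
        refine sum_congr rfl fun k _ => ?_
        rw [map_pow, eval_X]
        rfl
    · left
      exact hinv _ (.inr (.inr 0)) (by show 0 < 1; omega) fun x _ => rfl

end

end Pool.Agent.Lib.MP_641cb6_lc.KN
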