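import Pool.Agent.Lib.MP_641cb6_lc.KN.Defs
import Pool.Agent.Lib.MP_641cb6_lc.KH.Sard

/-!
# Separated points of a compact set give critical points (row N2)

On every connected component of `{g ≥ 0}` that contains one of the points, the product of the `g i`
times `exp ⟨v, x⟩` has a maximum, which is a critical point in `{g > 0}`; for almost all `v` these
critical points are nondegenerate.
-/

set_option autoImplicit false

namespace Pool.Agent.Lib.MP_641cb6_lc.KN

open Set Topology MeasureTheory

/-- the logarithm of the product has the expected derivative -/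
theorem hasFDerivAt_logsum {K : ℕ} {I : Type} [Fintype I] {g : I → (Fin K → ℝ) → ℝ}
    (hg : ∀ i, ContDiff ℝ 2 (g i)) (v : Fin K → ℝ) {z : Fin K → ℝ} (hz : ∀ i, 0 < g i z) :
    HasFDerivAt (fun x => (∑ i, Real.log (g i x)) + ∑ k, v k * x k)
      ((∑ i, (g i z)⁻¹ • fderiv ℝ (g i) z) +
        ∑ k, v k • (ContinuousLinearMap.proj k : (Fin K → ℝ) →L[ℝ] ℝ)) z := by
  have h1 : HasFDerivAt (fun x => ∑ i, Real.log (g i x))
      (∑ i, (g i z)⁻¹ • fderiv ℝ (g i) z) z := by
    refine HasFDerivAt.fun_sum fun i _ => ?_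
    exact (((hg i).differentiable (by norm_num)) z).hasFDerivAt.log (hz i).ne'
  have h2 : HasFDerivAt (fun x : Fin K → ℝ => ∑ k, v k * x k)
      (∑ k, v k • (ContinuousLinearMap.proj k : (Fin K → ℝ) →L[ℝ] ℝ)) z := by
    refine HasFDerivAt.fun_sum fun k _ => ?_
    exact (ContinuousLinearMap.proj (R := ℝ) (φ := fun _ : Fin K => ℝ) k).hasFDerivAt.const_mul (v k)
  exact h1.add h2

/-- **Row N2.** -/
theorem crit {K M : ℕ} {I : Type} [Fintype I] {g : I → (Fin K → ℝ) → ℝ}
    (hg : ∀ i, ContDiff ℝ 2 (g i)) (hK : IsCompact {x | ∀ i, 0 ≤ g i x})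
    {p : Fin M → Fin K → ℝ} (hp : ∀ j i, 0 < g i (p j)) (hsep : Sep {x | ∀ i, 0 ≤ g i x} p) :
    ∃ v : Fin K → ℝ, (M : ℕ∞) ≤ (KH.nz {x | ∀ i, 0 < g i x} fun k x =>
      (∑ i, fderiv ℝ (g i) x (Pi.single k 1) / g i x) + v k).encard := by
  classical
  obtain ⟨A, hA⟩ : ∃ A : Set (Fin K → ℝ), A = {x | ∀ i, 0 ≤ g i x} := ⟨_, rfl⟩
  obtain ⟨O, hO⟩ : ∃ O : Set (Fin K → ℝ), O = {x | ∀ i, 0 < g i x} := ⟨_, rfl⟩
  rw [← hA] at hK hsep
  rw [← hO]
  have mA : ∀ x, x ∈ A ↔ ∀ i, 0 ≤ g i x := fun x => by rw [hA]; rfl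
  have mO : ∀ x, x ∈ O ↔ ∀ i, 0 < g i x := fun x => by rw [hO]; rfl
  let G : Fin K → (Fin K → ℝ) → ℝ := fun k x => ∑ i, fderiv ℝ (g i) x (Pi.single k 1) / g i x
  have hOo : IsOpen O := by
    have h1 : O = ⋂ i, {x | 0 < g i x} := by
      ext x
      rw [mO, mem_iInter]
      exact Iff.rfl
    rw [h1]
    exact isOpen_iInter_of_finite fun i => isOpen_lt continuous_const (hg i).continuous
  have hOA : O ⊆ A := fun x hx => (mA x).2 fun i => ((mO x).1 hx i).le
  have hG : ∀ k, ContDiffOn ℝ 1 (G k) O := by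
    intro k
    refine ContDiffOn.sum fun i _ => ?_
    refine ContDiffOn.div ?_ ((hg i).of_le (by norm_num)).contDiffOn
      (fun x hx => ((mO x).1 hx i).ne')
    exact (((hg i).fderiv_right (m := 1) (by norm_num)).clm_apply contDiff_const).contDiffOn
  have hs := KH.sard hOo hG
  obtain ⟨u, hu⟩ : ∃ u, u ∉ (fun x i => G i x) '' {x | x ∈ O ∧ (KH.jac G x).det = 0} := by
    by_contra hcon
    push Not at hcon
    rw [eq_univ_of_forall hcon] at hs
    exact (isOpen_univ.measure_pos (volume : Measure (Fin K → ℝ)) univ_nonempty).ne' hs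
  refine ⟨fun k => -u k, ?_⟩
  -- the components
  have hpO : ∀ j, p j ∈ O := fun j => (mO _).2 (hp j)
  have hpA : ∀ j, p j ∈ A := fun j => hOA (hpO j)
  let C : Fin M → Set (Fin K → ℝ) := fun j => connectedComponentIn A (p j)
  have hCA : ∀ j, C j ⊆ A := fun j => connectedComponentIn_subset A (p j)
  have hpC : ∀ j, p j ∈ C j := fun j => mem_connectedComponentIn (hpA j)
  have hCc : ∀ j, IsCompact (C j) := by
    intro j
    have h1 : closure (C j) ⊆ C j :=
      isPreconnected_connectedComponentIn.closure.subset_connectedComponentIn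
        (subset_closure (hpC j)) (closure_minimal (hCA j) hK.isClosed)
    exact hK.of_isClosed_subset (closure_subset_iff_isClosed.1 h1) (hCA j)
  let h : (Fin K → ℝ) → ℝ := fun x => (∏ i, g i x) * Real.exp (∑ k, -u k * x k)
  have hcont : Continuous h := by
    refine Continuous.mul (continuous_finsetProd _ fun i _ => (hg i).continuous) ?_
    exact Real.continuous_exp.comp (continuous_finsetSum _ fun k _ =>
      continuous_const.mul (continuous_apply k))
  have hmax : ∀ j, ∃ z ∈ C j, ∀ x ∈ C j, h x ≤ h z := fun j =>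
    (hCc j).exists_isMaxOn ⟨p j, hpC j⟩ hcont.continuousOn
  choose z hzC hzmax using hmax
  have hzO : ∀ j, z j ∈ O := by
    intro j
    have h1 : 0 < h (p j) := mul_pos (Finset.prod_pos fun i _ => hp j i) (Real.exp_pos _)
    have h2 : 0 < h (z j) := lt_of_lt_of_le h1 (hzmax j _ (hpC j))
    refine (mO _).2 fun i => ?_
    have h3 : 0 ≤ g i (z j) := (mA _).1 (hCA j (hzC j)) i
    refine lt_of_le_of_ne h3 fun h4 => ?_
    have h5 : ∏ i, g i (z j) = 0 := Finset.prod_eq_zero (Finset.mem_univ i) h4.symm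
    have h6 : h (z j) = 0 := by
      show (∏ i, g i (z j)) * _ = 0
      rw [h5, zero_mul]
    exact h2.ne' h6
  -- the maxima are critical points
  have hcrit : ∀ j k, G k (z j) + -u k = 0 := by
    intro j k
    obtain ⟨ε, hε, hball⟩ := Metric.isOpen_iff.1 hOo (z j) (hzO j)
    have hsub : Metric.ball (z j) ε ⊆ C j := by
      have h1 : Metric.ball (z j) ε ⊆ connectedComponentIn A (z j) :=
        ((convex_ball (z j) ε).isPreconnected).subset_connectedComponentIn
          (Metric.mem_ball_self hε) (hball.trans hOA)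
      have h2 : connectedComponentIn A (p j) = connectedComponentIn A (z j) :=
        connectedComponentIn_eq (hzC j)
      exact h1.trans h2.symm.subset
    have hlog : ∀ x ∈ O, Real.log (h x) =
        (∑ i, Real.log (g i x)) + ∑ k, -u k * x k := by
      intro x hx
      show Real.log ((∏ i, g i x) * Real.exp (∑ k, -u k * x k)) = _
      rw [Real.log_mul (Finset.prod_ne_zero_iff.2 fun i _ => ((mO x).1 hx i).ne')
        (Real.exp_pos _).ne', Real.log_exp, Real.log_prod]
      exact fun i _ => ((mO x).1 hx i).ne'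
    have hpos : ∀ x ∈ O, 0 < h x := fun x hx =>
      mul_pos (Finset.prod_pos fun i _ => (mO x).1 hx i) (Real.exp_pos _)
    have hloc : IsLocalMax (fun x : Fin K → ℝ =>
        (∑ i, Real.log (g i x)) + ∑ k, -u k * x k) (z j) := by
      filter_upwards [Metric.ball_mem_nhds (z j) hε] with x hx
      rw [← hlog x (hball hx), ← hlog _ (hzO j)]
      exact Real.log_le_log (hpos x (hball hx)) (hzmax j x (hsub hx))
    have hd := hasFDerivAt_logsum hg (fun k => -u k) ((mO _).1 (hzO j))
    have h0 := hloc.hasFDerivAt_eq_zero hd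
    have h1 := congrArg (fun L : (Fin K → ℝ) →L[ℝ] ℝ => L (Pi.single k 1)) h0
    simp only [add_apply, sum_apply, smul_apply, ContinuousLinearMap.proj_apply, zero_apply,
      smul_eq_mul] at h1
    have h2 : ∑ c, -u c * (Pi.single k 1 : Fin K → ℝ) c = -u k := by
      rw [Finset.sum_eq_single k]
      · simp
      · intro c _ hc
        simp [Pi.single_eq_of_ne hc]
      · intro hk
        exact absurd (Finset.mem_univ k) hk
    rw [h2] at h1
    have h3 : G k (z j) = ∑ i, (g i (z j))⁻¹ * (fderiv ℝ (g i) (z j)) (Pi.single k 1) :=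
      Finset.sum_congr rfl fun i _ => by rw [div_eq_inv_mul]
    rw [h3]
    exact h1
  -- the critical points are distinct
  have hinj : Function.Injective z := by
    intro a b hab
    by_contra hne
    have h1 : connectedComponentIn A (p a) = connectedComponentIn A (z a) :=
      connectedComponentIn_eq (hzC a)
    have h2 : connectedComponentIn A (p b) = connectedComponentIn A (z b) :=
      connectedComponentIn_eq (hzC b)
    have h3 : C a = C b := by
      show connectedComponentIn A (p a) = connectedComponentIn A (p b)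
      rw [h1, h2, hab]
    refine hsep a b hne (C a) (hCA a) isPreconnected_connectedComponentIn (hpC a) ?_
    rw [h3]
    exact hpC b
  have hmem : ∀ j, z j ∈ KH.nz O fun k x =>
      (∑ i, fderiv ℝ (g i) x (Pi.single k 1) / g i x) + -u k := by
    intro j
    refine ⟨hzO j, hcrit j, ?_⟩
    have h1 : KH.jac (fun k x => (∑ i, fderiv ℝ (g i) x (Pi.single k 1) / g i x) + -u k) (z j) =
        KH.jac G (z j) := by
      ext a b
      show fderiv ℝ (fun x => G a x + -u a) (z j) (Pi.single b 1) =
        fderiv ℝ (G a) (z j) (Pi.single b 1)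
      rw [fderiv_add_const]
    rw [h1]
    intro h2
    refine hu ⟨z j, ⟨hzO j, h2⟩, ?_⟩
    funext k
    have h3 := hcrit j k
    show G k (z j) = u k
    linarith
  have hr : range z ⊆ KH.nz O fun k x =>
      (∑ i, fderiv ℝ (g i) x (Pi.single k 1) / g i x) + -u k := by
    rintro _ ⟨j, rfl⟩
    exact hmem j
  have hc : (range z).encard = (M : ℕ∞) := by
    rw [← image_univ, hinj.injOn.encard_image, encard_univ]
    simp
  rw [← hc]
  exact encard_le_encard hr

end Pool.Agent.Lib.MP_641cb6_lc.KN
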