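import Pool.Agent.Lib.MP_641cb6_lc.KN.Defs

/-!
# LOCK: definitions (helper59)
-/

set_option autoImplicit false

namespace Pool.Agent.Lib.MP_641cb6_lc.KN

/-- the input `(a0, y, b)` of the tree for `z = (y, b)` -/
def inp {n k : ℕ} (a0 : Fin n → ℝ) (z : Fin (k + 1) → ℝ) : (Fin (n + k) → ℝ) × ℝ :=
  (Fin.append a0 fun i => z i.castSucc, z (Fin.last k))

/-- the statement of the cell bound -/
def CellBound : Prop :=
  ∀ (K M : ℕ) (f : ℕ → (Fin K → ℝ) → ℝ) (q d L : ℕ) (σ : ℕ → SignType)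
    (p : Fin M → Fin K → ℝ), IsNG f q d L → (∀ j, p j ∈ Cell f σ L) → Sep (Cell f σ L) p →
    M ≤ NB K q d L

end Pool.Agent.Lib.MP_641cb6_lc.KN
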