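import Pool.Agent.Lib.MP_641cb6_lc.KG.Defs
import Pool.Agent.Lib.MP_641cb6_lc.KG.Later
import Pool.Agent.Lib.MP_641cb6_lc.KH.Defs
import Pool.Agent.Lib.MP_641cb6_lc.Tree

/-!
# Nondeterministic computation trees with gates over the reals: definitions
-/

set_option autoImplicit false

namespace Pool.Agent.Lib.MP_641cb6_lc.KN

open Pool.Agent.Lib.MP_641cb6_lc.KG (GTree SSt sym gates)

/-- The pairs `(a, b)` such that `b` is the sum of numbers `y 0, ..., y (n - 1)` that the `m`-th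
iterate of `t ↦ 2 t ^ 2 - 1` maps to `a 0, ..., a (n - 1)`. -/
def SumSet (n m : ℕ) : Set ((Fin n → ℝ) × ℝ) :=
  {p | ∃ y : Fin n → ℝ, (∀ i, dbl^[m] (y i) = p.1 i) ∧ p.2 = ∑ i, y i}

/-- The tree accepts exactly the inputs in `S`, with `k` guesses from `K`: `(a, b)` is in `S` iff
for some `y` in `K ^ k` the tree answers `true` on `((a, y), b)` after finitely many steps. -/
def Guesses {K : Type} [Field K] (P : K → Prop) (V : GTree K) (k : ℕ) {n : ℕ}
    (S : Set ((Fin n → K) × K)) : Prop :=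
  ∀ x : (Fin n → K) × K, x ∈ S ↔ ∃ (y : Fin k → K) (t : ℕ),
    V (V.run P (Fin.append x.1 y, x.2) t).hist = .answer true

/-- `f 0, ..., f (L - 1)` are constants, coordinates, or polynomials of degree at most `d` in `q`
products of powers of earlier ones. -/
def IsNG {K : ℕ} (f : ℕ → (Fin K → ℝ) → ℝ) (q d L : ℕ) : Prop :=
  ∀ l < L, (∃ c : ℝ, ∀ x, f l x = c) ∨ (∃ i, ∀ x, f l x = x i) ∨
    ∃ (F : MvPolynomial (Fin q) ℝ) (α : Fin q → ℕ → ℕ), F.totalDegree ≤ d ∧
      ∀ x, f l x = MvPolynomial.eval (fun i => ∏ j ∈ Finset.range l, f j x ^ α i j) F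

/-- the set of the points at which `f 0, ..., f (L - 1)` have the signs `σ` -/
def Cell {K : ℕ} (f : ℕ → (Fin K → ℝ) → ℝ) (σ : ℕ → SignType) (L : ℕ) : Set (Fin K → ℝ) :=
  {x | ∀ l < L, SignType.sign (f l x) = σ l}

/-- no connected subset of `E` contains two of the points `p` -/
def Sep {K M : ℕ} (E : Set (Fin K → ℝ)) (p : Fin M → Fin K → ℝ) : Prop :=
  ∀ i j, i ≠ j → ∀ C ⊆ E, IsPreconnected C → p i ∈ C → p j ∉ C

/-- the bound for `N` variables and polynomials of degree `d` -/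
def RN (N d : ℕ) : ℕ := (d + 2) ^ N * (2 * N + 4) ^ (N + 1) ^ 2

/-- the bound for the number of separated points in a cell -/
def NB (K q d L : ℕ) : ℕ := RN (K + (L * (q + 4) + 2)) ((d + 3) * (L + 1))

open Classical in
/-- the constraint functions: `none` is the ball of radius `R` -/
noncomputable def gg {K : ℕ} (L : ℕ) (f : ℕ → (Fin K → ℝ) → ℝ) (σ : ℕ → SignType) (ε δ R : ℝ) :
    Option (Fin L) → (Fin K → ℝ) → ℝ
  | none, x => R ^ 2 - ∑ i, x i ^ 2
  | some l, x => if σ l = 0 then δ - f l x ^ 2 else (σ l : ℝ) * f l x - ε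

end Pool.Agent.Lib.MP_641cb6_lc.KN
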