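import Mathlib
import Pool.Agent.Lib.MP_641cb6_lc.KN.Defs

/-!
# Compactness: separated points of a cell are separated in a compact neighbourhood
-/

set_option autoImplicit false

open Set Filter Topology

namespace Pool.Agent.Lib.MP_641cb6_lc.KN

/-- a nested intersection of compact connected sets is connected -/
theorem nested {X : Type*} [TopologicalSpace X] [T2Space X] [NormalSpace X] (E : ℕ → Set X)
    (anti : Antitone E) (hc : ∀ n, IsCompact (E n)) (hp : ∀ n, IsPreconnected (E n)) :
    IsPreconnected (⋂ n, E n) := by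
  have hcl : IsClosed (⋂ n, E n) := isClosed_iInter fun n => (hc n).isClosed
  rw [isPreconnected_iff_subset_of_fully_disjoint_closed hcl]
  intro u v hu hv huv hd
  obtain ⟨U, V, hU, hV, huU, hvV, hUV⟩ := normal_separation hu hv hd
  obtain ⟨n, hn⟩ : ∃ n, E n ⊆ U ∪ V := by
    refine exists_subset_nhds_of_isCompact (anti.directed_ge) hc ?_
    intro x hx
    exact (hU.union hV).mem_nhds ((huv.trans (union_subset_union huU hvV)) hx)
  rcases (hp n).subset_or_subset hU hV hUV hn with h | h
  · left
    intro x hx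
    rcases huv hx with h1 | h1
    · exact h1
    · exact absurd (hvV h1) (fun h2 => hUV.le_bot ⟨h (mem_iInter.1 hx n), h2⟩)
  · right
    intro x hx
    rcases huv hx with h1 | h1
    · exact absurd (huU h1) (fun h2 => hUV.le_bot ⟨h2, h (mem_iInter.1 hx n)⟩)
    · exact h1

theorem isClosed_compIn {X : Type*} [TopologicalSpace X] {F : Set X} (hF : IsClosed F) (x : X) :
    IsClosed (connectedComponentIn F x) := by
  by_cases hx : x ∈ F
  · rw [← closure_subset_iff_isClosed]
    refine (isPreconnected_connectedComponentIn.closure).subset_connectedComponentIn ?_ ?_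
    · exact subset_closure (mem_connectedComponentIn hx)
    · exact closure_minimal (connectedComponentIn_subset F x) hF
  · rw [connectedComponentIn_eq_empty hx]
    exact isClosed_empty

theorem isClosed_gg {K L : ℕ} {f : ℕ → (Fin K → ℝ) → ℝ} (hf : ∀ l < L, Continuous (f l))
    (σ : ℕ → SignType) (ε δ R : ℝ) : IsClosed {x | ∀ i, 0 ≤ gg L f σ ε δ R i x} := by
  rw [Set.ofPred_forall]
  refine isClosed_iInter fun i => ?_
  refine isClosed_le continuous_const ?_
  cases i with
  | none =>
    unfold gg
    fun_prop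
  | some l =>
    have hl := hf l l.2
    by_cases h : σ l = 0
    · have : (gg L f σ ε δ R (some l)) = fun x => δ - f l x ^ 2 := by
        ext x
        simp only [gg, if_pos h]
      rw [this]
      fun_prop
    · have : (gg L f σ ε δ R (some l)) = fun x => (σ l : ℝ) * f l x - ε := by
        ext x
        simp only [gg, if_neg h]
      rw [this]
      fun_prop

theorem isCompact_gg {K L : ℕ} {f : ℕ → (Fin K → ℝ) → ℝ} (hf : ∀ l < L, Continuous (f l))
    (σ : ℕ → SignType) (ε δ R : ℝ) : IsCompact {x | ∀ i, 0 ≤ gg L f σ ε δ R i x} := by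
  refine Metric.isCompact_of_isClosed_isBounded (isClosed_gg hf σ ε δ R) ?_
  refine (Metric.isBounded_closedBall (x := (0 : Fin K → ℝ)) (r := |R|)).subset ?_
  intro x hx
  have h := hx none
  simp only [gg] at h
  rw [mem_closedBall_zero_iff, pi_norm_le_iff_of_nonneg (abs_nonneg R)]
  intro i
  rw [Real.norm_eq_abs, ← sq_le_sq]
  have h2 : x i ^ 2 ≤ ∑ i, x i ^ 2 :=
    Finset.single_le_sum (f := fun i => x i ^ 2) (fun i _ => sq_nonneg _) (Finset.mem_univ i)
  linarith

theorem sep_compact {K M L : ℕ} {f : ℕ → (Fin K → ℝ) → ℝ} (hf : ∀ l < L, Continuous (f l))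
    {σ : ℕ → SignType} {p : Fin M → Fin K → ℝ} (hp : ∀ j, p j ∈ Cell f σ L)
    (hsep : Sep (Cell f σ L) p) :
    ∃ ε δ R : ℝ, 0 < ε ∧ 0 < δ ∧ (∀ j i, 0 < gg L f σ ε δ R i (p j)) ∧
      IsCompact {x | ∀ i, 0 ≤ gg L f σ ε δ R i x} ∧
      Sep {x | ∀ i, 0 ≤ gg L f σ ε δ R i x} p := by
  -- the choice of `ε`
  have hlive : ∀ (j : Fin M) (l : Fin L), σ l ≠ 0 → 0 < (σ l : ℝ) * f l (p j) := by
    intro j l h
    have h1 := hp j l l.2
    have h2 : f l (p j) ≠ 0 := by
      intro h3
      rw [h3, sign_zero] at h1
      exact h h1.symm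
    rw [← h1, sign_mul_self]
    exact abs_pos.2 h2
  obtain ⟨ε, hεs, hε⟩ : ∃ ε : ℝ, (∀ (j : Fin M) (l : Fin L), σ l ≠ 0 →
      ε < (σ l : ℝ) * f l (p j)) ∧ 0 < ε := by
    have h1 : ∀ᶠ ε in 𝓝[>] (0 : ℝ), ∀ (j : Fin M) (l : Fin L), σ l ≠ 0 →
        ε < (σ l : ℝ) * f l (p j) := by
      rw [eventually_all]
      intro j
      rw [eventually_all]
      intro l
      by_cases h : σ l = 0
      · exact Eventually.of_forall fun ε h' => absurd h h'
      · have h2 : ∀ᶠ ε in 𝓝 (0 : ℝ), ε < (σ l : ℝ) * f l (p j) := eventually_lt_nhds (hlive j l h)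
        exact (h2.filter_mono nhdsWithin_le_nhds).mono fun ε h3 _ => h3
    exact (h1.and eventually_mem_nhdsWithin).exists
  -- the choice of `R`
  set R : ℝ := (∑ j : Fin M, ∑ i, p j i ^ 2) + 1 with hR
  have hRj : ∀ j, ∑ i, p j i ^ 2 < R ^ 2 := by
    intro j
    have h1 : ∑ i, p j i ^ 2 ≤ ∑ j : Fin M, ∑ i, p j i ^ 2 :=
      Finset.single_le_sum (f := fun j : Fin M => ∑ i, p j i ^ 2)
        (fun j _ => Finset.sum_nonneg fun i _ => sq_nonneg _) (Finset.mem_univ j)
    have h2 : 0 ≤ ∑ i, p j i ^ 2 := Finset.sum_nonneg fun i _ => sq_nonneg _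
    nlinarith
  -- the nested compact sets
  set E : ℕ → Set (Fin K → ℝ) := fun N => {x | ∀ i, 0 ≤ gg L f σ ε (1 / ((N : ℝ) + 1)) R i x}
    with hE
  have hanti : Antitone E := by
    intro N N' h x hx i
    have h1 := hx i
    cases i with
    | none => exact h1
    | some l =>
      by_cases h2 : σ l = 0
      · simp only [gg, if_pos h2] at h1 ⊢
        have h3 : 1 / ((N' : ℝ) + 1) ≤ 1 / ((N : ℝ) + 1) := by
          apply one_div_le_one_div_of_le (by positivity)
          have : (N : ℝ) ≤ N' := by exact_mod_cast h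
          linarith
        linarith
      · simp only [gg, if_neg h2] at h1 ⊢
        exact h1
  have hcell : (⋂ N, E N) ⊆ Cell f σ L := by
    intro x hx l hl
    rw [mem_iInter] at hx
    by_cases h2 : σ l = 0
    · have h3 : ∀ N : ℕ, f l x ^ 2 ≤ 1 / ((N : ℝ) + 1) := by
        intro N
        have h4 := hx N (some ⟨l, hl⟩)
        simp only [gg] at h4
        rw [if_pos h2] at h4
        linarith
      have h5 : f l x ^ 2 ≤ 0 :=
        le_of_tendsto_of_tendsto tendsto_const_nhds tendsto_one_div_add_atTop_nhds_zero_nat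
          (Eventually.of_forall h3)
      have h6 : f l x = 0 := by nlinarith [sq_nonneg (f l x)]
      rw [h6, h2, sign_zero]
    · have h4 := hx 0 (some ⟨l, hl⟩)
      simp only [gg] at h4
      rw [if_neg h2] at h4
      have h5 : 0 < (σ l : ℝ) * f l x := by linarith
      rcases hs : σ l with _ | _ | _
      · exact absurd hs h2
      · rw [hs] at h5
        simp only [SignType.neg_eq_neg_one, SignType.coe_neg_one] at h5
        rw [SignType.neg_eq_neg_one, sign_eq_neg_one_iff]
        linarith
      · rw [hs] at h5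
        simp only [SignType.pos_eq_one, SignType.coe_one] at h5
        rw [SignType.pos_eq_one, sign_eq_one_iff]
        linarith
  have hcpt : ∀ N, IsCompact (E N) := fun N => isCompact_gg hf σ ε _ R
  have hpos : ∀ (N : ℕ) j i, 0 < gg L f σ ε (1 / ((N : ℝ) + 1)) R i (p j) := by
    intro N j i
    cases i with
    | none =>
      simp only [gg]
      linarith [hRj j]
    | some l =>
      by_cases h2 : σ l = 0
      · simp only [gg, if_pos h2]
        have h3 := hp j l l.2
        rw [h2, sign_eq_zero_iff] at h3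
        rw [h3]
        have : 0 < 1 / ((N : ℝ) + 1) := by positivity
        linarith
      · simp only [gg, if_neg h2]
        linarith [hεs j l h2]
  have hmem : ∀ N j, p j ∈ E N := fun N j i => (hpos N j i).le
  -- separation of two points
  have hpair : ∀ i j : Fin M, i ≠ j → ∃ N, p j ∉ connectedComponentIn (E N) (p i) := by
    intro i j hij
    by_contra hcon
    push Not at hcon
    have h1 : IsPreconnected (⋂ N, connectedComponentIn (E N) (p i)) := by
      refine nested _ ?_ ?_ fun N => isPreconnected_connectedComponentIn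
      · intro N N' h
        exact connectedComponentIn_mono _ (hanti h)
      · intro N
        exact (hcpt N).of_isClosed_subset (isClosed_compIn (hcpt N).isClosed _)
          (connectedComponentIn_subset _ _)
    refine hsep i j hij _ ?_ h1 ?_ ?_
    · exact (iInter_mono fun N => connectedComponentIn_subset _ _).trans hcell
    · exact mem_iInter.2 fun N => mem_connectedComponentIn (hmem N i)
    · exact mem_iInter.2 hcon
  choose! ν hν using hpair
  set N := Finset.univ.sup fun t : Fin M × Fin M => ν t.1 t.2 with hN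
  refine ⟨ε, 1 / ((N : ℝ) + 1), R, hε, by positivity, hpos N, hcpt N, ?_⟩
  intro i j hij C hC hpre hi hj
  have h1 : ν i j ≤ N :=
    Finset.le_sup (f := fun t : Fin M × Fin M => ν t.1 t.2) (Finset.mem_univ (i, j))
  apply hν i j hij
  exact connectedComponentIn_mono _ (hanti h1) (hpre.subset_connectedComponentIn hi hC hj)

end Pool.Agent.Lib.MP_641cb6_lc.KN
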