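import Pool.Agent.Lib.MP_641cb6_lc.KN.Crt
import Pool.Agent.Lib.MP_641cb6_lc.KN.Crit
import Pool.Agent.Lib.MP_641cb6_lc.KN.Sep
import Pool.Agent.Lib.MP_641cb6_lc.KN.LockDefs

/-!
# The number of separated points in a cell
-/

set_option autoImplicit false

namespace Pool.Agent.Lib.MP_641cb6_lc.KN

/-- no cell contains more than `NB K q d L` points that are pairwise separated in it -/
theorem cell_bound : CellBound := by
  intro K M f q d L σ p hf hp hs
  obtain ⟨f', P, α, hL, hff⟩ := kill_exists hf σ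
  have hc := cell_eq hff
  rw [← hc] at hs
  have hp' : ∀ j, p j ∈ Cell f' σ L := fun j => by
    rw [hc]
    exact hp j
  obtain ⟨ε, δ, R, hε, hδ, h1, h2, h3⟩ := sep_compact (f := f')
    (fun l hl => (f_contDiff hL l hl).continuous) hp' hs
  obtain ⟨v, hv⟩ := crit (fun i => gg_contDiff hL i) h2 h1 h3
  have h4 := hv.trans (crit_count hL hε v)
  exact_mod_cast h4

end Pool.Agent.Lib.MP_641cb6_lc.KN
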