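import Pool.Agent.Lib.MP_641cb6_lc.KN.Lock

/-!
# Many separated accepted points need many gates or guesses (helper59)
-/

set_option autoImplicit false

namespace Pool.Agent.Lib.MP_641cb6_lc.KN

open Pool.Agent.Lib.MP_641cb6_lc.KG

theorem run_stay {n' : ℕ} (V : GTree ℝ) (x : (Fin n' → ℝ) × ℝ) {t : ℕ} {b : Bool}
    (h : V (V.run nn x t).hist = .answer b) (j : ℕ) : V.run nn x (t + j) = V.run nn x t := by
  induction j with
  | zero => rfl
  | succ j ih =>
    have e1 : V.run nn x (t + (j + 1)) = V.step nn (V.run nn x (t + j)) := rfl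
    rw [e1, ih]
    unfold GTree.step
    rw [h]

theorem run_stay' {n' : ℕ} (V : GTree ℝ) (x : (Fin n' → ℝ) × ℝ) {t t' : ℕ} (ht : t ≤ t')
    {b : Bool} (h : V (V.run nn x t).hist = .answer b) : V.run nn x t' = V.run nn x t := by
  obtain ⟨j, rfl⟩ : ∃ j, t' = t + j := ⟨t' - t, by omega⟩
  exact run_stay V x h j

theorem gates_stay {n' : ℕ} (V : GTree ℝ) (x : (Fin n' → ℝ) × ℝ) {t t' : ℕ} (ht : t ≤ t')
    {b : Bool} (h : V (V.run nn x t).hist = .answer b) : gates nn V x t' = gates nn V x t := by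
  rw [← atoms_length, ← atoms_length, run_stay' V x ht h]

/-- If the accepted points `p j` are separated then one of them needs many gates. -/
theorem core (hcell : CellBound) {n k a D M : ℕ} {V : GTree ℝ} (hV : V.Bounded a D)
    (hM : 1 ≤ M) (a0 : Fin n → ℝ) (p : Fin M → Fin (k + 1) → ℝ) (t : Fin M → ℕ)
    (hans : ∀ j, V (V.run (fun v : ℝ => 0 ≤ v) (inp a0 (p j)) (t j)).hist = .answer true)
    (hsep : Sep {z | ∃ t, V (V.run (fun v : ℝ => 0 ≤ v) (inp a0 z) t).hist = .answer true} p) :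
    ∃ j, M ≤ 3 ^ (k + 1 + gates (fun v : ℝ => 0 ≤ v) V (inp a0 (p j)) (t j)) *
      NB (k + 1) (a + 1) D (n + k + 1 + gates (fun v : ℝ => 0 ≤ v) V (inp a0 (p j)) (t j)) := by
  have : Nonempty (Fin M) := ⟨⟨0, hM⟩⟩
  obtain ⟨j, hj⟩ := Finite.exists_max fun j => gates nn V (inp a0 (p j)) (t j)
  refine ⟨j, lock hcell hV a0 p (t := Finset.univ.sup t) (fun i => ?_) (fun i => ?_) hsep⟩
  · have h1 := run_stay' V (inp a0 (p i)) (Finset.le_sup (f := t) (Finset.mem_univ i)) (hans i)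
    have h2 : V (V.run nn (inp a0 (p i)) (Finset.univ.sup t)).hist = .answer true := by
      rw [h1]
      exact hans i
    exact h2
  · have h1 := gates_stay V (inp a0 (p i)) (Finset.le_sup (f := t) (Finset.mem_univ i)) (hans i)
    exact h1.le.trans (hj i)

/-- an input with guesses in the form of `inp` -/
theorem inp_snoc {n k : ℕ} (a0 : Fin n → ℝ) (y : Fin k → ℝ) (b : ℝ) :
    inp a0 (Fin.snoc (α := fun _ => ℝ) y b) = (Fin.append a0 y, b) := by
  unfold inp
  simp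

theorem inp_eq {n k : ℕ} (a0 : Fin n → ℝ) (z : Fin (k + 1) → ℝ) :
    inp a0 z = (Fin.append a0 (fun i => z i.castSucc), z (Fin.last k)) := rfl

/-- A connected subset of a finite set of real numbers has at most one point. -/
theorem eq_of_conn {B : Set ℝ} (hB : B.Finite) {C : Set ℝ} (hC : IsPreconnected C) (hCB : C ⊆ B)
    {x y : ℝ} (hx : x ∈ C) (hy : y ∈ C) : x = y := by
  by_contra hne
  rcases lt_or_gt_of_ne hne with h | h
  · exact (Set.Icc_infinite h) ((hB.subset hCB).subset (hC.Icc_subset hx hy))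
  · exact (Set.Icc_infinite h) ((hB.subset hCB).subset (hC.Icc_subset hy hx))

/-- **Acceptance of a set with a large finite fibre.** -/
theorem lower_of_fibre (hcell : CellBound) {n k a D : ℕ} {V : GTree ℝ} (hV : V.Bounded a D)
    {S : Set ((Fin n → ℝ) × ℝ)} (h : Guesses (fun v : ℝ => 0 ≤ v) V k S) (a0 : Fin n → ℝ)
    (B : Finset ℝ) (hB : ∀ b, (a0, b) ∈ S ↔ b ∈ B) (hne : 1 ≤ B.card) :
    ∃ (x : (Fin n → ℝ) × ℝ) (y : Fin k → ℝ) (t : ℕ),
      V (V.run (fun v : ℝ => 0 ≤ v) (Fin.append x.1 y, x.2) t).hist = .answer true ∧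
      B.card ≤ 3 ^ (k + 1 + gates (fun v : ℝ => 0 ≤ v) V (Fin.append x.1 y, x.2) t) *
        NB (k + 1) (a + 1) D (n + k + 1 + gates (fun v : ℝ => 0 ≤ v) V (Fin.append x.1 y, x.2) t) := by
  have hb : ∀ j : Fin B.card, ∃ (y : Fin k → ℝ) (t : ℕ),
      V (V.run (fun v : ℝ => 0 ≤ v) (Fin.append a0 y, B.orderEmbOfFin rfl j) t).hist =
        .answer true := fun j => (h (a0, B.orderEmbOfFin rfl j)).1
      ((hB _).2 (B.orderEmbOfFin_mem rfl j))
  choose y t hyt using hb
  set p : Fin B.card → Fin (k + 1) → ℝ := fun j =>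
    Fin.snoc (α := fun _ => ℝ) (y j) (B.orderEmbOfFin rfl j) with hp
  have hinp : ∀ j, inp a0 (p j) = (Fin.append a0 (y j), B.orderEmbOfFin rfl j) := fun j =>
    inp_snoc a0 (y j) _
  obtain ⟨j, hj⟩ := core hcell hV hne a0 p t (fun j => by rw [hinp j]; exact hyt j) (by
    intro i j hij C hC hconn hi hj
    have hpl : ∀ i, p i (Fin.last k) = B.orderEmbOfFin rfl i := fun i => by
      rw [hp]
      simp
    have h1 : IsPreconnected ((fun z : Fin (k + 1) → ℝ => z (Fin.last k)) '' C) :=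
      hconn.image _ (continuous_apply _).continuousOn
    have h2 : (fun z : Fin (k + 1) → ℝ => z (Fin.last k)) '' C ⊆ (B : Set ℝ) := by
      rintro _ ⟨z, hz, rfl⟩
      obtain ⟨t', ht'⟩ := hC hz
      rw [inp_eq] at ht'
      exact (hB _).1 ((h (a0, z (Fin.last k))).2 ⟨_, t', ht'⟩)
    have h3 := eq_of_conn B.finite_toSet h1 h2 ⟨p i, hi, rfl⟩ ⟨p j, hj, rfl⟩
    simp only at h3
    rw [hpl, hpl] at h3
    exact hij ((B.orderEmbOfFin rfl).injective h3))
  rw [hinp j] at hj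
  exact ⟨(a0, B.orderEmbOfFin rfl j), y j, t j, hyt j, hj⟩

end Pool.Agent.Lib.MP_641cb6_lc.KN
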