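import Pool.Agent.Lib.MP_641cb6_lc.KN.Core

/-!
# Acceptance of the complement of a set with a large finite fibre (helper59)
-/

set_option autoImplicit false

namespace Pool.Agent.Lib.MP_641cb6_lc.KN

open Pool.Agent.Lib.MP_641cb6_lc.KG

/-- Points in the intervals of the complement of a finite set. -/
theorem exists_between_points (B : Finset ℝ) : ∃ c : ℕ → ℝ,
    (∀ j ≤ B.card, c j ∉ B) ∧ ∀ i j, i < j → j ≤ B.card → ∃ b ∈ B, c i < b ∧ b < c j := by
  obtain ⟨u, hu⟩ := B.bddAbove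
  set e : ℕ → ℝ := fun i => if h : i < B.card then B.orderEmbOfFin rfl ⟨i, h⟩ else u + i + 1
    with he
  have hmono : StrictMono e := by
    refine strictMono_nat_of_lt_succ fun i => ?_
    rw [he]
    simp only
    split_ifs with h1 h2 h2
    · exact (B.orderEmbOfFin rfl).strictMono (Fin.mk_lt_mk.2 (Nat.lt_succ_self i))
    · have h3 : B.orderEmbOfFin rfl ⟨i, h1⟩ ≤ u := hu (B.orderEmbOfFin_mem rfl ⟨i, h1⟩)
      have h4 : (0 : ℝ) ≤ ((i + 1 : ℕ) : ℝ) := Nat.cast_nonneg _
      linarith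
    · omega
    · push_cast
      linarith
  have hmem : ∀ i, i < B.card → e i ∈ B := by
    intro i hi
    rw [he]
    simp only
    rw [dif_pos hi]
    exact B.orderEmbOfFin_mem rfl _
  have hsurj : ∀ b ∈ B, ∃ i, i < B.card ∧ e i = b := by
    intro b hb
    have h1 : b ∈ Set.range (B.orderEmbOfFin rfl) := by
      rw [Finset.range_orderEmbOfFin]
      exact hb
    obtain ⟨i, hi⟩ := h1
    refine ⟨i, i.2, ?_⟩
    rw [he]
    simp only
    rw [dif_pos i.2]
    exact hi
  set c : ℕ → ℝ := fun j => if j = 0 then e 0 - 1 else (e (j - 1) + e j) / 2 with hc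
  have hlt : ∀ j, c j < e j := by
    intro j
    rw [hc]
    simp only
    split_ifs with h
    · rw [h]
      linarith
    · have h1 : e (j - 1) < e j := hmono (by omega)
      linarith
  have hgt : ∀ j, 1 ≤ j → e (j - 1) < c j := by
    intro j hj
    rw [hc]
    simp only
    rw [if_neg (by omega)]
    have h1 : e (j - 1) < e j := hmono (by omega)
    linarith
  refine ⟨c, fun j _ hj => ?_, fun i j hij hj => ?_⟩
  · obtain ⟨i, _, hi⟩ := hsurj _ hj
    rcases Nat.lt_or_ge i j with h | h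
    · have h1 : e i ≤ e (j - 1) := hmono.monotone (by omega)
      have h2 := hgt j (by omega)
      linarith
    · have h1 : e j ≤ e i := hmono.monotone h
      have h2 := hlt j
      linarith
  · refine ⟨e i, hmem i (by omega), hlt i, ?_⟩
    have h1 : e i ≤ e (j - 1) := hmono.monotone (by omega)
    have h2 := hgt j (by omega)
    linarith

/-- **Acceptance of the complement of a set with a large finite fibre.** -/
theorem lower_of_fibre_compl (hcell : CellBound) {n k a D : ℕ} {V : GTree ℝ}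
    (hV : V.Bounded a D) {S : Set ((Fin n → ℝ) × ℝ)}
    (h : Guesses (fun v : ℝ => 0 ≤ v) V k Sᶜ) (a0 : Fin n → ℝ)
    (B : Finset ℝ) (hB : ∀ b, (a0, b) ∈ S ↔ b ∈ B) :
    ∃ (x : (Fin n → ℝ) × ℝ) (y : Fin k → ℝ) (t : ℕ),
      V (V.run (fun v : ℝ => 0 ≤ v) (Fin.append x.1 y, x.2) t).hist = .answer true ∧
      B.card + 1 ≤ 3 ^ (k + 1 + gates (fun v : ℝ => 0 ≤ v) V (Fin.append x.1 y, x.2) t) *
        NB (k + 1) (a + 1) D (n + k + 1 + gates (fun v : ℝ => 0 ≤ v) V (Fin.append x.1 y, x.2) t) := by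
  obtain ⟨c, hc1, hc2⟩ := exists_between_points B
  have hb : ∀ j : Fin (B.card + 1), ∃ (y : Fin k → ℝ) (t : ℕ),
      V (V.run (fun v : ℝ => 0 ≤ v) (Fin.append a0 y, c j) t).hist = .answer true := fun j =>
    (h (a0, c j)).1 fun h0 => hc1 j (by omega) ((hB _).1 h0)
  choose y t hyt using hb
  set p : Fin (B.card + 1) → Fin (k + 1) → ℝ := fun j =>
    Fin.snoc (α := fun _ => ℝ) (y j) (c j) with hp
  have hinp : ∀ j, inp a0 (p j) = (Fin.append a0 (y j), c j) := fun j => inp_snoc a0 (y j) _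
  have hpl : ∀ i, p i (Fin.last k) = c i := fun i => by
    rw [hp]
    simp
  have key : ∀ i j : Fin (B.card + 1), i < j → ∀ C ⊆
      {z | ∃ t, V (V.run (fun v : ℝ => 0 ≤ v) (inp a0 z) t).hist = .answer true},
      IsPreconnected C → p i ∈ C → p j ∈ C → False := by
    intro i j hij C hC hconn hi hj
    obtain ⟨b, hbB, h1, h2⟩ := hc2 i j hij (by omega)
    have h3 : IsPreconnected ((fun z : Fin (k + 1) → ℝ => z (Fin.last k)) '' C) :=
      hconn.image _ (continuous_apply _).continuousOn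
    have h4 : c i ∈ (fun z : Fin (k + 1) → ℝ => z (Fin.last k)) '' C := ⟨p i, hi, hpl i⟩
    have h5 : c j ∈ (fun z : Fin (k + 1) → ℝ => z (Fin.last k)) '' C := ⟨p j, hj, hpl j⟩
    obtain ⟨z, hz, hzb⟩ := h3.Icc_subset h4 h5 ⟨h1.le, h2.le⟩
    obtain ⟨t', ht'⟩ := hC hz
    rw [inp_eq] at ht'
    have h6 := (h (a0, z (Fin.last k))).2 ⟨_, t', ht'⟩
    have hzb' : z (Fin.last k) = b := hzb
    rw [hzb'] at h6
    exact h6 ((hB b).2 hbB)
  obtain ⟨j, hj⟩ := core hcell hV (Nat.le_add_left 1 B.card) a0 p t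
    (fun j => by rw [hinp j]; exact hyt j) (by
    intro i j hij C hC hconn hi hj
    rcases lt_or_gt_of_ne hij with h1 | h1
    · exact key i j h1 C hC hconn hi hj
    · exact key j i h1 C hC hconn hj hi)
  rw [hinp j] at hj
  exact ⟨(a0, c j), y j, t j, hyt j, hj⟩

end Pool.Agent.Lib.MP_641cb6_lc.KN
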