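import Pool.Agent.Lib.MP_641cb6_lc.KN.Alg

/-!
# The equations for the critical points, and the number of their solutions
-/

set_option autoImplicit false

namespace Pool.Agent.Lib.MP_641cb6_lc.KN

open Finset MvPolynomial Topology

section

variable {K q d L : ℕ} {f : ℕ → (Fin K → ℝ) → ℝ} {σ : ℕ → SignType}
  {p : ℕ → MvPolynomial (Fin K ⊕ Fin q) ℝ} {α : ℕ → Fin q → ℕ → ℕ} {ε δ R : ℝ}

/-- the degree of the derivatives -/
def eD (d l : ℕ) : ℕ := (d + 1) + (d + 3) * l

theorem totalDegree_pderiv_leN {ι : Type} (P : MvPolynomial ι ℝ) (j : ι) :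
    (pderiv j P).totalDegree ≤ P.totalDegree := by
  classical
  refine Finset.sup_le fun m hm => ?_
  rw [mem_support_iff] at hm
  have h1 : coeff m (pderiv j P) ≠ 0 := hm
  rw [coeff_pderiv] at h1
  have h2 : coeff (m + Finsupp.single j 1) P ≠ 0 := fun h => h1 (by rw [h, zero_mul])
  have h3 := le_totalDegree (mem_support_iff.2 h2)
  refine le_trans ?_ h3
  rw [Finsupp.sum_add_index' (fun _ => rfl) fun _ _ _ => rfl]
  exact Nat.le_add_right _ _

/-- the derivative of an element -/
theorem f_fderiv (h : IsLG f σ q d L p α) (hε : 0 < ε) {l : ℕ} (hl : l < L) {x : Fin K → ℝ}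
    (hx : x ∈ UU L f σ ε δ R) (k : Fin K) :
    fderiv ℝ (f l) x (Pi.single k 1) =
      eval (Sum.elim x fun i => mm f σ α l i x) (pderiv (Sum.inl k) (p l)) +
      ∑ i, eval (Sum.elim x fun i => mm f σ α l i x) (pderiv (Sum.inr i) (p l)) *
        mm f σ α l i x * ∑ j ∈ range l, (α l i j : ℝ) * (yy f σ j x)⁻¹ *
          fderiv ℝ (f j) x (Pi.single k 1) := by
  classical
  have h12 : (2 : WithTop ℕ∞) ≠ 0 := by norm_num
  have hd : ∀ j < l, HasFDerivAt (f j) (fderiv ℝ (f j) x) x := fun j hj =>
    (((f_contDiff h j (lt_trans hj hl)).differentiable h12) x).hasFDerivAt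
  set g : Fin K ⊕ Fin q → (Fin K → ℝ) → ℝ := Sum.elim (fun k x => x k)
    (fun i x => ∏ j ∈ range l, f j x ^ α l i j) with hg
  have hmono : ∀ i, HasFDerivAt (fun y => ∏ j ∈ range l, f j y ^ α l i j)
      ((∏ j ∈ range l, f j x ^ α l i j) •
        ∑ j ∈ range l, ((α l i j : ℝ) * (f j x)⁻¹) • fderiv ℝ (f j) x) x := fun i =>
    hasFDerivAt_mono hd fun j hj ha => f_ne hε hx (lt_trans hj hl) (h.live l i j ha)
  have hg' : ∀ v, HasFDerivAt (g v) (Sum.elim (fun k => (ContinuousLinearMap.proj k :
      (Fin K → ℝ) →L[ℝ] ℝ)) (fun i => (∏ j ∈ range l, f j x ^ α l i j) •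
        ∑ j ∈ range l, ((α l i j : ℝ) * (f j x)⁻¹) • fderiv ℝ (f j) x) v) x := by
    intro v
    rcases v with k | i
    · exact hasFDerivAt_apply k x
    · exact hmono i
  have hfg : f l = fun y => eval (fun v => g v y) (p l) := by
    funext y
    rw [h.eq l hl y]
    have : (Sum.elim y fun i => ∏ j ∈ range l, f j y ^ α l i j) = fun v => g v y := by
      funext v
      rcases v with k | i <;> rfl
    rw [this]
  have hD := hasFDerivAt_evalG (p l) hg'
  rw [← hfg] at hD
  rw [hD.fderiv]
  have hgx : (fun v => g v x) = Sum.elim x fun i => mm f σ α l i x := by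
    funext v
    rcases v with k | i
    · rfl
    · exact (mm_eq h l i x).symm
  rw [hgx, Fintype.sum_sum_type]
  simp only [Sum.elim_inl, Sum.elim_inr, FunLike.coe_add, Pi.add_apply, FunLike.coe_sum,
    Finset.sum_apply, FunLike.coe_smul, Pi.smul_apply, smul_eq_mul,
    ContinuousLinearMap.proj_apply]
  congr 1
  · rw [Finset.sum_eq_single k]
    · rw [Pi.single_eq_same, mul_one]
    · intro k' _ hk'
      rw [Pi.single_eq_of_ne hk', mul_zero]
    · intro hk'
      exact absurd (mem_univ k) hk'
  · refine sum_congr rfl fun i _ => ?_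
    rw [← mm_eq h l i x, mul_assoc]
    congr 2
    refine sum_congr rfl fun j hj => ?_
    by_cases ha : α l i j = 0
    · rw [ha]
      simp
    · have : yy f σ j x = f j x := if_neg (h.live l i j ha)
      rw [this]

/-- the derivatives of the elements as polynomials in the auxiliary functions -/
theorem der_exists (h : IsLG f σ q d L p α) (hε : 0 < ε) : ∀ l < L,
    ∃ A : Fin K → MvPolynomial (Fin K ⊕ Ix q L) ℝ, ∀ k, (A k).totalDegree ≤ eD d l ∧
      ∀ x ∈ UU L f σ ε δ R, fderiv ℝ (f l) x (Pi.single k 1) =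
        eval (Sum.elim x fun j => zz L f σ α ε δ R j x) (A k) := by
  classical
  intro l
  induction l using Nat.strong_induction_on with
  | _ l ih =>
    intro hl
    have ih' : ∀ j, ∃ A : Fin K → MvPolynomial (Fin K ⊕ Ix q L) ℝ, j < l →
        ∀ k, (A k).totalDegree ≤ eD d j ∧
        ∀ x ∈ UU L f σ ε δ R, fderiv ℝ (f j) x (Pi.single k 1) =
          eval (Sum.elim x fun j => zz L f σ α ε δ R j x) (A k) := by
      intro j
      by_cases hj : j < l
      · obtain ⟨A, hA⟩ := ih j hj (lt_trans hj hl)
        exact ⟨A, fun _ => hA⟩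
      · exact ⟨fun _ => 0, fun h => absurd h hj⟩
    choose A hA using ih'
    -- the sum over the earlier elements
    set S : Fin q → Fin K → MvPolynomial (Fin K ⊕ Ix q L) ℝ := fun i k =>
      ∑ j : Fin l, C (α l i j : ℝ) *
        X (Sum.inr (Sum.inr (Sum.inl ((⟨j, lt_trans j.2 hl⟩ : Fin L), (1 : Fin 4))))) * A j k
      with hS
    refine ⟨fun k => rename (rho K ⟨l, hl⟩) (pderiv (Sum.inl k) (p l)) +
      ∑ i : Fin q, rename (rho K ⟨l, hl⟩) (pderiv (Sum.inr i) (p l)) *
        X (Sum.inr (Sum.inl ((⟨l, hl⟩ : Fin L), i))) * S i k, fun k => ⟨?_, fun x hx => ?_⟩⟩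
    · have hp1 : ∀ v : Fin K ⊕ Fin q,
          (rename (rho K (L := L) ⟨l, hl⟩) (pderiv v (p l))).totalDegree ≤ d + 1 := fun v =>
        (totalDegree_rename_le _ _).trans ((totalDegree_pderiv_leN _ _).trans (h.deg l))
      refine (totalDegree_add _ _).trans (max_le ?_ ?_)
      · refine (hp1 _).trans ?_
        unfold eD
        omega
      · refine (totalDegree_finsetSum _ _).trans (Finset.sup_le fun i _ => ?_)
        by_cases hl0 : l = 0
        · have : S i k = 0 := by
            rw [hS]
            subst hl0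
            simp
          rw [this, mul_zero, totalDegree_zero]
          exact Nat.zero_le _
        · refine (totalDegree_mul _ _).trans ?_
          have h1 : (rename (rho K (L := L) ⟨l, hl⟩) (pderiv (Sum.inr i) (p l)) *
              X (Sum.inr (Sum.inl ((⟨l, hl⟩ : Fin L), i)))).totalDegree ≤ d + 2 := by
            refine (totalDegree_mul _ _).trans ?_
            rw [totalDegree_X]
            have := hp1 (Sum.inr i)
            omega
          have h2 : (S i k).totalDegree ≤ 1 + eD d (l - 1) := by
            rw [hS]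
            refine (totalDegree_finsetSum _ _).trans (Finset.sup_le fun j _ => ?_)
            refine (totalDegree_mul _ _).trans ?_
            refine Nat.add_le_add ?_ ?_
            · refine (totalDegree_mul _ _).trans ?_
              rw [totalDegree_C, totalDegree_X]
            · refine ((hA j j.2 k).1).trans ?_
              unfold eD
              have := j.2
              exact Nat.add_le_add_left (Nat.mul_le_mul_left _ (by omega)) _
          have h3 : eD d l = eD d (l - 1) + (d + 3) := by
            unfold eD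
            obtain ⟨n, rfl⟩ : ∃ n, l = n + 1 := ⟨l - 1, by omega⟩
            rw [Nat.add_sub_cancel]
            ring
          omega
    · rw [f_fderiv h hε hl hx k, map_add, eval_rho, map_sum]
      congr 1
      refine sum_congr rfl fun i _ => ?_
      rw [map_mul, map_mul, eval_rho, eval_X]
      show _ = _ * mm f σ α l i x * _
      congr 1
      rw [hS]
      simp only [map_sum, map_mul, eval_C, eval_X]
      rw [← Fin.sum_univ_eq_sum_range (fun j => (α l i j : ℝ) * (yy f σ j x)⁻¹ *
        fderiv ℝ (f j) x (Pi.single k 1)) l]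
      refine sum_congr rfl fun j _ => ?_
      rw [(hA j j.2 k).2 x hx]
      rfl

/-- the derivatives of the constraint functions -/
theorem gg_der (h : IsLG f σ q d L p α) (hε : 0 < ε) (k : Fin K) (i : Option (Fin L)) :
    ∃ B : MvPolynomial (Fin K ⊕ Ix q L) ℝ, B.totalDegree + 1 ≤ (d + 3) * (L + 1) ∧
      ∀ x ∈ UU L f σ ε δ R, fderiv ℝ (gg L f σ ε δ R i) x (Pi.single k 1) =
        eval (Sum.elim x fun j => zz L f σ α ε δ R j x) B := by
  classical
  have h12 : (2 : WithTop ℕ∞) ≠ 0 := by norm_num
  rcases i with _ | l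
  · refine ⟨- (C 2 * X (Sum.inl k)), ?_, fun x _ => ?_⟩
    · rw [totalDegree_neg]
      have : (C (2 : ℝ) * X (Sum.inl k) : MvPolynomial (Fin K ⊕ Ix q L) ℝ).totalDegree ≤ 1 := by
        refine (totalDegree_mul _ _).trans ?_
        rw [totalDegree_C, totalDegree_X]
      nlinarith
    · have h1 : HasFDerivAt (fun x : Fin K → ℝ => R ^ 2 - ∑ i, x i ^ 2)
          (0 - ∑ i, (2 • x i ^ (2 - 1)) • (ContinuousLinearMap.proj i :
            (Fin K → ℝ) →L[ℝ] ℝ)) x := by
        refine (hasFDerivAt_const _ _).sub (HasFDerivAt.fun_sum fun i _ => ?_)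
        exact HasFDerivAt.pow (hasFDerivAt_apply i x) 2
      have h2 : fderiv ℝ (gg L f σ ε δ R none) x = _ := h1.fderiv
      rw [h2]
      simp only [FunLike.coe_sub, Pi.sub_apply, FunLike.coe_sum, Finset.sum_apply,
        FunLike.coe_smul, Pi.smul_apply, smul_eq_mul, ContinuousLinearMap.proj_apply, map_neg,
        map_mul, eval_C, eval_X, Sum.elim_inl]
      rw [Finset.sum_eq_single k]
      · rw [Pi.single_eq_same]
        simp
      · intro k' _ hk'
        rw [Pi.single_eq_of_ne hk', mul_zero]
      · intro hk'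
        exact absurd (mem_univ k) hk'
  · obtain ⟨A, hA⟩ := der_exists (ε := ε) (δ := δ) (R := R) h hε l l.2
    have hl := l.2
    have he : eD d l ≤ (d + 1) + (d + 3) * (L - 1) := by
      unfold eD
      exact Nat.add_le_add_left (Nat.mul_le_mul_left _ (by omega)) _
    have he2 : (d + 3) * (L + 1) = (d + 3) * (L - 1) + 2 * (d + 3) := by
      obtain ⟨n, hn⟩ : ∃ n, L = n + 1 := ⟨L - 1, by omega⟩
      rw [hn, Nat.add_sub_cancel]
      ring
    have hd : ∀ x, HasFDerivAt (f l) (fderiv ℝ (f l) x) x := fun x =>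
      (((f_contDiff h l l.2).differentiable h12) x).hasFDerivAt
    by_cases h0 : σ l = 0
    · refine ⟨- (C 2 * rename (rho K l) (p l) * A k), ?_, fun x hx => ?_⟩
      · rw [totalDegree_neg]
        have h1 : (C (2 : ℝ) * rename (rho K (L := L) l) (p l) * A k).totalDegree ≤
            (d + 1) + eD d l := by
          refine (totalDegree_mul _ _).trans (Nat.add_le_add ?_ (hA k).1)
          refine (totalDegree_mul _ _).trans ?_
          rw [totalDegree_C, zero_add]
          exact (totalDegree_rename_le _ _).trans (h.deg l)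
        omega
      · have e : gg L f σ ε δ R (some l) = fun x => δ - f l x ^ 2 := by
          funext x
          exact gg_dead h0 x
        have h1 : HasFDerivAt (fun x => δ - f l x ^ 2)
            (0 - (2 • f l x ^ (2 - 1)) • fderiv ℝ (f l) x) x :=
          (hasFDerivAt_const _ _).sub ((hd x).pow 2)
        rw [e, h1.fderiv]
        simp only [FunLike.coe_sub, Pi.sub_apply, FunLike.coe_smul, Pi.smul_apply, smul_eq_mul,
          map_neg, map_mul, eval_C]
        rw [eval_rho, ← f_eq h l.2, (hA k).2 x hx]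
        simp
    · refine ⟨C (σ l : ℝ) * A k, ?_, fun x hx => ?_⟩
      · have h1 : (C (σ l : ℝ) * A k).totalDegree ≤ eD d l := by
          refine (totalDegree_mul _ _).trans ?_
          rw [totalDegree_C, zero_add]
          exact (hA k).1
        omega
      · have e : gg L f σ ε δ R (some l) = fun x => (σ l : ℝ) * f l x - ε := by
          funext x
          exact gg_live h0 x
        have h1 : HasFDerivAt (fun x => (σ l : ℝ) * f l x - ε)
            ((σ l : ℝ) • fderiv ℝ (f l) x) x := ((hd x).const_mul _).sub_const _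
        rw [e, h1.fderiv]
        simp only [FunLike.coe_smul, Pi.smul_apply, smul_eq_mul, map_mul, eval_C]
        rw [(hA k).2 x hx]

/-- two systems that agree on an open set have the same nondegenerate zeros in it -/
theorem nz_congr {n : ℕ} {V : Set (Fin n → ℝ)} (hV : IsOpen V)
    {F G : Fin n → (Fin n → ℝ) → ℝ} (h : ∀ i, ∀ x ∈ V, F i x = G i x) : KH.nz V F ⊆ KH.nz V G := by
  rintro x ⟨hx, h1, h2⟩
  refine ⟨hx, fun i => by rw [← h i x hx]; exact h1 i, ?_⟩
  have h3 : KH.jac G x = KH.jac F x := by
    unfold KH.jac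
    ext i j
    have : G i =ᶠ[𝓝 x] F i := by
      filter_upwards [hV.mem_nhds hx] with y hy
      exact (h i y hy).symm
    simp only [Matrix.of_apply]
    rw [this.fderiv_eq]
  rw [h3]
  exact h2

/-- the number of critical points -/
theorem crit_count (h : IsLG f σ q d L p α) (hε : 0 < ε) (v : Fin K → ℝ) :
    (KH.nz (UU L f σ ε δ R) fun k x => (∑ i, fderiv ℝ (gg L f σ ε δ R i) x (Pi.single k 1) /
      gg L f σ ε δ R i x) + v k).encard ≤ (NB K q d L : ℕ) := by
  classical
  choose B hB using fun k i => gg_der (ε := ε) (δ := δ) (R := R) h hε k i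
  set P : Fin K → MvPolynomial (Fin K ⊕ Ix q L) ℝ := fun k =>
    (B k none * X (Sum.inr (Sum.inr (Sum.inr (1 : Fin 2)))) +
      ∑ l : Fin L, B k (some l) * X (Sum.inr (Sum.inr (Sum.inl (l, (3 : Fin 4)))))) + C (v k)
    with hP
  have hdeg : ∀ k, (P k).totalDegree ≤ (d + 3) * (L + 1) := by
    intro k
    have hX : ∀ i, ∀ j : Ix q L, (B k i * X (Sum.inr j)).totalDegree ≤ (d + 3) * (L + 1) := by
      intro i j
      refine (totalDegree_mul _ _).trans ?_
      rw [totalDegree_X]
      exact (hB k i).1
    refine (totalDegree_add _ _).trans (max_le ((totalDegree_add _ _).trans (max_le (hX _ _)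
      ((totalDegree_finsetSum _ _).trans (Finset.sup_le fun l _ => hX _ _)))) ?_)
    rw [totalDegree_C]
    exact Nat.zero_le _
  have hred := redN' (rkN q L) (UU_open (ε := ε) (δ := δ) (R := R) h)
    (z := zz L f σ α ε δ R) (fun i => zz_contDiffOn h hε i) (fun i x hx => zz_ne hε i hx)
    (d := (d + 3) * (L + 1)) (fun i => rows h hε i) P hdeg
  rw [card_Ix] at hred
  refine (Set.encard_le_encard (nz_congr (UU_open h) ?_)).trans hred
  intro k x hx
  rw [Fintype.sum_option, hP]
  simp only [map_add, map_mul, map_sum, eval_C, eval_X]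
  congr 1
  refine congrArg₂ (· + ·) ?_ (sum_congr rfl fun l _ => ?_)
  · rw [(hB k none).2 x hx, div_eq_mul_inv]
    rfl
  · rw [(hB k (some l)).2 x hx, div_eq_mul_inv]
    rfl

end

end Pool.Agent.Lib.MP_641cb6_lc.KN
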