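import Pool.Agent.Lib.MP_641cb6_lc.KN.Defs
import Pool.Agent.Lib.MP_641cb6_lc.KG.RChain
import Pool.Agent.Lib.MP_641cb6_lc.KH.Det

/-!
# Derivatives along a chain; dead elements
-/

set_option autoImplicit false

namespace Pool.Agent.Lib.MP_641cb6_lc.KN

open Finset MvPolynomial

/-! ### dead elements -/

/-- The elements are constants, coordinates or polynomials in products of powers of earlier live
elements: `f l` is the polynomial `p l` in the coordinates and the products. -/
structure IsLG {K : ℕ} (f : ℕ → (Fin K → ℝ) → ℝ) (σ : ℕ → SignType) (q d L : ℕ)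
    (p : ℕ → MvPolynomial (Fin K ⊕ Fin q) ℝ) (α : ℕ → Fin q → ℕ → ℕ) : Prop where
  deg : ∀ l, (p l).totalDegree ≤ d + 1
  live : ∀ l i j, α l i j ≠ 0 → σ j ≠ 0
  eq : ∀ l < L, ∀ x, f l x = eval (Sum.elim x fun i => ∏ j ∈ range l, f j x ^ α l i j) (p l)

theorem kill_step {K q d : ℕ} {f f' : ℕ → (Fin K → ℝ) → ℝ} {σ : ℕ → SignType} {L : ℕ}
    (hf : (∃ c : ℝ, ∀ x, f L x = c) ∨ (∃ i, ∀ x, f L x = x i) ∨
      ∃ (F : MvPolynomial (Fin q) ℝ) (α : Fin q → ℕ → ℕ), F.totalDegree ≤ d ∧
      ∀ x, f L x = eval (fun i => ∏ j ∈ range L, f j x ^ α i j) F)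
    (hff : ∀ x, (∀ j < L, SignType.sign (f j x) = σ j) → ∀ j < L, f' j x = f j x) :
    ∃ (p : MvPolynomial (Fin K ⊕ Fin q) ℝ) (α : Fin q → ℕ → ℕ), p.totalDegree ≤ d + 1 ∧
      (∀ i j, α i j ≠ 0 → σ j ≠ 0) ∧ ∀ x, (∀ j < L, SignType.sign (f j x) = σ j) →
        f L x = eval (Sum.elim x fun i => ∏ j ∈ range L, f' j x ^ α i j) p := by
  classical
  rcases hf with ⟨c, hc⟩ | ⟨i, hi⟩ | ⟨F, α, hF, he⟩
  · exact ⟨C c, fun _ _ => 0, by rw [totalDegree_C]; omega, fun _ _ h => absurd rfl h,
      fun x _ => by rw [hc, eval_C]⟩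
  · refine ⟨X (Sum.inl i), fun _ _ => 0, by rw [totalDegree_X]; omega, fun _ _ h => absurd rfl h,
      fun x _ => ?_⟩
    rw [hi, eval_X]
    rfl
  · obtain ⟨F', hF', -, hF''⟩ := KG.kill F fun i => ∃ j < L, α i j ≠ 0 ∧ σ j = 0
    refine ⟨rename Sum.inr F', fun i j => if σ j = 0 then 0 else α i j, ?_, ?_, ?_⟩
    · exact (totalDegree_rename_le _ _).trans (hF'.trans (hF.trans (by omega)))
    · intro i j hij h0
      exact hij (if_pos h0)
    · intro x hx
      have h1 := hF'' (RingHom.id ℝ) (fun i => ∏ j ∈ range L, f j x ^ α i j)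
        (fun i => ∏ j ∈ range L, f' j x ^ (if σ j = 0 then 0 else α i j)) ?_ ?_
      · rw [he x, eval_rename]
        exact h1
      · rintro i ⟨j, hj, h1, h2⟩
        refine prod_eq_zero (mem_range.2 hj) ?_
        have h3 := hx j hj
        rw [h2, sign_eq_zero_iff] at h3
        rw [h3, zero_pow h1]
      · intro i hi
        refine prod_congr rfl fun j hj => ?_
        have hj' := mem_range.1 hj
        rw [hff x hx j hj']
        by_cases h0 : σ j = 0
        · rw [if_pos h0]
          have : α i j = 0 := by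
            by_contra hne
            exact hi ⟨j, hj', hne, h0⟩
          rw [this]
        · rw [if_neg h0]

theorem kill_exists {K q d L : ℕ} {f : ℕ → (Fin K → ℝ) → ℝ} (hf : IsNG f q d L)
    (σ : ℕ → SignType) : ∃ (f' : ℕ → (Fin K → ℝ) → ℝ) (p : ℕ → MvPolynomial (Fin K ⊕ Fin q) ℝ)
      (α : ℕ → Fin q → ℕ → ℕ), IsLG f' σ q d L p α ∧
      ∀ x, ∀ l < L, (∀ j < l, SignType.sign (f j x) = σ j) → f' l x = f l x := by
  classical
  induction L with
  | zero =>
    exact ⟨f, fun _ => 0, fun _ _ _ => 0, ⟨fun _ => by simp, fun _ _ _ h => absurd rfl h,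
      fun l hl => absurd hl (by omega)⟩, fun x l hl => absurd hl (by omega)⟩
  | succ L ih =>
    obtain ⟨f', p, α, hL, hff⟩ := ih fun l hl => hf l (by omega)
    obtain ⟨p₀, α₀, h1, h2, h3⟩ := kill_step (f' := f') (σ := σ) (hf L (by omega))
      (fun x hx j hj => hff x j hj fun i hi => hx i (by omega))
    set f'' : ℕ → (Fin K → ℝ) → ℝ := Function.update f' L fun x =>
      eval (Sum.elim x fun i => ∏ j ∈ range L, f' j x ^ α₀ i j) p₀ with hf''
    have hne : ∀ j, j ≠ L → f'' j = f' j := fun j hj => Function.update_of_ne hj _ _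
    have hLL : f'' L = fun x => eval (Sum.elim x fun i => ∏ j ∈ range L, f' j x ^ α₀ i j) p₀ :=
      Function.update_self _ _ _
    refine ⟨f'', Function.update p L p₀, Function.update α L α₀, ⟨?_, ?_, ?_⟩, ?_⟩
    · intro l
      by_cases hl : l = L
      · rw [hl, Function.update_self]
        exact h1
      · rw [Function.update_of_ne hl]
        exact hL.deg l
    · intro l i j
      by_cases hl : l = L
      · rw [hl, Function.update_self]
        exact h2 i j
      · rw [Function.update_of_ne hl]
        exact hL.live l i j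
    · intro l hl x
      by_cases hlL : l = L
      · subst hlL
        rw [hLL, Function.update_self, Function.update_self]
        have : (fun i => ∏ j ∈ range l, f'' j x ^ α₀ i j) =
            fun i => ∏ j ∈ range l, f' j x ^ α₀ i j := by
          funext i
          refine prod_congr rfl fun j hj => ?_
          rw [hne j (ne_of_lt (mem_range.1 hj))]
        rw [this]
      · rw [Function.update_of_ne hlL, Function.update_of_ne hlL, hne l hlL,
          hL.eq l (by omega) x]
        have : (fun i => ∏ j ∈ range l, f'' j x ^ α l i j) =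
            fun i => ∏ j ∈ range l, f' j x ^ α l i j := by
          funext i
          refine prod_congr rfl fun j hj => ?_
          have := mem_range.1 hj
          rw [hne j (by omega)]
        rw [this]
    · intro x l hl hs
      by_cases hlL : l = L
      · subst hlL
        rw [hLL]
        exact (h3 x hs).symm
      · rw [hne l hlL]
        exact hff x l (by omega) hs

theorem cell_eq {K L : ℕ} {f f' : ℕ → (Fin K → ℝ) → ℝ} {σ : ℕ → SignType}
    (h : ∀ x, ∀ l < L, (∀ j < l, SignType.sign (f j x) = σ j) → f' l x = f l x) :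
    Cell f' σ L = Cell f σ L := by
  ext x
  constructor
  · intro hx
    have key : ∀ l < L, SignType.sign (f l x) = σ l := by
      intro l
      induction l using Nat.strong_induction_on with
      | _ l ih =>
        intro hl
        rw [← h x l hl fun j hj => ih j hj (by omega)]
        exact hx l hl
    exact key
  · intro hx l hl
    rw [h x l hl fun j hj => hx j (by omega)]
    exact hx l hl

/-! ### derivatives -/

theorem hasFDerivAt_evalG {E ι : Type} [NormedAddCommGroup E] [NormedSpace ℝ E] [Fintype ι]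
    (P : MvPolynomial ι ℝ) {g : ι → E → ℝ} {g' : ι → E →L[ℝ] ℝ} {x : E}
    (hg : ∀ i, HasFDerivAt (g i) (g' i) x) :
    HasFDerivAt (fun y => eval (fun i => g i y) P)
      (∑ i, (eval (fun i => g i x) (pderiv i P)) • g' i) x := by
  classical
  induction P using MvPolynomial.induction_on with
  | C a =>
    have h1 : (fun y => eval (fun i => g i y) (C a : MvPolynomial ι ℝ)) = fun _ => a := by
      funext y
      simp
    rw [h1]
    have h2 : (∑ i, (eval (fun i => g i x) (pderiv i (C a : MvPolynomial ι ℝ))) • g' i) = 0 := by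
      simp
    rw [h2]
    exact hasFDerivAt_const a x
  | add p q hp hq =>
    have h1 : (fun y => eval (fun i => g i y) (p + q)) = fun y =>
        eval (fun i => g i y) p + eval (fun i => g i y) q := by
      funext y
      simp
    rw [h1]
    have h2 : (∑ i, (eval (fun i => g i x) (pderiv i (p + q))) • g' i) =
        (∑ i, (eval (fun i => g i x) (pderiv i p)) • g' i) +
        (∑ i, (eval (fun i => g i x) (pderiv i q)) • g' i) := by
      rw [← Finset.sum_add_distrib]
      refine Finset.sum_congr rfl fun j _ => ?_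
      rw [map_add, map_add, add_smul]
    rw [h2]
    exact hp.add hq
  | mul_X p i hp =>
    have h1 : (fun y => eval (fun i => g i y) (p * X i)) = fun y =>
        eval (fun i => g i y) p * g i y := by
      funext y
      simp
    rw [h1]
    have h4 := hp.mul (hg i)
    have h6 : (∑ j, (eval (fun i => g i x) (pderiv j (p * X i))) • g' j) =
        eval (fun i => g i x) p • g' i +
        g i x • (∑ j, (eval (fun i => g i x) (pderiv j p)) • g' j) := by
      rw [Finset.smul_sum]
      have h5 : ∀ j : ι, (eval (fun i => g i x) (pderiv j (p * X i))) • g' j =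
          (if j = i then eval (fun i => g i x) p • g' j else 0) +
            g i x • (eval (fun i => g i x) (pderiv j p)) • g' j := by
        intro j
        rw [Derivation.leibniz, pderiv_X, map_add, smul_eq_mul, smul_eq_mul, map_mul, map_mul,
          eval_X]
        by_cases hj : j = i
        · subst hj
          rw [Pi.single_eq_same, map_one, mul_one, if_pos rfl, add_smul, mul_smul]
        · have hj' : i ≠ j := fun h => hj h.symm
          rw [Pi.single_eq_of_ne hj', map_zero, mul_zero, if_neg hj, zero_add, zero_add, mul_smul]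
      rw [Finset.sum_congr rfl fun j _ => h5 j, Finset.sum_add_distrib]
      congr 1
      rw [Finset.sum_ite_eq' univ i, if_pos (mem_univ i)]
    rw [h6]
    exact h4

theorem hasFDerivAt_mono {E : Type} [NormedAddCommGroup E] [NormedSpace ℝ E] {l : ℕ} {α : ℕ → ℕ}
    {f : ℕ → E → ℝ} {f' : ℕ → E →L[ℝ] ℝ} {x : E} (hf : ∀ j < l, HasFDerivAt (f j) (f' j) x)
    (h0 : ∀ j < l, α j ≠ 0 → f j x ≠ 0) :
    HasFDerivAt (fun y => ∏ j ∈ range l, f j y ^ α j)
      ((∏ j ∈ range l, f j x ^ α j) • ∑ j ∈ range l, ((α j : ℝ) * (f j x)⁻¹) • f' j) x := by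
  induction l with
  | zero => simpa using hasFDerivAt_const (1 : ℝ) x
  | succ l ih =>
    have h1 := ih (fun j hj => hf j (by omega)) fun j hj => h0 j (by omega)
    have h2 := (hf l (by omega)).pow (α l)
    have h3 := h1.mul h2
    have h4 : (fun y => ∏ j ∈ range (l + 1), f j y ^ α j) = fun y =>
        (∏ j ∈ range l, f j y ^ α j) * f l y ^ α l := by
      funext y
      rw [prod_range_succ]
    rw [h4]
    refine h3.congr_fderiv ?_
    ext v
    simp only [prod_range_succ, sum_range_succ, FunLike.coe_add, FunLike.coe_smul, Pi.add_apply,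
      Pi.smul_apply, smul_eq_mul]
    by_cases ha : α l = 0
    · rw [ha]
      simp
    · have h5 := h0 l (by omega) ha
      obtain ⟨n, hn⟩ : ∃ n, α l = n + 1 := ⟨α l - 1, by omega⟩
      rw [hn]
      simp only [Nat.add_sub_cancel, Nat.cast_add, Nat.cast_one]
      rw [pow_succ]
      field_simp
      ring

end Pool.Agent.Lib.MP_641cb6_lc.KN
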