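import Pool.Agent.Lib.MP_641cb6_lc.KN.LockDefs
import Pool.Agent.Lib.MP_641cb6_lc.KG.Sim

/-!
# LOCK: points with the same signature share the whole cell (helper59)
-/

set_option autoImplicit false

namespace Pool.Agent.Lib.MP_641cb6_lc.KN

open Pool.Agent.Lib.MP_641cb6_lc.KG

/-- the tests of the trees -/
abbrev nn : ℝ → Prop := fun v : ℝ => 0 ≤ v

/-- The sign of a value depends on the signs of the atoms. -/
theorem sign_tpol {n' : ℕ} (S : SSt ℝ n') (i : ℕ) (x y : (Fin n' → ℝ) × ℝ)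
    (h : ∀ l < n' + 1 + S.atoms.length, SignType.sign (S.ev y l) = SignType.sign (S.ev x l)) :
    SignType.sign (pf (S.tpol i) y) = SignType.sign (pf (S.tpol i) x) := by
  rw [pf_tpol, pf_tpol, sign_mul, sign_mul]
  congr 1
  rw [sign_prod, sign_prod]
  refine Finset.prod_congr rfl fun l hl => ?_
  rw [sign_pow, sign_pow, h l (Finset.mem_range.1 hl)]

/-- Runs with the same signs of the atoms have the same outcomes. -/
theorem lockstep {n' : ℕ} (V : GTree ℝ) (x y : (Fin n' → ℝ) × ℝ) (t : ℕ)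
    (h : ∀ τ < t, (V.run nn y τ).hist = (V.run nn x τ).hist →
      ∀ l < n' + 1 + (sym n' V (V.run nn x τ).hist).atoms.length,
        SignType.sign ((sym n' V (V.run nn x τ).hist).ev y l) =
          SignType.sign ((sym n' V (V.run nn x τ).hist).ev x l)) :
    ∀ τ ≤ t, (V.run nn y τ).hist = (V.run nn x τ).hist := by
  classical
  intro τ
  induction τ with
  | zero => intro _; rfl
  | succ τ ih =>
    intro hτ
    have ih' := ih (by omega)
    have hs := h τ (by omega) ih'
    have hval : ∀ i, SignType.sign ((V.run nn y τ).val i) = SignType.sign ((V.run nn x τ).val i) := by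
      intro i
      rw [sign_val, sign_val, ih']
      exact sign_tpol _ i x y hs
    have h0 : ∀ i, (V.run nn y τ).val i = 0 ↔ (V.run nn x τ).val i = 0 := by
      intro i
      rw [← sign_eq_zero_iff, hval i, sign_eq_zero_iff]
    have h1 : ∀ i, nn ((V.run nn y τ).val i) ↔ nn ((V.run nn x τ).val i) := by
      intro i
      show 0 ≤ (V.run nn y τ).val i ↔ 0 ≤ (V.run nn x τ).val i
      rw [← sign_nonneg_iff, hval i, sign_nonneg_iff]
    have e1 : V.run nn y (τ + 1) = V.step nn (V.run nn y τ) := rfl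
    have e2 : V.run nn x (τ + 1) = V.step nn (V.run nn x τ) := rfl
    rw [e1, e2]
    unfold GTree.step
    rw [ih']
    rcases hT : V (V.run nn x τ).hist with c | ⟨i, j⟩ | ⟨i, j⟩ | ⟨r, F, i⟩ | i | b
    · simp
    · simp
    · simp only [List.cons.injEq, and_true]
      rw [decide_eq_decide]
      exact h0 j
    · simp
    · simp only [List.cons.injEq, and_true]
      rw [decide_eq_decide]
      exact h1 i
    · exact ih'

/-- The atoms of a run at an earlier time are those at a later time. -/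
theorem ev_later {n' : ℕ} (V : GTree ℝ) (x : (Fin n' → ℝ) × ℝ) (z : (Fin n' → ℝ) × ℝ) {τ t : ℕ}
    (hτ : τ ≤ t) (l : ℕ) (hl : l < n' + 1 + (sym n' V (V.run nn x τ).hist).atoms.length) :
    (sym n' V (V.run nn x t).hist).ev z l = (sym n' V (V.run nn x τ).hist).ev z l := by
  obtain ⟨j, rfl⟩ : ∃ j, t = τ + j := ⟨t - τ, by omega⟩
  obtain ⟨h', hh⟩ := hist_suffix nn V x τ j
  unfold SSt.ev
  rw [hh, sym_atom V _ h' l hl]

theorem atoms_mono {n' : ℕ} (V : GTree ℝ) (x : (Fin n' → ℝ) × ℝ) {τ t : ℕ} (hτ : τ ≤ t) :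
    (sym n' V (V.run nn x τ).hist).atoms.length ≤ (sym n' V (V.run nn x t).hist).atoms.length := by
  obtain ⟨j, rfl⟩ : ∃ j, t = τ + j := ⟨t - τ, by omega⟩
  obtain ⟨h', hh⟩ := hist_suffix nn V x τ j
  rw [hh]
  exact (sym_prefix V _ h').length_le

/-- the functions of the atoms after the history `h` -/
noncomputable def fh {n k : ℕ} (V : GTree ℝ) (a0 : Fin n → ℝ) (h : List Bool) (l : ℕ)
    (z : Fin (k + 1) → ℝ) : ℝ := (sym (n + k) V h).ev (inp a0 z) l

theorem fh_const {n k : ℕ} (V : GTree ℝ) (a0 : Fin n → ℝ) (h : List Bool) {l : ℕ} (hl : l < n)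
    (z : Fin (k + 1) → ℝ) : fh V a0 h l z = a0 ⟨l, hl⟩ := by
  unfold fh
  rw [ev_lt _ _ (show l < n + k by omega)]
  have e : (⟨l, by omega⟩ : Fin (n + k)) = Fin.castAdd k ⟨l, hl⟩ := rfl
  unfold inp
  simp only
  rw [e, Fin.append_left]

theorem fh_coord {n k : ℕ} (V : GTree ℝ) (a0 : Fin n → ℝ) (h : List Bool) {l : ℕ} (hl : l < k)
    (z : Fin (k + 1) → ℝ) : fh V a0 h (n + l) z = z (Fin.castSucc ⟨l, hl⟩) := by
  unfold fh
  rw [ev_lt _ _ (show n + l < n + k by omega)]
  have e : (⟨n + l, by omega⟩ : Fin (n + k)) = Fin.natAdd n ⟨l, hl⟩ := rfl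
  unfold inp
  simp only
  rw [e, Fin.append_right]

theorem fh_last {n k : ℕ} (V : GTree ℝ) (a0 : Fin n → ℝ) (h : List Bool)
    (z : Fin (k + 1) → ℝ) : fh V a0 h (n + k) z = z (Fin.last k) := by
  unfold fh
  rw [ev_eq]
  rfl

theorem fh_beyond {n k : ℕ} (V : GTree ℝ) (a0 : Fin n → ℝ) (h : List Bool) {l : ℕ}
    (hl : n + k + 1 + (sym (n + k) V h).atoms.length ≤ l) (z : Fin (k + 1) → ℝ) :
    fh V a0 h l z = 1 := by
  unfold fh SSt.ev SSt.atom
  rw [dif_neg (by omega), if_neg (by omega), List.getD_eq_default _ _ (by omega)]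
  simp [pf]

theorem fh_isNG {n k a D : ℕ} {V : GTree ℝ} (hV : V.Bounded a D) (a0 : Fin n → ℝ)
    (h : List Bool) (L : ℕ) : IsNG (fh (k := k) V a0 h) (a + 1) D L := by
  intro l _
  rcases Nat.lt_or_ge l n with h1 | h1
  · exact Or.inl ⟨a0 ⟨l, h1⟩, fun z => fh_const V a0 h h1 z⟩
  rcases Nat.lt_or_ge l (n + k) with h2 | h2
  · obtain ⟨i, rfl⟩ : ∃ i, l = n + i := ⟨l - n, by omega⟩
    exact Or.inr (Or.inl ⟨Fin.castSucc ⟨i, by omega⟩, fun z => fh_coord V a0 h (by omega) z⟩)
  rcases h2.eq_or_lt with h3 | h3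
  · subst h3
    exact Or.inr (Or.inl ⟨Fin.last k, fun z => fh_last V a0 h z⟩)
  rcases Nat.lt_or_ge l (n + k + 1 + (sym (n + k) V h).atoms.length) with h4 | h4
  · obtain ⟨j, rfl⟩ : ∃ j, l = n + k + 1 + j := ⟨l - (n + k + 1), by omega⟩
    obtain ⟨F, α, hF, he, -⟩ := (rel (n + k) hV h).chn j (by omega)
    refine Or.inr (Or.inr ⟨F, α, hF, fun z => ?_⟩)
    unfold fh SSt.ev
    rw [he, pf_eval₂]
    have e : (fun i => pf (∏ j ∈ Finset.range (n + k + 1 + j), (sym (n + k) V h).atom j ^ α i j)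
        (inp a0 z)) = fun i => ∏ j ∈ Finset.range (n + k + 1 + j),
          pf ((sym (n + k) V h).atom j) (inp a0 z) ^ α i j := by
      funext i
      simp only [← pfHom_apply, map_prod, map_pow]
    rw [e]
  · exact Or.inl ⟨1, fun z => fh_beyond V a0 h h4 z⟩

/-- the signature -/
noncomputable def sg {n k : ℕ} (V : GTree ℝ) (a0 : Fin n → ℝ) (t s : ℕ) (z : Fin (k + 1) → ℝ) :
    Fin (k + 1 + s) → SignType :=
  fun i => SignType.sign (fh V a0 (V.run nn (inp a0 z) t).hist (n + i) z)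

/-- Points with the same signature have the same history. -/
theorem hist_eq {n k s t : ℕ} (V : GTree ℝ) (a0 : Fin n → ℝ) (z w : Fin (k + 1) → ℝ)
    (hs : gates nn V (inp a0 z) t ≤ s)
    (hsg : sg V a0 t s w = sg V a0 t s z) :
    ∀ τ ≤ t, (V.run nn (inp a0 w) τ).hist = (V.run nn (inp a0 z) τ).hist := by
  refine lockstep V (inp a0 z) (inp a0 w) t fun τ hτ he l hl => ?_
  rw [← ev_later V (inp a0 z) (inp a0 z) hτ.le l hl]
  have hl' : l < n + k + 1 + (sym (n + k) V (V.run nn (inp a0 w) τ).hist).atoms.length := by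
    rwa [he]
  have e1 : (sym (n + k) V (V.run nn (inp a0 z) τ).hist).ev (inp a0 w) l =
      (sym (n + k) V (V.run nn (inp a0 w) t).hist).ev (inp a0 w) l := by
    rw [ev_later V (inp a0 w) (inp a0 w) hτ.le l hl', he]
  rw [e1]
  rcases Nat.lt_or_ge l n with h1 | h1
  · have e2 := fh_const V a0 (V.run nn (inp a0 w) t).hist h1 w
    have e3 := fh_const V a0 (V.run nn (inp a0 z) t).hist h1 z
    unfold fh at e2 e3
    rw [e2, e3]
  · have h2 : (sym (n + k) V (V.run nn (inp a0 z) τ).hist).atoms.length ≤ s := by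
      refine (atoms_mono V (inp a0 z) hτ.le).trans ?_
      rw [atoms_length]
      exact hs
    obtain ⟨i, rfl⟩ : ∃ i, l = n + i := ⟨l - n, by omega⟩
    have h3 := congrFun hsg ⟨i, by omega⟩
    exact h3

/-- The whole cell is accepted. -/
theorem cell_accepted {n k s t : ℕ} (V : GTree ℝ) (a0 : Fin n → ℝ) (z w : Fin (k + 1) → ℝ)
    (hs : gates nn V (inp a0 z) t ≤ s) (σ : ℕ → SignType)
    (hz : z ∈ Cell (fh V a0 (V.run nn (inp a0 z) t).hist) σ (n + k + 1 + s))
    (hw : w ∈ Cell (fh V a0 (V.run nn (inp a0 z) t).hist) σ (n + k + 1 + s)) :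
    (V.run nn (inp a0 w) t).hist = (V.run nn (inp a0 z) t).hist := by
  refine lockstep V (inp a0 z) (inp a0 w) t (fun τ hτ he l hl => ?_) t le_rfl
  rw [← ev_later V (inp a0 z) (inp a0 z) hτ.le l hl, ← ev_later V (inp a0 z) (inp a0 w) hτ.le l hl]
  have h2 : (sym (n + k) V (V.run nn (inp a0 z) τ).hist).atoms.length ≤ s := by
    refine (atoms_mono V (inp a0 z) hτ.le).trans ?_
    rw [atoms_length]
    exact hs
  have h3 := hz l (by omega)
  have h4 := hw l (by omega)
  unfold fh at h3 h4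
  rw [h3, h4]

theorem lock (hcell : CellBound) {n k a D M s t : ℕ} {V : GTree ℝ} (hV : V.Bounded a D)
    (a0 : Fin n → ℝ) (p : Fin M → Fin (k + 1) → ℝ)
    (hans : ∀ j, V (V.run (fun v : ℝ => 0 ≤ v) (inp a0 (p j)) t).hist = .answer true)
    (hs : ∀ j, gates (fun v : ℝ => 0 ≤ v) V (inp a0 (p j)) t ≤ s)
    (hsep : Sep {z | ∃ t, V (V.run (fun v : ℝ => 0 ≤ v) (inp a0 z) t).hist = .answer true} p) :
    M ≤ 3 ^ (k + 1 + s) * NB (k + 1) (a + 1) D (n + k + 1 + s) := by
  classical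
  have hfib : ∀ g ∈ (Finset.univ : Finset (Fin M)).image (fun j => sg V a0 t s (p j)),
      ((Finset.univ : Finset (Fin M)).filter fun j => sg V a0 t s (p j) = g).card ≤
        NB (k + 1) (a + 1) D (n + k + 1 + s) := by
    intro g hg
    obtain ⟨j₀, -, hj₀⟩ := Finset.mem_image.1 hg
    set I := (Finset.univ : Finset (Fin M)).filter fun j => sg V a0 t s (p j) = g with hI
    set h := (V.run nn (inp a0 (p j₀)) t).hist with hh
    set σ : ℕ → SignType := fun l => SignType.sign (fh V a0 h l (p j₀)) with hσ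
    set e : Fin I.card ≃o I := I.orderIsoOfFin rfl with he
    have hsg : ∀ i : Fin I.card, sg V a0 t s (p (e i)) = sg V a0 t s (p j₀) := fun i => by
      rw [hj₀]
      exact (Finset.mem_filter.1 (e i).2).2
    have hhist : ∀ i : Fin I.card, (V.run nn (inp a0 (p (e i))) t).hist = h := fun i =>
      hist_eq V a0 (p j₀) (p (e i)) (hs j₀) (hsg i) t le_rfl
    have hat : (sym (n + k) V h).atoms.length ≤ s := by
      rw [hh, atoms_length]
      exact hs j₀
    have hmem : ∀ i : Fin I.card, p (e i) ∈ Cell (fh V a0 h) σ (n + k + 1 + s) := by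
      intro i l hl
      rcases Nat.lt_or_ge l n with h1 | h1
      · rw [hσ]
        simp only
        rw [fh_const V a0 h h1, fh_const V a0 h h1]
      · obtain ⟨l, rfl⟩ : ∃ l', l = n + l' := ⟨l - n, by omega⟩
        have h2 := congrFun (hsg i) ⟨l, by omega⟩
        unfold sg at h2
        rw [hhist i] at h2
        exact h2
    have hz : p j₀ ∈ Cell (fh V a0 h) σ (n + k + 1 + s) := fun l _ => rfl
    refine hcell (k + 1) I.card (fh V a0 h) (a + 1) D (n + k + 1 + s) σ (fun i => p (e i))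
      (fh_isNG hV a0 h _) hmem ?_
    intro i j hij C hC hconn hi hj
    refine hsep (e i) (e j) (fun h0 => hij ?_) C (fun w hw => ?_) hconn hi hj
    · exact e.injective (Subtype.ext h0)
    · refine ⟨t, ?_⟩
      have h1 := cell_accepted V a0 (p j₀) w (hs j₀) σ hz (hC hw)
      rw [h1]
      exact hans j₀
  have h1 := Finset.card_le_mul_card_image (f := fun j => sg V a0 t s (p j))
    (Finset.univ : Finset (Fin M)) _ hfib
  rw [Finset.card_univ, Fintype.card_fin] at h1
  have h2 : ((Finset.univ : Finset (Fin M)).image fun j => sg V a0 t s (p j)).card ≤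
      3 ^ (k + 1 + s) := by
    refine (Finset.card_le_univ _).trans ?_
    rw [Fintype.card_fun, Fintype.card_fin]
    exact le_of_eq (by rfl)
  calc M ≤ NB (k + 1) (a + 1) D (n + k + 1 + s) *
        ((Finset.univ : Finset (Fin M)).image fun j => sg V a0 t s (p j)).card := h1
    _ ≤ NB (k + 1) (a + 1) D (n + k + 1 + s) * 3 ^ (k + 1 + s) := Nat.mul_le_mul_left _ h2
    _ = _ := Nat.mul_comm _ _

end Pool.Agent.Lib.MP_641cb6_lc.KN
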