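import Pool.Agent.Lib.MP_641cb6_lc.KN.LockDefs
import Pool.Agent.Lib.MP_641cb6_lc.Real

/-!
# The complement of `SumSet n m` is not accepted with few guesses and few gates (row N6)
-/

set_option autoImplicit false

namespace Pool.Agent.Lib.MP_641cb6_lc.KN

open Pool.Agent.Lib.MP_641cb6_lc.KG (GTree SSt sym gates)

/-- the preimages of a point under `t ↦ 2 t ^ 2 - 1` are finitely many -/
theorem dbl_fibre_finite (c : ℝ) : (dbl ⁻¹' {c}).Finite := by
  by_cases h : ∃ y, dbl y = c
  · obtain ⟨y, hy⟩ := h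
    refine ((Set.finite_singleton (-y)).insert y).subset ?_
    intro x hx
    have hx' : dbl x = c := hx
    have h1 : (x - y) * (x + y) = 0 := by
      unfold dbl at hx' hy
      nlinarith
    rcases mul_eq_zero.1 h1 with h2 | h2
    · exact Or.inl (by linarith)
    · exact Or.inr (by
        show x = -y
        linarith)
  · refine Set.Finite.subset Set.finite_empty ?_
    intro x hx
    exact h ⟨x, hx⟩

theorem iter_fibre_finite (m : ℕ) (c : ℝ) : {y : ℝ | dbl^[m] y = c}.Finite := by
  induction m with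
  | zero =>
    refine (Set.finite_singleton c).subset ?_
    intro y hy
    exact hy
  | succ m ih =>
    have h1 : {y : ℝ | dbl^[m + 1] y = c} = dbl ⁻¹' {y : ℝ | dbl^[m] y = c} := by
      ext y
      simp only [Set.mem_ofPred_eq, Set.mem_preimage, Function.iterate_succ_apply]
    rw [h1]
    exact ih.preimage' fun b _ => dbl_fibre_finite b

/-- a point for which the `2 ^ (m * n)` sums are distinct -/
theorem distinct_sums (n m : ℕ) : ∃ t : Fin n → ℝ,
    Function.Injective fun k : Fin n → Fin (2 ^ m) => ∑ i, Real.cos (t i + sh m (k i)) := by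
  let V : (Fin n → Fin (2 ^ m)) × (Fin n → Fin (2 ^ m)) → Set (Fin n → ℝ) := fun p =>
    if p.1 = p.2 then Set.univ else
      {t | ∑ i, (Real.cos (t i + sh m (p.1 i)) - Real.cos (t i + sh m (p.2 i))) ≠ 0}
  have hVo : ∀ p, IsOpen (V p) := by
    intro p
    simp only [V]
    split_ifs
    · exact isOpen_univ
    · exact isOpen_ne_fun (by fun_prop) continuous_const
  have hVd : ∀ p, Dense (V p) := by
    intro p
    simp only [V]
    split_ifs with hp
    · exact dense_univ
    · refine dense_ne_zero ?_ ?_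
      · intro t _
        refine Finset.analyticAt_fun_sum _ fun i _ => ?_
        have e1 := cos_analytic i 1 (sh m (p.1 i)) t
        have e2 := cos_analytic i 1 (sh m (p.2 i)) t
        simp only [one_mul] at e1 e2
        exact e1.sub e2
      · obtain ⟨i, hi⟩ := Function.ne_iff.1 hp
        by_contra hcon
        push Not at hcon
        have e1 := hcon fun j => if j = i then -sh m (p.2 i) else 0
        have e2 := hcon fun j => if j = i then -sh m (p.2 i) + Real.pi else 0
        rw [← Finset.add_sum_erase _ _ (Finset.mem_univ i)] at e1 e2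
        have e3 : ∀ c : ℝ, ∑ j ∈ Finset.univ.erase i,
            (Real.cos ((if j = i then c else 0) + sh m (p.1 j)) -
              Real.cos ((if j = i then c else 0) + sh m (p.2 j))) =
            ∑ j ∈ Finset.univ.erase i, (Real.cos (0 + sh m (p.1 j)) -
              Real.cos (0 + sh m (p.2 j))) := by
          intro c
          refine Finset.sum_congr rfl fun j hj => ?_
          rw [if_neg (Finset.ne_of_mem_erase hj)]
        rw [e3] at e1 e2
        simp only [if_true] at e1 e2
        have e4 : -sh m (p.2 i) + Real.pi + sh m (p.1 i) =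
            (sh m (p.1 i) - sh m (p.2 i)) + Real.pi := by ring
        have e5 : -sh m (p.2 i) + Real.pi + sh m (p.2 i) = 0 + Real.pi := by ring
        have e6 : -sh m (p.2 i) + sh m (p.1 i) = sh m (p.1 i) - sh m (p.2 i) := by ring
        have e7 : -sh m (p.2 i) + sh m (p.2 i) = 0 := by ring
        rw [e4, e5, Real.cos_add_pi, Real.cos_add_pi, Real.cos_zero] at e2
        rw [e6, e7, Real.cos_zero] at e1
        exact sh_ne hi (by linarith)
  obtain ⟨t, _, htV⟩ := (dense_iInter_of_isOpen hVo hVd).inter_open_nonempty _ isOpen_univ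
    Set.univ_nonempty
  rw [Set.mem_iInter] at htV
  refine ⟨t, ?_⟩
  intro k l h
  by_contra hne
  have h3 := htV (k, l)
  simp only [V, hne, if_false] at h3
  apply h3
  simp only at h
  rw [Finset.sum_sub_distrib, h, sub_self]

/-- a fibre of `SumSet n m` with at least `2 ^ (m * n)` points -/
theorem family (n m : ℕ) : ∃ (a : Fin n → ℝ) (B : Finset ℝ), 2 ^ (m * n) ≤ B.card ∧
    ∀ b, (a, b) ∈ SumSet n m ↔ b ∈ B := by
  classical
  obtain ⟨t, ht⟩ := distinct_sums n m
  let a : Fin n → ℝ := fun i => Real.cos (2 ^ m * t i)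
  have hfin : {b : ℝ | (a, b) ∈ SumSet n m}.Finite := by
    have h1 : (Set.pi Set.univ fun i : Fin n => {y : ℝ | dbl^[m] y = a i}).Finite :=
      Set.Finite.pi fun i => iter_fibre_finite m (a i)
    refine (h1.image fun y : Fin n → ℝ => ∑ i, y i).subset ?_
    rintro b ⟨y, hy, hb⟩
    exact ⟨y, fun i _ => hy i, hb.symm⟩
  refine ⟨a, hfin.toFinset, ?_, fun b => ?_⟩
  · have h2 : (Finset.univ : Finset (Fin n → Fin (2 ^ m))).card = 2 ^ (m * n) := by
      rw [Finset.card_univ]
      simp [pow_mul]
    rw [← h2, ← Finset.card_image_of_injective _ ht]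
    refine Finset.card_le_card ?_
    intro b hb
    obtain ⟨k, _, rfl⟩ := Finset.mem_image.1 hb
    rw [Set.Finite.mem_toFinset]
    refine ⟨fun i => Real.cos (t i + sh m (k i)), fun i => ?_, rfl⟩
    rw [dbl_iter_cos]
    exact cos_sh m (k i) (t i)
  · rw [Set.Finite.mem_toFinset]
    rfl

/-- one point in each of the intervals of the complement of a finite set -/
theorem gap_points (B : Finset ℝ) : ∀ u : ℝ, (∀ c ∈ B, c < u) → ∃ b : ℕ → ℝ,
    (∀ j ≤ B.card, b j < u ∧ b j ∉ B) ∧
    ∀ i j, i < j → j ≤ B.card → ∃ c ∈ B, b i < c ∧ c < b j := by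
  classical
  induction B using Finset.induction_on_max with
  | empty =>
    intro u _
    refine ⟨fun _ => u - 1, fun j _ => ⟨by simp, by simp⟩, fun i j hij hj => ?_⟩
    simp at hj
    omega
  | insert c B hc ih =>
    intro u hu
    obtain ⟨b, hb1, hb2⟩ := ih c hc
    have hcB : c ∉ B := fun h => lt_irrefl c (hc c h)
    have hcu : c < u := hu c (Finset.mem_insert_self _ _)
    rw [Finset.card_insert_of_notMem hcB]
    refine ⟨fun j => if j ≤ B.card then b j else (c + u) / 2, ?_, ?_⟩
    · intro j _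
      simp only
      split_ifs with h
      · obtain ⟨h1, h2⟩ := hb1 j h
        refine ⟨h1.trans hcu, ?_⟩
        rw [Finset.mem_insert]
        rintro (h3 | h3)
        · exact absurd h3 h1.ne
        · exact h2 h3
      · refine ⟨by linarith, ?_⟩
        rw [Finset.mem_insert]
        rintro (h3 | h3)
        · linarith
        · have := hc _ h3
          linarith
    · intro i j hij hj
      simp only
      have hi : i ≤ B.card := by omega
      rw [if_pos hi]
      split_ifs with h
      · obtain ⟨e, he, h1, h2⟩ := hb2 i j hij h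
        exact ⟨e, Finset.mem_insert_of_mem he, h1, h2⟩
      · exact ⟨c, Finset.mem_insert_self _ _, (hb1 i hi).1, by linarith⟩

/-- the statement of the row LOCK -/
def LockStatement : Prop :=
  ∀ {n k a D M s t : ℕ} {V : GTree ℝ}, V.Bounded a D → ∀ (a0 : Fin n → ℝ)
    (p : Fin M → Fin (k + 1) → ℝ),
    (∀ j, V (V.run (fun v : ℝ => 0 ≤ v) (inp a0 (p j)) t).hist = .answer true) →
    (∀ j, gates (fun v : ℝ => 0 ≤ v) V (inp a0 (p j)) t ≤ s) →
    Sep {z | ∃ t, V (V.run (fun v : ℝ => 0 ≤ v) (inp a0 z) t).hist = .answer true} p →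
    M ≤ 3 ^ (k + 1 + s) * NB (k + 1) (a + 1) D (n + k + 1 + s)

theorem guess_lower (lock : LockStatement) {n m k a D : ℕ} {V : GTree ℝ} (hV : V.Bounded a D)
    (h : Guesses (fun v : ℝ => 0 ≤ v) V k (SumSet n m)ᶜ) :
    ∃ (x : (Fin n → ℝ) × ℝ) (y : Fin k → ℝ) (t : ℕ),
      V (V.run (fun v : ℝ => 0 ≤ v) (Fin.append x.1 y, x.2) t).hist = .answer true ∧
      2 ^ (m * n) < 3 ^ (k + 1 + gates (fun v : ℝ => 0 ≤ v) V (Fin.append x.1 y, x.2) t) *
        NB (k + 1) (a + 1) D
          (n + k + 1 + gates (fun v : ℝ => 0 ≤ v) V (Fin.append x.1 y, x.2) t) := by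
  classical
  obtain ⟨a0, B, hcard, hB⟩ := family n m
  obtain ⟨b, hb1, hb2⟩ := gap_points B ((∑ c ∈ B, |c|) + 1) (by
    intro c hc
    have h1 : |c| ≤ ∑ c ∈ B, |c| :=
      Finset.single_le_sum (f := fun c : ℝ => |c|) (fun i _ => abs_nonneg i) hc
    have h2 := le_abs_self c
    linarith)
  -- the guesses for the points `b j`
  have hacc : ∀ j : Fin (B.card + 1), ∃ (y : Fin k → ℝ) (t : ℕ),
      V (V.run (fun v : ℝ => 0 ≤ v) (Fin.append a0 y, b j) t).hist = .answer true := by
    intro j
    have h1 : ((a0, b j) : (Fin n → ℝ) × ℝ) ∈ (SumSet n m)ᶜ := fun h2 =>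
      (hb1 j (by omega)).2 ((hB _).1 h2)
    exact (h (a0, b j)).1 h1
  choose y t ht using hacc
  let T : ℕ := Finset.univ.sup t
  let p : Fin (B.card + 1) → Fin (k + 1) → ℝ := fun j => Fin.snoc (y j) (b j)
  have hinp : ∀ j, inp a0 (p j) = (Fin.append a0 (y j), b j) := by
    intro j
    unfold inp
    simp only [p, Fin.snoc_castSucc, Fin.snoc_last]
  have hT : ∀ j, V (V.run (fun v : ℝ => 0 ≤ v) (inp a0 (p j)) T).hist = .answer true := by
    intro j
    rw [hinp]
    have h1 : t j ≤ T := Finset.le_sup (f := t) (Finset.mem_univ j)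
    obtain ⟨e, he⟩ := Nat.exists_eq_add_of_le h1
    rw [he, KG.Diff.run_stable _ _ _ (ht j)]
    exact ht j
  let g : Fin (B.card + 1) → ℕ := fun j => gates (fun v : ℝ => 0 ≤ v) V (inp a0 (p j)) T
  obtain ⟨j0, _, hj0⟩ := Finset.exists_max_image Finset.univ g ⟨0, Finset.mem_univ _⟩
  have hsep : Sep {z | ∃ t, V (V.run (fun v : ℝ => 0 ≤ v) (inp a0 z) t).hist = .answer true} p := by
    have key : ∀ i j : Fin (B.card + 1), i < j →
        ∀ C ⊆ {z | ∃ t, V (V.run (fun v : ℝ => 0 ≤ v) (inp a0 z) t).hist = .answer true},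
        IsPreconnected C → p i ∈ C → p j ∉ C := by
      intro i j hij C hC hpre hi hj
      obtain ⟨c, hc, h1, h2⟩ := hb2 i j hij (by omega)
      have h3 : IsPreconnected ((fun z : Fin (k + 1) → ℝ => z (Fin.last k)) '' C) :=
        hpre.image _ (continuous_apply _).continuousOn
      have h4 : c ∈ (fun z : Fin (k + 1) → ℝ => z (Fin.last k)) '' C := by
        refine h3.Icc_subset ⟨p i, hi, rfl⟩ ⟨p j, hj, rfl⟩ ?_
        simp only [p, Fin.snoc_last]
        exact ⟨h1.le, h2.le⟩
      obtain ⟨z, hz, hzc⟩ := h4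
      obtain ⟨t', ht'⟩ := hC hz
      have h5 : ((a0, c) : (Fin n → ℝ) × ℝ) ∈ (SumSet n m)ᶜ := by
        refine (h (a0, c)).2 ⟨fun i => z i.castSucc, t', ?_⟩
        have h6 : inp a0 z = (Fin.append a0 fun i => z i.castSucc, c) := by
          unfold inp
          rw [← hzc]
        rw [← h6]
        exact ht'
      exact h5 ((hB c).2 hc)
    intro i j hne C hC hpre hi hj
    rcases lt_or_gt_of_ne hne with h1 | h1
    · exact key i j h1 C hC hpre hi hj
    · exact key j i h1 C hC hpre hj hi
  have hfin := lock hV a0 p hT (fun j => hj0 j (Finset.mem_univ j)) hsep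
  refine ⟨(a0, b j0), y j0, T, ?_, ?_⟩
  · have h1 := hT j0
    rw [hinp] at h1
    exact h1
  · have h1 : g j0 = gates (fun v : ℝ => 0 ≤ v) V (Fin.append a0 (y j0), b j0) T := by
      simp only [g]
      rw [hinp]
    rw [h1] at hfin
    refine lt_of_le_of_lt hcard (lt_of_lt_of_le ?_ hfin)
    exact Nat.lt_succ_self _

end Pool.Agent.Lib.MP_641cb6_lc.KN
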