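import Pool.Agent.Lib.MP_641cb6_lc.KN.Defs

/-!
# Numerics (row N8)
-/

set_option autoImplicit false

namespace Pool.Agent.Lib.MP_641cb6_lc.KN

theorem sq_le_two_pow {n : ℕ} (hn : 4 ≤ n) : n ^ 2 ≤ 2 ^ n := by
  induction n, hn using Nat.le_induction with
  | base => norm_num
  | succ n hn ih =>
    rw [pow_succ 2 n]
    nlinarith

theorem four_mul_le_two_pow {x : ℕ} (hx : 4 ≤ x) : 4 * x ≤ 2 ^ x := by
  have := sq_le_two_pow hx
  nlinarith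

/-- The bound in terms of bounds for the exponents. -/
theorem bound_of {k s K q d L N w₁ w₂ : ℕ} (hN : K + (L * (q + 4) + 2) ≤ N)
    (h₁ : (d + 3) * (L + 1) + 2 ≤ 2 ^ w₁) (h₂ : 2 * N + 4 ≤ 2 ^ w₂) {E : ℕ}
    (hE : 2 * (k + 1 + s) + w₁ * N + w₂ * (N + 1) ^ 2 < E) :
    3 ^ (k + 1 + s) * NB K q d L < 2 ^ E := by
  have h3 : 3 ^ (k + 1 + s) ≤ 2 ^ (2 * (k + 1 + s)) := by
    rw [pow_mul]
    exact Nat.pow_le_pow_left (by norm_num) _
  have h4 : ((d + 3) * (L + 1) + 2) ^ (K + (L * (q + 4) + 2)) ≤ 2 ^ (w₁ * N) := by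
    rw [pow_mul]
    exact (Nat.pow_le_pow_left h₁ _).trans (Nat.pow_le_pow_right (by positivity) hN)
  have h5 : (2 * (K + (L * (q + 4) + 2)) + 4) ^ (K + (L * (q + 4) + 2) + 1) ^ 2 ≤
      2 ^ (w₂ * (N + 1) ^ 2) := by
    rw [pow_mul]
    refine (Nat.pow_le_pow_left (le_trans (by omega) h₂) _).trans
      (Nat.pow_le_pow_right (by positivity) (Nat.pow_le_pow_left (by omega) 2))
  calc 3 ^ (k + 1 + s) * NB K q d L
      ≤ 2 ^ (2 * (k + 1 + s)) * (2 ^ (w₁ * N) * 2 ^ (w₂ * (N + 1) ^ 2)) :=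
        Nat.mul_le_mul h3 (Nat.mul_le_mul h4 h5)
    _ = 2 ^ (2 * (k + 1 + s) + w₁ * N + w₂ * (N + 1) ^ 2) := by
        rw [← pow_add, ← pow_add]
        congr 1
        ring
    _ < 2 ^ E := Nat.pow_lt_pow_right (by norm_num) hE

/-- **Row N8**, the exponent for `c` at least `1`, strict. -/
theorem num_pos_lt {c n k s : ℕ} (hc : 1 ≤ c) (hn : c + 6 ≤ n) (hk : k ≤ n ^ c) (hs : s ≤ n ^ c) :
    3 ^ (k + 1 + s) * NB (k + 1) (n ^ c + 1) (2 ^ n ^ c) (n + k + 1 + s) <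
      2 ^ (n ^ (4 * c + 3) * n) := by
  have hnx : n ≤ n ^ c := by
    calc n = n ^ 1 := (pow_one n).symm
      _ ≤ n ^ c := Nat.pow_le_pow_right (by omega) hc
  have hexp : n ^ (4 * c + 3) * n = n ^ 4 * (n ^ c) ^ 4 := by
    rw [← pow_succ, ← pow_mul, ← pow_add]
    congr 1
    ring
  have hsq : (n ^ c) ^ 2 ≤ 2 ^ (n * c) := by
    rw [← pow_mul, mul_comm c 2, pow_mul, pow_mul]
    exact Nat.pow_le_pow_left (sq_le_two_pow (by omega)) c
  have h7 : 7 ≤ n := by omega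
  have hc' : c ≤ n - 6 := by omega
  have hw : n * c + 4 ≤ n ^ 2 := by
    obtain ⟨t, rfl⟩ : ∃ t, n = c + 6 + t := ⟨n - (c + 6), by omega⟩
    nlinarith
  generalize n ^ c = x at *
  have hx4 := four_mul_le_two_pow (x := x) (by omega)
  refine bound_of (N := 6 * x ^ 2 - 1) (w₁ := 3 * x) (w₂ := n * c + 4) ?_ ?_ ?_ ?_
  · have h1 : (n + k + 1 + s) * (x + 1 + 4) ≤ (3 * x + 1) * (x + 5) :=
      Nat.mul_le_mul (by omega) (by omega)
    have h2 : k + 1 + ((3 * x + 1) * (x + 5) + 2) + 1 ≤ 6 * x ^ 2 := by nlinarith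
    omega
  · have h1 : n + k + 1 + s + 1 ≤ 4 * x := by omega
    have h2 : 2 ^ x + 3 ≤ 2 * 2 ^ x := by omega
    have h3 : (2 ^ x + 3) * (n + k + 1 + s + 1) ≤ (2 * 2 ^ x) * 2 ^ x :=
      Nat.mul_le_mul h2 (h1.trans hx4)
    have h4 : 2 ^ (3 * x) = 2 ^ x * (2 ^ x * 2 ^ x) := by
      rw [show 3 * x = x + (x + x) by ring, pow_add, pow_add]
    rw [h4]
    have h5 : 28 ≤ 2 ^ x := by omega
    nlinarith [Nat.mul_le_mul h5 (le_refl (2 ^ x * 2 ^ x))]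
  · have h1 : 1 ≤ x ^ 2 := Nat.one_le_pow _ _ (by omega)
    rw [pow_add]
    have h2 : 2 ≤ x ^ 2 := by nlinarith
    omega
  · rw [hexp]
    have h1 : 1 ≤ x ^ 2 := Nat.one_le_pow _ _ (by omega)
    have h2 : 6 * x ^ 2 - 1 + 1 = 6 * x ^ 2 := by omega
    rw [h2]
    have h3 : 3 * x * (6 * x ^ 2 - 1) ≤ 3 * x * (6 * x ^ 2) := Nat.mul_le_mul_left _ (by omega)
    have h4 : (n * c + 4) * (6 * x ^ 2) ^ 2 ≤ n ^ 2 * (6 * x ^ 2) ^ 2 :=
      Nat.mul_le_mul_right _ hw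
    have h5 : 2 * (k + 1 + s) ≤ 6 * x := by omega
    have h6 : 6 * x + 3 * x * (6 * x ^ 2) ≤ 3 * x ^ 4 := by
      have h7 : 7 ≤ x := by omega
      have h8 : 6 * x + 18 * x ^ 3 ≤ 3 * x ^ 4 := by
        have h9 : x ^ 4 = x * x ^ 3 := by ring
        have h10 : x ^ 3 = x * x ^ 2 := by ring
        nlinarith [Nat.mul_le_mul h7 (le_refl (x ^ 3)), Nat.mul_le_mul h7 (le_refl (x ^ 2)),
          Nat.mul_le_mul h7 (le_refl x)]
      nlinarith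
    have h7 : 3 * x ^ 4 + n ^ 2 * (6 * x ^ 2) ^ 2 < n ^ 4 * x ^ 4 := by
      have h0 : 0 < x ^ 4 := Nat.pow_pos (by omega)
      have h8 : 3 + 36 * n ^ 2 + 1 ≤ n ^ 4 := by
        have h9 : 49 ≤ n ^ 2 := by nlinarith
        have h10 : n ^ 4 = n ^ 2 * n ^ 2 := by ring
        have h11 := Nat.mul_le_mul h9 (le_refl (n ^ 2))
        rw [h10]
        omega
      nlinarith [Nat.mul_le_mul h8 (le_refl (x ^ 4))]
    omega

/-- **Row N8**, strict. -/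
theorem num_lt {c n k s : ℕ} (hn : c + 6 ≤ n) (hk : k ≤ n ^ c) (hs : s ≤ n ^ c) :
    3 ^ (k + 1 + s) * NB (k + 1) (n ^ c + 1) (2 ^ n ^ c) (n + k + 1 + s) <
      2 ^ (n ^ (4 * c + 5) * n) := by
  rcases Nat.eq_zero_or_pos c with rfl | hc
  · rw [pow_zero] at hk hs ⊢
    have h1 : 5 * n + 22 ≤ 2 ^ n := by
      obtain ⟨t, rfl⟩ : ∃ t, n = t + 6 := ⟨n - 6, by omega⟩
      clear hn hk hs
      induction t with
      | zero => norm_num
      | succ t ih =>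
        rw [show t + 1 + 6 = (t + 6) + 1 by ring, pow_succ]
        omega
    refine bound_of (N := 10 * n - 1) (w₁ := n) (w₂ := n + 2) ?_ ?_ ?_ ?_
    · omega
    · omega
    · rw [pow_add]
      omega
    · have h2 : 10 * n - 1 + 1 = 10 * n := by omega
      have h3 : n * (10 * n - 1) ≤ n * (10 * n) := Nat.mul_le_mul_left _ (by omega)
      have h4 : n ^ (4 * 0 + 5) * n = n ^ 3 * n ^ 3 := by ring
      rw [h2, h4]
      have h5 : 216 * n ^ 3 ≤ n ^ 3 * n ^ 3 := by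
        have h6 : 6 ^ 3 ≤ n ^ 3 := Nat.pow_le_pow_left (by omega) 3
        exact Nat.mul_le_mul_right _ (by omega)
      have h6 : 6 + n * (10 * n) + (n + 2) * (10 * n) ^ 2 < 216 * n ^ 3 := by
        obtain ⟨t, rfl⟩ : ∃ t, n = t + 6 := ⟨n - 6, by omega⟩
        ring_nf
        nlinarith [sq_nonneg t, Nat.zero_le (t ^ 3)]
      omega
  · exact (num_pos_lt hc hn hk hs).trans_le (Nat.pow_le_pow_right (by norm_num)
      (Nat.mul_le_mul_right _ (Nat.pow_le_pow_right (by omega) (by omega))))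

/-- **Row N8**, the exponent for `c` at least `1`. -/
theorem num_pos {c n k s : ℕ} (hc : 1 ≤ c) (hn : c + 6 ≤ n) (hk : k ≤ n ^ c) (hs : s ≤ n ^ c) :
    3 ^ (k + 1 + s) * NB (k + 1) (n ^ c + 1) (2 ^ n ^ c) (n + k + 1 + s) ≤
      2 ^ (n ^ (4 * c + 3) * n) :=
  (num_pos_lt hc hn hk hs).le

/-- **Row N8.** -/
theorem num {c n k s : ℕ} (hn : c + 6 ≤ n) (hk : k ≤ n ^ c) (hs : s ≤ n ^ c) :
    3 ^ (k + 1 + s) * NB (k + 1) (n ^ c + 1) (2 ^ n ^ c) (n + k + 1 + s) ≤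
      2 ^ (n ^ (4 * c + 5) * n) :=
  (num_lt hn hk hs).le

end Pool.Agent.Lib.MP_641cb6_lc.KN
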