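import Pool.Agent.Lib.MP_641cb6_lc.KN.RandDefs
import Pool.Agent.Lib.MP_641cb6_lc.KN.CoreC
import Pool.Agent.Lib.MP_641cb6_lc.KN.Lower

/-!
# Randomized trees with guesses: the lower bound (helper16)
-/

set_option autoImplicit false

namespace Pool.Agent.Lib.MP_641cb6_lc.KN

open Pool.Agent.Lib.MP_641cb6_lc.KG
open MeasureTheory

/-- `lock` for the points accepted with at most `s` gates. -/
theorem lock_gates (hcell : CellBound) {n k a D M s t : ℕ} {V : GTree ℝ} (hV : V.Bounded a D)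
    (a0 : Fin n → ℝ) (p : Fin M → Fin (k + 1) → ℝ)
    (hans : ∀ j, V (V.run nn (inp a0 (p j)) t).hist = .answer true)
    (hs : ∀ j, gates nn V (inp a0 (p j)) t ≤ s)
    (hsep : Sep {z | ∃ t, V (V.run nn (inp a0 z) t).hist = .answer true ∧
      gates nn V (inp a0 z) t ≤ s} p) :
    M ≤ 3 ^ (k + 1 + s) * NB (k + 1) (a + 1) D (n + k + 1 + s) := by
  classical
  have hfib : ∀ g ∈ (Finset.univ : Finset (Fin M)).image (fun j => sg V a0 t s (p j)),
      ((Finset.univ : Finset (Fin M)).filter fun j => sg V a0 t s (p j) = g).card ≤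
        NB (k + 1) (a + 1) D (n + k + 1 + s) := by
    intro g hg
    obtain ⟨j₀, -, hj₀⟩ := Finset.mem_image.1 hg
    set I := (Finset.univ : Finset (Fin M)).filter fun j => sg V a0 t s (p j) = g with hI
    set h := (V.run nn (inp a0 (p j₀)) t).hist with hh
    set σ : ℕ → SignType := fun l => SignType.sign (fh V a0 h l (p j₀)) with hσ
    set e : Fin I.card ≃o I := I.orderIsoOfFin rfl with he
    have hsg : ∀ i : Fin I.card, sg V a0 t s (p (e i)) = sg V a0 t s (p j₀) := fun i => by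
      rw [hj₀]
      exact (Finset.mem_filter.1 (e i).2).2
    have hhist : ∀ i : Fin I.card, (V.run nn (inp a0 (p (e i))) t).hist = h := fun i =>
      hist_eq V a0 (p j₀) (p (e i)) (hs j₀) (hsg i) t le_rfl
    have hat : (sym (n + k) V h).atoms.length ≤ s := by
      rw [hh, atoms_length]
      exact hs j₀
    have hmem : ∀ i : Fin I.card, p (e i) ∈ Cell (fh V a0 h) σ (n + k + 1 + s) := by
      intro i l hl
      rcases Nat.lt_or_ge l n with h1 | h1
      · rw [hσ]
        simp only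
        rw [fh_const V a0 h h1, fh_const V a0 h h1]
      · obtain ⟨l, rfl⟩ : ∃ l', l = n + l' := ⟨l - n, by omega⟩
        have h2 := congrFun (hsg i) ⟨l, by omega⟩
        unfold sg at h2
        rw [hhist i] at h2
        exact h2
    have hz : p j₀ ∈ Cell (fh V a0 h) σ (n + k + 1 + s) := fun l _ => rfl
    refine hcell (k + 1) I.card (fh V a0 h) (a + 1) D (n + k + 1 + s) σ (fun i => p (e i))
      (fh_isNG hV a0 h _) hmem ?_
    intro i j hij C hC hconn hi hj
    refine hsep (e i) (e j) (fun h0 => hij ?_) C (fun w hw => ?_) hconn hi hj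
    · exact e.injective (Subtype.ext h0)
    · have h1 := cell_accepted V a0 (p j₀) w (hs j₀) σ hz (hC hw)
      refine ⟨t, ?_, ?_⟩
      · rw [h1]
        exact hans j₀
      · rw [← atoms_length, h1]
        exact hat
  have h1 := Finset.card_le_mul_card_image (f := fun j => sg V a0 t s (p j))
    (Finset.univ : Finset (Fin M)) _ hfib
  rw [Finset.card_univ, Fintype.card_fin] at h1
  have h2 : ((Finset.univ : Finset (Fin M)).image fun j => sg V a0 t s (p j)).card ≤
      3 ^ (k + 1 + s) := by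
    refine (Finset.card_le_univ _).trans ?_
    rw [Fintype.card_fun, Fintype.card_fin]
    exact le_of_eq (by rfl)
  calc M ≤ NB (k + 1) (a + 1) D (n + k + 1 + s) *
        ((Finset.univ : Finset (Fin M)).image fun j => sg V a0 t s (p j)).card := h1
    _ ≤ NB (k + 1) (a + 1) D (n + k + 1 + s) * 3 ^ (k + 1 + s) := Nat.mul_le_mul_left _ h2
    _ = _ := Nat.mul_comm _ _

/-- Accepted points of a slice with rejected points between them are few. -/
theorem slice_le (hcell : CellBound) {n k a D M s : ℕ} {V : GTree ℝ} (hV : V.Bounded a D)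
    (a0 : Fin n → ℝ) (c : Fin M → ℝ) (hc : ∀ j, Acc nn V k s (a0, c j))
    (hsep : ∀ i j, i < j → ∃ b, c i < b ∧ b < c j ∧ ¬ Acc nn V k s (a0, b)) :
    M ≤ 3 ^ (k + 1 + s) * NB (k + 1) (a + 1) D (n + k + 1 + s) := by
  classical
  have hacc : ∀ i, ∃ (y : Fin k → ℝ) (t : ℕ),
      V (V.run nn (Fin.append a0 y, c i) t).hist = .answer true ∧
        gates nn V (Fin.append a0 y, c i) t ≤ s := fun i => hc i
  choose y t hyt hyg using hacc
  set p : Fin M → Fin (k + 1) → ℝ := fun j =>
    Fin.snoc (α := fun _ => ℝ) (y j) (c j) with hp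
  have hinp : ∀ j, inp a0 (p j) = (Fin.append a0 (y j), c j) := fun j => inp_snoc a0 (y j) _
  have hpl : ∀ i, p i (Fin.last k) = c i := fun i => by
    rw [hp]
    simp
  have key : ∀ i j : Fin M, i < j → ∀ C ⊆
      {z | ∃ t, V (V.run nn (inp a0 z) t).hist = .answer true ∧ gates nn V (inp a0 z) t ≤ s},
      IsPreconnected C → p i ∈ C → p j ∈ C → False := by
    intro i j hij C hC hconn hi hj
    obtain ⟨b, hb1, hb2, hb3⟩ := hsep i j hij
    have h3 : IsPreconnected ((fun z : Fin (k + 1) → ℝ => z (Fin.last k)) '' C) :=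
      hconn.image _ (continuous_apply _).continuousOn
    have h4 : c i ∈ (fun z : Fin (k + 1) → ℝ => z (Fin.last k)) '' C := ⟨p i, hi, hpl i⟩
    have h5 : c j ∈ (fun z : Fin (k + 1) → ℝ => z (Fin.last k)) '' C := ⟨p j, hj, hpl j⟩
    obtain ⟨z, hz, hzb⟩ := h3.Icc_subset h4 h5 ⟨hb1.le, hb2.le⟩
    obtain ⟨t', ht', hg'⟩ := hC hz
    rw [inp_eq] at ht' hg'
    have hzb' : z (Fin.last k) = b := hzb
    rw [hzb'] at ht' hg'
    exact hb3 ⟨_, t', ht', hg'⟩
  refine lock_gates hcell hV a0 p (t := Finset.univ.sup t) (fun i => ?_) (fun i => ?_) ?_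
  · have h3 : V (V.run nn (inp a0 (p i)) (t i)).hist = .answer true := by
      rw [hinp]
      exact hyt i
    have h4 := run_stay' V (inp a0 (p i)) (Finset.le_sup (f := t) (Finset.mem_univ i)) h3
    have h5 : V (V.run nn (inp a0 (p i)) (Finset.univ.sup t)).hist = .answer true := by
      rw [h4]
      exact h3
    exact h5
  · have h3 : V (V.run nn (inp a0 (p i)) (t i)).hist = .answer true := by
      rw [hinp]
      exact hyt i
    have h4 := gates_stay V (inp a0 (p i)) (Finset.le_sup (f := t) (Finset.mem_univ i)) h3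
    refine h4.le.trans ?_
    rw [hinp]
    exact hyg i
  · intro i j hij C hC hconn hi hj
    rcases lt_or_gt_of_ne hij with h | h
    · exact key i j h C hC hconn hi hj
    · exact key j i h C hC hconn hj hi

/-- Accepted points that are followed by rejected ones are few. -/
theorem alt (hcell : CellBound) {n k a D N s : ℕ} {V : GTree ℝ} (hV : V.Bounded a D)
    (a0 : Fin n → ℝ) (e e' : Fin N → ℝ) (h1 : ∀ i, e i < e' i) (h2 : ∀ i j, i < j → e' i < e j)
    (R : Finset (Fin N)) (hR : ∀ j ∈ R, Acc nn V k s (a0, e j))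
    (hR' : ∀ j ∈ R, ¬ Acc nn V k s (a0, e' j)) :
    R.card ≤ 3 ^ (k + 1 + s) * NB (k + 1) (a + 1) D (n + k + 1 + s) := by
  refine slice_le hcell hV a0 (fun i : Fin R.card => e (R.orderEmbOfFin rfl i))
    (fun i => hR _ (R.orderEmbOfFin_mem rfl i)) fun i j hij => ?_
  exact ⟨e' (R.orderEmbOfFin rfl i), h1 _, h2 _ _ ((R.orderEmbOfFin rfl).strictMono hij),
    hR' _ (R.orderEmbOfFin_mem rfl i)⟩

/-- Accepted points that are preceded by rejected ones are few. -/
theorem alt' (hcell : CellBound) {n k a D N s : ℕ} {V : GTree ℝ} (hV : V.Bounded a D)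
    (a0 : Fin n → ℝ) (e e' : Fin N → ℝ) (h1 : ∀ i, e i < e' i) (h2 : ∀ i j, i < j → e' i < e j)
    (R : Finset (Fin N)) (hR : ∀ j ∈ R, ¬ Acc nn V k s (a0, e j))
    (hR' : ∀ j ∈ R, Acc nn V k s (a0, e' j)) :
    R.card ≤ 3 ^ (k + 1 + s) * NB (k + 1) (a + 1) D (n + k + 1 + s) := by
  refine slice_le hcell hV a0 (fun i : Fin R.card => e' (R.orderEmbOfFin rfl i))
    (fun i => hR' _ (R.orderEmbOfFin_mem rfl i)) fun i j hij => ?_
  exact ⟨e (R.orderEmbOfFin rfl j), h2 _ _ ((R.orderEmbOfFin rfl).strictMono hij), h1 _,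
    hR _ (R.orderEmbOfFin_mem rfl j)⟩

/-- A Boolean function of `r` predicates changes few times. -/
theorem change_le (hcell : CellBound) {n k a D N s r : ℕ} {V : Fin r → GTree ℝ}
    (hV : ∀ i, (V i).Bounded a D) (f : (Fin r → Prop) → Prop)
    (a0 : Fin n → ℝ) (e e' : Fin N → ℝ) (h1 : ∀ i, e i < e' i) (h2 : ∀ i j, i < j → e' i < e j)
    (R : Finset (Fin N)) (hR : ∀ j ∈ R, f fun i => Acc nn (V i) k s (a0, e j))
    (hR' : ∀ j ∈ R, ¬ f fun i => Acc nn (V i) k s (a0, e' j)) :
    R.card ≤ 2 * r * (3 ^ (k + 1 + s) * NB (k + 1) (a + 1) D (n + k + 1 + s)) := by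
  classical
  let A : Fin r → Finset (Fin N) := fun i => R.filter fun j =>
    Acc nn (V i) k s (a0, e j) ∧ ¬ Acc nn (V i) k s (a0, e' j)
  let B : Fin r → Finset (Fin N) := fun i => R.filter fun j =>
    ¬ Acc nn (V i) k s (a0, e j) ∧ Acc nn (V i) k s (a0, e' j)
  have hsub : R ⊆ Finset.univ.biUnion fun i => A i ∪ B i := by
    intro j hj
    have h3 : ∃ i, ¬ (Acc nn (V i) k s (a0, e j) ↔ Acc nn (V i) k s (a0, e' j)) := by
      by_contra hcon
      push Not at hcon
      have h4 : (fun i => Acc nn (V i) k s (a0, e j)) = fun i => Acc nn (V i) k s (a0, e' j) :=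
        funext fun i => propext (hcon i)
      have h5 := hR j hj
      rw [h4] at h5
      exact hR' j hj h5
    obtain ⟨i, hi⟩ := h3
    rw [Finset.mem_biUnion]
    refine ⟨i, Finset.mem_univ _, ?_⟩
    rw [Finset.mem_union, Finset.mem_filter, Finset.mem_filter]
    by_cases h6 : Acc nn (V i) k s (a0, e j)
    · exact Or.inl ⟨hj, h6, fun h7 => hi ⟨fun _ => h7, fun _ => h6⟩⟩
    · refine Or.inr ⟨hj, h6, ?_⟩
      by_contra h7
      exact hi ⟨fun h8 => absurd h8 h6, fun h8 => absurd h8 h7⟩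
  have hc : ∀ i ∈ (Finset.univ : Finset (Fin r)), (A i ∪ B i).card ≤
      2 * (3 ^ (k + 1 + s) * NB (k + 1) (a + 1) D (n + k + 1 + s)) := by
    intro i _
    have h3 := alt hcell (hV i) a0 e e' h1 h2 (A i) (fun j hj => (Finset.mem_filter.1 hj).2.1)
      (fun j hj => (Finset.mem_filter.1 hj).2.2)
    have h4 := alt' hcell (hV i) a0 e e' h1 h2 (B i) (fun j hj => (Finset.mem_filter.1 hj).2.1)
      (fun j hj => (Finset.mem_filter.1 hj).2.2)
    have h5 := Finset.card_union_le (A i) (B i)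
    omega
  calc R.card ≤ (Finset.univ.biUnion fun i => A i ∪ B i).card := Finset.card_le_card hsub
    _ ≤ (Finset.univ : Finset (Fin r)).card *
        (2 * (3 ^ (k + 1 + s) * NB (k + 1) (a + 1) D (n + k + 1 + s))) :=
        Finset.card_biUnion_le_card_mul _ _ _ hc
    _ = _ := by
        rw [Finset.card_univ, Fintype.card_fin]
        ring

/-- If in each case the events `P j` without `Q j` are at most `M`, then the sum of the
probabilities of the `P j` is at most `M` plus the sum of the outer probabilities of the `Q j`. -/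
theorem sum_le_of_card {Ω : Type} [MeasurableSpace Ω] (μ : Measure Ω) [IsProbabilityMeasure μ]
    {N M : ℕ} (P Q : Fin N → Set Ω) (hP : ∀ j, MeasurableSet (P j))
    (h : ∀ ω, ∀ R : Finset (Fin N), (∀ j ∈ R, ω ∈ P j ∧ ω ∉ Q j) → R.card ≤ M) :
    ∑ j, μ.real (P j) ≤ (∑ j, μ.real (Q j)) + M := by
  classical
  let Q' : Fin N → Set Ω := fun j => toMeasurable μ (Q j)
  have hQ' : ∀ j, MeasurableSet (Q' j) := fun j => measurableSet_toMeasurable _ _
  have hpt : ∀ ω, (∑ j, (P j).indicator (fun _ => (1 : ENNReal)) ω) ≤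
      (∑ j, (Q' j).indicator (fun _ => (1 : ENNReal)) ω) + M := by
    intro ω
    have h1 : ∀ A : Fin N → Set Ω, (∑ j, (A j).indicator (fun _ => (1 : ENNReal)) ω) =
        ((Finset.univ.filter fun j => ω ∈ A j).card : ENNReal) := by
      intro A
      rw [Finset.card_filter]
      push_cast
      refine Finset.sum_congr rfl fun j _ => ?_
      by_cases hj : ω ∈ A j <;> simp [hj]
    rw [h1, h1]
    have h2 : (Finset.univ.filter fun j => ω ∈ P j).card ≤
        (Finset.univ.filter fun j => ω ∈ Q' j).card + M := by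
      have h3 := h ω ((Finset.univ.filter fun j => ω ∈ P j) \
        (Finset.univ.filter fun j => ω ∈ Q' j)) (by
        intro j hj
        rw [Finset.mem_sdiff, Finset.mem_filter, Finset.mem_filter] at hj
        refine ⟨hj.1.2, fun h4 => hj.2 ⟨Finset.mem_univ _, subset_toMeasurable μ _ h4⟩⟩)
      have h4 := Finset.le_card_sdiff (Finset.univ.filter fun j => ω ∈ Q' j)
        (Finset.univ.filter fun j => ω ∈ P j)
      omega
    exact_mod_cast h2
  have h5 : ∑ j, μ (P j) ≤ (∑ j, μ (Q j)) + M := by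
    have h6 : ∑ j, μ (P j) = ∫⁻ ω, ∑ j, (P j).indicator (fun _ => (1 : ENNReal)) ω ∂μ := by
      rw [lintegral_finsetSum]
      · refine Finset.sum_congr rfl fun j _ => ?_
        rw [lintegral_indicator_const (hP j), one_mul]
      · intro j _
        exact measurable_const.indicator (hP j)
    have h7 : ∫⁻ ω, ((∑ j, (Q' j).indicator (fun _ => (1 : ENNReal)) ω) + M) ∂μ =
        (∑ j, μ (Q j)) + M := by
      rw [lintegral_add_right _ measurable_const, lintegral_const, measure_univ, mul_one,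
        lintegral_finsetSum]
      · congr 1
        refine Finset.sum_congr rfl fun j _ => ?_
        rw [lintegral_indicator_const (hQ' j), one_mul, measure_toMeasurable]
      · intro j _
        exact measurable_const.indicator (hQ' j)
    rw [h6, ← h7]
    exact lintegral_mono hpt
  have h8 : ∀ A : Fin N → Set Ω, ∑ j, μ.real (A j) = (∑ j, μ (A j)).toReal := by
    intro A
    rw [ENNReal.toReal_sum fun j _ => measure_ne_top μ _]
    rfl
  have h9 : ∀ A : Fin N → Set Ω, (∑ j, μ (A j)) ≠ ⊤ := by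
    intro A
    exact (ENNReal.sum_lt_top.2 fun j _ => measure_lt_top μ _).ne
  rw [h8, h8]
  have h10 := ENNReal.toReal_mono (ENNReal.add_ne_top.2 ⟨h9 Q, ENNReal.natCast_ne_top M⟩) h5
  rwa [ENNReal.toReal_add (h9 Q) (ENNReal.natCast_ne_top M), ENNReal.toReal_natCast] at h10

/-- **The lower bound on one slice.** -/
theorem rand_slice (hcell : CellBound) {n k a D N s r : ℕ} {Ω : Type} [MeasurableSpace Ω]
    (μ : Measure Ω) [IsProbabilityMeasure μ] {V : Ω → Fin r → GTree ℝ}
    (hV : ∀ ω i, (V ω i).Bounded a D) (f : Ω → (Fin r → Prop) → Prop)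
    {q δ : ℝ} {T : Set ((Fin n → ℝ) × ℝ)}
    (h : Advantage μ (fun ω x => f ω fun i => Acc nn (V ω i) k s x) q δ T)
    (a0 : Fin n → ℝ) (e e' : Fin N → ℝ) (h1 : ∀ i, e i < e' i) (h2 : ∀ i j, i < j → e' i < e j)
    (he : ∀ j, (a0, e j) ∈ T) (he' : ∀ j, (a0, e' j) ∉ T) :
    (N : ℝ) * δ ≤
      ((2 * r * (3 ^ (k + 1 + s) * NB (k + 1) (a + 1) D (n + k + 1 + s)) : ℕ) : ℝ) := by
  choose E hE1 hE2 hE3 using fun j => h.1 _ (he j)
  have h3 := sum_le_of_card μ E (fun j => {ω | f ω fun i => Acc nn (V ω i) k s (a0, e' j)}) hE1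
    (M := 2 * r * (3 ^ (k + 1 + s) * NB (k + 1) (a + 1) D (n + k + 1 + s))) (by
    intro ω R hR
    exact change_le hcell (hV ω) (f ω) a0 e e' h1 h2 R (fun j hj => hE3 j ω (hR j hj).1)
      (fun j hj => (hR j hj).2))
  have h4 : (N : ℝ) * (q + δ) ≤ ∑ j, μ.real (E j) := by
    have h5 := Finset.sum_le_sum (s := Finset.univ) fun (j : Fin N) _ => hE2 j
    rw [Finset.sum_const, Finset.card_univ, Fintype.card_fin, nsmul_eq_mul] at h5
    exact h5
  have h6 : ∑ j, μ.real {ω | f ω fun i => Acc nn (V ω i) k s (a0, e' j)} ≤ (N : ℝ) * q := by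
    have h5 := Finset.sum_le_sum (s := Finset.univ) fun (j : Fin N) _ => h.2 _ (he' j)
    rw [Finset.sum_const, Finset.card_univ, Fintype.card_fin, nsmul_eq_mul] at h5
    exact h5
  have h7 : (N : ℝ) * (q + δ) = (N : ℝ) * q + N * δ := by ring
  linarith

/-- points of a fibre of `SumSet n m` and of its complement in turn -/
theorem family_alt (n m : ℕ) : ∃ (a0 : Fin n → ℝ) (N : ℕ) (e e' : Fin N → ℝ),
    2 ^ (m * n) ≤ N ∧ (∀ i, e i < e' i) ∧ (∀ i j, i < j → e' i < e j) ∧
    (∀ j, (a0, e j) ∈ SumSet n m) ∧ ∀ j, (a0, e' j) ∉ SumSet n m := by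
  obtain ⟨a0, B, hB, hmem⟩ := family n m
  obtain ⟨c, hc1, hc2⟩ := exists_between_points B
  have hb : ∀ j : Fin B.card, ∃ b ∈ B, c j < b ∧ b < c (j + 1) := fun j =>
    hc2 j (j + 1) (Nat.lt_succ_self _) (by omega)
  choose b hbB hb1 hb2 using hb
  have hcm : ∀ i j : ℕ, i ≤ j → j ≤ B.card → c i ≤ c j := by
    intro i j hij hj
    rcases eq_or_lt_of_le hij with h3 | h3
    · rw [h3]
    · obtain ⟨x, _, h4, h5⟩ := hc2 i j h3 hj
      exact (h4.trans h5).le
  refine ⟨a0, B.card, b, fun j => c (j + 1), hB, hb2, ?_, ?_, ?_⟩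
  · intro i j hij
    exact (hcm _ _ (by
      have : (i : ℕ) < j := hij
      omega) (by omega)).trans_lt (hb1 j)
  · intro j
    exact (hmem _).2 (hbB j)
  · intro j h3
    exact hc1 (j + 1) (by omega) ((hmem _).1 h3)

/-- Passing to the complement. -/
theorem advantage_compl {X Ω : Type} [MeasurableSpace Ω] (μ : Measure Ω) [IsProbabilityMeasure μ]
    {W : Ω → X → Prop} {q δ : ℝ} {S : Set X} (h : Advantage μ W q δ Sᶜ) :
    Advantage μ (fun ω x => ¬ W ω x) (1 - q - δ) δ S := by
  refine ⟨fun x hx => ?_, fun x hx => ?_⟩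
  · refine ⟨(toMeasurable μ {ω | W ω x})ᶜ, (measurableSet_toMeasurable _ _).compl, ?_, ?_⟩
    · have h1 := h.2 x (fun h3 => h3 hx)
      have h2 : μ.real (toMeasurable μ {ω | W ω x}) = μ.real {ω | W ω x} := by
        unfold Measure.real
        rw [measure_toMeasurable]
      rw [measureReal_compl (measurableSet_toMeasurable _ _), h2, probReal_univ]
      linarith
    · intro ω hω hW
      exact hω (subset_toMeasurable μ _ hW)
  · obtain ⟨E, h1, h2, h3⟩ := h.1 x hx
    have h4 : {ω | ¬ W ω x} ⊆ Eᶜ := fun ω hω hE => hω (h3 ω hE)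
    have h5 : μ.real {ω | ¬ W ω x} ≤ μ.real Eᶜ := measureReal_mono h4
    rw [measureReal_compl h1, probReal_univ] at h5
    linarith

/-- **The lower bound** for random Boolean functions of `r` sets accepted with guesses. -/
theorem rand_lower (hcell : CellBound) {n m k a D s r : ℕ} {Ω : Type} [MeasurableSpace Ω]
    (μ : Measure Ω) [IsProbabilityMeasure μ] {V : Ω → Fin r → GTree ℝ}
    (hV : ∀ ω i, (V ω i).Bounded a D) (f : Ω → (Fin r → Prop) → Prop) {q δ : ℝ}
    (h : Advantage μ (fun ω x => f ω fun i => Acc (fun v : ℝ => 0 ≤ v) (V ω i) k s x) q δ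
        (SumSet n m) ∨
      Advantage μ (fun ω x => f ω fun i => Acc (fun v : ℝ => 0 ≤ v) (V ω i) k s x) q δ
        (SumSet n m)ᶜ) :
    (2 : ℝ) ^ (m * n) * δ ≤
      ((2 * r * (3 ^ (k + 1 + s) * NB (k + 1) (a + 1) D (n + k + 1 + s)) : ℕ) : ℝ) := by
  obtain ⟨a0, N, e, e', hN, h1, h2, h3, h4⟩ := family_alt n m
  rcases lt_or_ge δ 0 with hδ | hδ
  · exact (mul_nonpos_of_nonneg_of_nonpos (by positivity) hδ.le).trans (Nat.cast_nonneg _)
  refine le_trans (mul_le_mul_of_nonneg_right (b := (2 : ℝ) ^ (m * n)) (c := (N : ℝ)) ?_ hδ) ?_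
  · exact_mod_cast hN
  · rcases h with h | h
    · exact rand_slice hcell μ hV f h a0 e e' h1 h2 h3 h4
    · exact rand_slice hcell μ hV (fun ω P => ¬ f ω P) (advantage_compl μ h) a0 e e' h1 h2 h3 h4

end Pool.Agent.Lib.MP_641cb6_lc.KN
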