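import Pool.Agent.Lib.MP_641cb6_lc.KN.Defs

/-!
# Random Boolean combinations of trees with guesses: definitions (helper16)
-/

set_option autoImplicit false

namespace Pool.Agent.Lib.MP_641cb6_lc.KN

open Pool.Agent.Lib.MP_641cb6_lc.KG (GTree gates)
open MeasureTheory

/-- For some `k` guesses from `K` the tree answers `true` on the input `x = (a, b)` after finitely
many steps and at most `s` gates. -/
def Acc {K : Type} [Field K] (P : K → Prop) (V : GTree K) (k s : ℕ) {n : ℕ}
    (x : (Fin n → K) × K) : Prop :=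
  ∃ (y : Fin k → K) (t : ℕ), V (V.run P (Fin.append x.1 y, x.2) t).hist = .answer true ∧
    gates P V (Fin.append x.1 y, x.2) t ≤ s

/-- `S` is decided with advantage `δ`: `W ω x` holds for an `x` in `S` on an event of probability at
least `q + δ`, and for an `x` not in `S` with outer probability at most `q`. -/
def Advantage {X Ω : Type} [MeasurableSpace Ω] (μ : Measure Ω) (W : Ω → X → Prop) (q δ : ℝ)
    (S : Set X) : Prop :=
  (∀ x ∈ S, ∃ E : Set Ω, MeasurableSet E ∧ q + δ ≤ μ.real E ∧ ∀ ω ∈ E, W ω x) ∧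
  ∀ x ∉ S, μ.real {ω | W ω x} ≤ q

end Pool.Agent.Lib.MP_641cb6_lc.KN
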