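import Pool.Agent.Lib.MP_641cb6_lc.KN.Num

/-!
# Numerics for random Boolean combinations (helper16)
-/

set_option autoImplicit false

namespace Pool.Agent.Lib.MP_641cb6_lc.KN

/-- `num_pos_lt` with the factor `2 ^ (2 n ^ c + 1)` -/
theorem rnum_pos {c n k s : ℕ} (hc : 1 ≤ c) (hn : c + 6 ≤ n) (hk : k ≤ n ^ c) (hs : s ≤ n ^ c) :
    2 ^ (2 * n ^ c + 1) *
      (3 ^ (k + 1 + s) * NB (k + 1) (n ^ c + 1) (2 ^ n ^ c) (n + k + 1 + s)) <
      2 ^ (n ^ (4 * c + 3) * n) := by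
  have hnx : n ≤ n ^ c := by
    calc n = n ^ 1 := (pow_one n).symm
      _ ≤ n ^ c := Nat.pow_le_pow_right (by omega) hc
  have hexp : n ^ (4 * c + 3) * n = n ^ 4 * (n ^ c) ^ 4 := by
    rw [← pow_succ, ← pow_mul, ← pow_add]
    congr 1
    ring
  have hsq : (n ^ c) ^ 2 ≤ 2 ^ (n * c) := by
    rw [← pow_mul, mul_comm c 2, pow_mul, pow_mul]
    exact Nat.pow_le_pow_left (sq_le_two_pow (by omega)) c
  have h7 : 7 ≤ n := by omega
  have hc' : c ≤ n - 6 := by omega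
  have hw : n * c + 4 ≤ n ^ 2 := by
    obtain ⟨t, rfl⟩ : ∃ t, n = c + 6 + t := ⟨n - (c + 6), by omega⟩
    nlinarith
  generalize n ^ c = x at *
  have hx4 := four_mul_le_two_pow (x := x) (by omega)
  have hbig : 2 * (k + 1 + s) + 3 * x * (6 * x ^ 2 - 1) + (n * c + 4) * (6 * x ^ 2 - 1 + 1) ^ 2 +
      (2 * x + 1) < n ^ 4 * x ^ 4 := by
    have h1 : 1 ≤ x ^ 2 := Nat.one_le_pow _ _ (by omega)
    have h2 : 6 * x ^ 2 - 1 + 1 = 6 * x ^ 2 := by omega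
    rw [h2]
    have h3 : 3 * x * (6 * x ^ 2 - 1) ≤ 3 * x * (6 * x ^ 2) := Nat.mul_le_mul_left _ (by omega)
    have h4 : (n * c + 4) * (6 * x ^ 2) ^ 2 ≤ n ^ 2 * (6 * x ^ 2) ^ 2 :=
      Nat.mul_le_mul_right _ hw
    have h5 : 2 * (k + 1 + s) + (2 * x + 1) ≤ 7 * x := by omega
    have h6 : 7 * x + 3 * x * (6 * x ^ 2) ≤ 3 * x ^ 4 := by
      have h7 : 7 ≤ x := by omega
      have h8 : 7 * x + 18 * x ^ 3 ≤ 3 * x ^ 4 := by
        have h9 : x ^ 4 = x * x ^ 3 := by ring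
        have h10 : x ^ 3 = x * x ^ 2 := by ring
        nlinarith [Nat.mul_le_mul h7 (le_refl (x ^ 3)), Nat.mul_le_mul h7 (le_refl (x ^ 2)),
          Nat.mul_le_mul h7 (le_refl x)]
      nlinarith
    have h7 : 3 * x ^ 4 + n ^ 2 * (6 * x ^ 2) ^ 2 < n ^ 4 * x ^ 4 := by
      have h0 : 0 < x ^ 4 := Nat.pow_pos (by omega)
      have h8 : 3 + 36 * n ^ 2 + 1 ≤ n ^ 4 := by
        have h9 : 49 ≤ n ^ 2 := by nlinarith
        have h10 : n ^ 4 = n ^ 2 * n ^ 2 := by ring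
        have h11 := Nat.mul_le_mul h9 (le_refl (n ^ 2))
        rw [h10]
        omega
      nlinarith [Nat.mul_le_mul h8 (le_refl (x ^ 4))]
    omega
  rw [hexp]
  have hE : 2 * (k + 1 + s) + 3 * x * (6 * x ^ 2 - 1) + (n * c + 4) * (6 * x ^ 2 - 1 + 1) ^ 2 <
      n ^ 4 * x ^ 4 - (2 * x + 1) := by omega
  have hmain := bound_of (k := k) (s := s) (K := k + 1) (q := x + 1) (d := 2 ^ x)
    (L := n + k + 1 + s) (N := 6 * x ^ 2 - 1) (w₁ := 3 * x) (w₂ := n * c + 4) (by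
      have h1 : (n + k + 1 + s) * (x + 1 + 4) ≤ (3 * x + 1) * (x + 5) :=
        Nat.mul_le_mul (by omega) (by omega)
      have h2 : k + 1 + ((3 * x + 1) * (x + 5) + 2) + 1 ≤ 6 * x ^ 2 := by nlinarith
      omega) (by
      have h1 : n + k + 1 + s + 1 ≤ 4 * x := by omega
      have h2 : 2 ^ x + 3 ≤ 2 * 2 ^ x := by omega
      have h3 : (2 ^ x + 3) * (n + k + 1 + s + 1) ≤ (2 * 2 ^ x) * 2 ^ x :=
        Nat.mul_le_mul h2 (h1.trans hx4)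
      have h4 : 2 ^ (3 * x) = 2 ^ x * (2 ^ x * 2 ^ x) := by
        rw [show 3 * x = x + (x + x) by ring, pow_add, pow_add]
      rw [h4]
      have h5 : 28 ≤ 2 ^ x := by omega
      nlinarith [Nat.mul_le_mul h5 (le_refl (2 ^ x * 2 ^ x))]) (by
      have h1 : 1 ≤ x ^ 2 := Nat.one_le_pow _ _ (by omega)
      rw [pow_add]
      have h2 : 2 ≤ x ^ 2 := by nlinarith
      omega) hE
  calc 2 ^ (2 * x + 1) * (3 ^ (k + 1 + s) * NB (k + 1) (x + 1) (2 ^ x) (n + k + 1 + s))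
      < 2 ^ (2 * x + 1) * 2 ^ (n ^ 4 * x ^ 4 - (2 * x + 1)) :=
        Nat.mul_lt_mul_of_pos_left hmain (by positivity)
    _ = 2 ^ (n ^ 4 * x ^ 4) := by
        rw [← pow_add]
        congr 1
        omega

/-- `num_lt` with the factor `2 ^ (2 n ^ c + 1)` -/
theorem rnum {c n k s : ℕ} (hn : c + 6 ≤ n) (hk : k ≤ n ^ c) (hs : s ≤ n ^ c) :
    2 ^ (2 * n ^ c + 1) *
      (3 ^ (k + 1 + s) * NB (k + 1) (n ^ c + 1) (2 ^ n ^ c) (n + k + 1 + s)) <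
      2 ^ (n ^ (4 * c + 5) * n) := by
  rcases Nat.eq_zero_or_pos c with rfl | hc
  · rw [pow_zero] at hk hs ⊢
    have h1 : 5 * n + 22 ≤ 2 ^ n := by
      obtain ⟨t, rfl⟩ : ∃ t, n = t + 6 := ⟨n - 6, by omega⟩
      clear hn hk hs
      induction t with
      | zero => norm_num
      | succ t ih =>
        rw [show t + 1 + 6 = (t + 6) + 1 by ring, pow_succ]
        omega
    have h6 : 9 + n * (10 * n) + (n + 2) * (10 * n) ^ 2 < 216 * n ^ 3 := by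
      obtain ⟨t, rfl⟩ : ∃ t, n = t + 6 := ⟨n - 6, by omega⟩
      ring_nf
      nlinarith [sq_nonneg t, Nat.zero_le (t ^ 3)]
    have h5 : 216 * n ^ 3 ≤ n ^ 3 * n ^ 3 := by
      have h6 : 6 ^ 3 ≤ n ^ 3 := Nat.pow_le_pow_left (by omega) 3
      exact Nat.mul_le_mul_right _ (by omega)
    have h4 : n ^ (4 * 0 + 5) * n = n ^ 3 * n ^ 3 := by ring
    rw [h4]
    have h2 : 10 * n - 1 + 1 = 10 * n := by omega
    have h3 : n * (10 * n - 1) ≤ n * (10 * n) := Nat.mul_le_mul_left _ (by omega)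
    have hE : 2 * (k + 1 + s) + n * (10 * n - 1) + (n + 2) * (10 * n - 1 + 1) ^ 2 <
        n ^ 3 * n ^ 3 - (2 * 1 + 1) := by
      rw [h2]
      omega
    have hmain := bound_of (k := k) (s := s) (K := k + 1) (q := 1 + 1) (d := 2 ^ 1)
      (L := n + k + 1 + s) (N := 10 * n - 1) (w₁ := n) (w₂ := n + 2) (by omega) (by omega) (by
        rw [pow_add]
        omega) hE
    calc 2 ^ (2 * 1 + 1) * (3 ^ (k + 1 + s) * NB (k + 1) (1 + 1) (2 ^ 1) (n + k + 1 + s))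
        < 2 ^ (2 * 1 + 1) * 2 ^ (n ^ 3 * n ^ 3 - (2 * 1 + 1)) :=
          Nat.mul_lt_mul_of_pos_left hmain (by positivity)
      _ = 2 ^ (n ^ 3 * n ^ 3) := by
          rw [← pow_add]
          congr 1
          omega
  · exact (rnum_pos hc hn hk hs).trans_le (Nat.pow_le_pow_right (by norm_num)
      (Nat.mul_le_mul_right _ (Nat.pow_le_pow_right (by omega) (by omega))))

/-- The form used in the final theorem. -/
theorem rnum_real {c n k s r : ℕ} (hn : c + 6 ≤ n) (hk : k ≤ n ^ c) (hs : s ≤ n ^ c)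
    (hr : r ≤ 2 ^ n ^ c) {δ : ℝ} (hδ : 1 / 2 ^ n ^ c ≤ δ) :
    ((2 * r * (3 ^ (k + 1 + s) * NB (k + 1) (n ^ c + 1) (2 ^ n ^ c) (n + k + 1 + s)) : ℕ) : ℝ) <
      (2 : ℝ) ^ (n ^ (4 * c + 5) * n) * δ := by
  have h1 := rnum hn hk hs
  set M := 3 ^ (k + 1 + s) * NB (k + 1) (n ^ c + 1) (2 ^ n ^ c) (n + k + 1 + s) with hM
  have h2 : 2 * r * M * 2 ^ n ^ c ≤ 2 ^ (2 * n ^ c + 1) * M := by
    have h3 : 2 ^ (2 * n ^ c + 1) = 2 * 2 ^ n ^ c * 2 ^ n ^ c := by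
      rw [show 2 * n ^ c + 1 = 1 + n ^ c + n ^ c by ring, pow_add, pow_add, pow_one]
    rw [h3]
    calc 2 * r * M * 2 ^ n ^ c = r * (2 * M * 2 ^ n ^ c) := by ring
      _ ≤ 2 ^ n ^ c * (2 * M * 2 ^ n ^ c) := Nat.mul_le_mul_right _ hr
      _ = _ := by ring
  have h4 : 2 * r * M * 2 ^ n ^ c < 2 ^ (n ^ (4 * c + 5) * n) := h2.trans_lt h1
  have h5 : ((2 * r * M : ℕ) : ℝ) * 2 ^ n ^ c < 2 ^ (n ^ (4 * c + 5) * n) := by exact_mod_cast h4
  have h6 : (0 : ℝ) < 2 ^ n ^ c := by positivity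
  calc ((2 * r * M : ℕ) : ℝ) = ((2 * r * M : ℕ) : ℝ) * 2 ^ n ^ c * (1 / 2 ^ n ^ c) := by
        field_simp
    _ < 2 ^ (n ^ (4 * c + 5) * n) * (1 / 2 ^ n ^ c) :=
        mul_lt_mul_of_pos_right h5 (by positivity)
    _ ≤ _ := mul_le_mul_of_nonneg_left hδ (by positivity)

end Pool.Agent.Lib.MP_641cb6_lc.KN
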