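import Pool.Agent.Lib.MP_641cb6_lc.KN.Defs
import Pool.Agent.Lib.MP_641cb6_lc.KG.Up
import Pool.Agent.Lib.MP_641cb6_lc.KD.RealLocal

/-!
# Verification of `SumSet n m` with local checks
-/

set_option autoImplicit false

namespace Pool.Agent.Lib.MP_641cb6_lc.KN

open Pool.Agent.Lib.MP_641cb6_lc Pool.Agent.Lib.MP_641cb6_lc.KD
open Pool.Agent.Lib.MP_641cb6_lc.KH (CompTree Instr)
open Pool.Agent.Lib.MP_641cb6_lc.KC (bse bse_b bse_one bse_a)
open Pool.Agent.Lib.MP_641cb6_lc.KD.RL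

/-- the checks for `SumSet n m`, with `ng n m` guesses -/
def sysS (n m : ℕ) : List (Chk ℝ) :=
  base n m (n + ng n m + 1) ++ eqs 1 (-1) 0 (pz n m n) (n + ng n m + 1) (n + ng n m) 0

theorem sysS_lt (n m : ℕ) : ∀ C ∈ sysS n m, C.Lt (n + ng n m + 2) := by
  intro C hC
  simp only [sysS, eqs, List.mem_append, List.mem_cons, List.not_mem_nil, or_false] at hC
  rcases hC with hC | rfl | rfl
  · exact base_lt (by omega) (by omega) C hC
  all_goals
    unfold ng pz
    refine ⟨?_, ?_, ?_, ?_⟩ <;> dsimp only <;> omega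

theorem sysS_length (n m : ℕ) : 4 * (sysS n m).length + 1 ≤ 30 * (m + 1) * (n + 1) := by
  have h1 : (sysS n m).length = 2 * (m * n) + 4 * n + 4 := by
    unfold sysS eqs
    simp only [List.length_append, base_length, List.length_cons, List.length_nil]
  rw [h1]
  nlinarith [Nat.zero_le (m * n)]

theorem sysS_iff {n m : ℕ} (a : Fin n → ℝ) (u : Fin (ng n m) → ℝ) (b : ℝ) :
    (∀ C ∈ sysS n m, 0 ≤ C.eval (bse a u b)) ↔
      (∀ C ∈ base n m (n + ng n m + 1), 0 ≤ C.eval (bse a u b)) ∧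
      b = (bse a u b).getD (pz n m n) 0 := by
  have h2 : (∀ C ∈ eqs 1 (-1) 0 (pz n m n) (n + ng n m + 1) (n + ng n m) 0,
      0 ≤ C.eval (bse a u b)) ↔ b = (bse a u b).getD (pz n m n) 0 := by
    rw [eqs_iff, bse_one, bse_b]
    constructor <;> intro h <;> linarith
  rw [← h2]
  simp only [sysS, List.mem_append, or_imp, forall_and]

/-- **`SumSet n m` is verified locally**: with `n (m + 2) + 1` guesses in `30 (m + 1) (n + 1)`
steps, by a tree whose gates are linear polynomials in two values, and every gate depends on at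
most two gates. -/
theorem sumSet_local (n m : ℕ) : ∃ V : KG.GTree ℝ, V.Bounded 2 1 ∧
    KG.Verifies (fun v : ℝ => 0 ≤ v) V (n * (m + 1) + (n + 1)) (30 * (m + 1) * (n + 1))
      (SumSet n m) ∧
    ∀ (x : (Fin (n + (n * (m + 1) + (n + 1))) → ℝ) × ℝ) (s : ℕ),
      KG.UsesGate (fun v : ℝ => 0 ≤ v) V x s → s ≤ 2 := by
  show ∃ V : KG.GTree ℝ, V.Bounded 2 1 ∧
    KG.Verifies (fun v : ℝ => 0 ≤ v) V (ng n m) (30 * (m + 1) * (n + 1)) (SumSet n m) ∧
    ∀ (x : (Fin (n + ng n m) → ℝ) × ℝ) (s : ℕ),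
      KG.UsesGate (fun v : ℝ => 0 ≤ v) V x s → s ≤ 2
  have key : KC.Verifies (fun v : ℝ => 0 ≤ v) (sysTree (n + ng n m) (sysS n m)) (ng n m)
      (30 * (m + 1) * (n + 1)) (SumSet n m) := by
    refine ⟨fun x => ?_, fun x => ?_⟩
    · obtain ⟨b, _, h⟩ := sys_answer (fun v : ℝ => 0 ≤ v) (sysS_lt n m) x (sysS_length n m)
      exact ⟨b, h⟩
    · have hy : ∀ u : Fin (ng n m) → ℝ, (sysTree (n + ng n m) (sysS n m)
          ((sysTree (n + ng n m) (sysS n m)).run (fun v : ℝ => 0 ≤ v)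
          (Fin.append x.1 u, x.2) (30 * (m + 1) * (n + 1))).hist = .answer true) ↔
          ∀ C ∈ sysS n m, 0 ≤ C.eval (bse x.1 u x.2) := by
        intro u
        obtain ⟨b, hb, h⟩ := sys_answer (fun v : ℝ => 0 ≤ v) (sysS_lt n m)
          (Fin.append x.1 u, x.2) (sysS_length n m)
        rw [h]
        unfold bse
        rw [← hb]
        constructor
        · intro h
          injection h
        · rintro rfl
          rfl
      simp only [hy]
      constructor
      · rintro ⟨y, h1, h2⟩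
        let y' : ℕ → ℝ := fun i => if h : i < n then y ⟨i, h⟩ else 0
        have hy' : ∀ i : Fin n, y' i = y i := fun i => dif_pos i.isLt
        refine ⟨fun l => gs n m y' l, (sysS_iff _ _ _).2 ?_⟩
        obtain ⟨e1, e2, e3⟩ := base_gs (le_refl (ng n m)) x.1 x.2 y' (fun l => gs n m y' l)
          (fun l _ _ => rfl) (fun i => by rw [hy']; exact h1 i)
        refine ⟨e3, ?_⟩
        rw [e2 n le_rfl, Finset.sum_range]
        simpa only [hy'] using h2
      · rintro ⟨u, hu⟩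
        obtain ⟨h1, h3⟩ := (sysS_iff _ _ _).1 hu
        obtain ⟨e1, e2, e3⟩ := base_says (le_refl (ng n m)) x.1 x.2 u h1
        refine ⟨fun i => (bse x.1 u x.2).getD (py n m i 0) 0, e2, ?_⟩
        rw [← e3]
        exact h3
  refine ⟨KG.toG (sysTree (n + ng n m) (sysS n m)), KG.toG_bounded _, KG.toG_verifies key,
    fun x s hs => ?_⟩
  exact (sumsLe_sys (sysS_lt n m)).uses x s ((KG.toG_uses _ _ x s).1 hs)

end Pool.Agent.Lib.MP_641cb6_lc.KN
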